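import Pool.Agent.H72.S6B.Stm
import Pool.Agent.H84.DPC.Split
import Pool.Agent.H23.S6E.Stmts2

/-!
# (beta): the statements of the class half

`BFr`: the frames near the window `W g` for a plane of directions `(s, t)` which is a function of
the window `wq` and is closed to a precision above the thickness of the natural planks, with
natural labels at the windows `u j` of a mesh. `FrmRaw`, `FrmStmt`: existence of the frames.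
`ColStmt`: two lines through a position have transversal planes. `UpStmt`: the blocks beyond the
natural boxes have at most the rate `3 - c`.
-/

set_option autoImplicit false

namespace Pool.S6B

open Finset Real
open Pool.Agent.H49.Ent Pool.Agent.H32.Dense Pool.STK Pool.KA Pool.KA.Win Pool.KA.TRC
  Pool.KSAT Pool.K2S Pool.K2S.Rows Pool.K2S.FF Pool.PB Pool.KS6 Pool.S6K.Wfe Pool.UST Pool.S6U
  Pool.S6C Pool.Sel51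

/-- **The frames near the window `w₀ = W g`**, one family. `rot`, `th` are the numbers of the class;
`v₀`, `v` value and slope of `rot` at `w₀`; `R₀` a lower bound of the precision of the closed
planes, `qm` an upper bound of the velocities; `L` the size of the zone, `e L` the errors. -/
structure BFr {J : ℕ} (F : Fam 3 J) (A : F.Ω → Prop) (i₀ : Fin 3) (rot th : ℚ → ℝ)
    (w₀ v₀ v R₀ qm L e : ℝ) (wq : ℚ) (Nm : ℕ) (u : ℕ → ℚ) (sg : Fin 3 → Fin 3) (wa wb : ℕ)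
    (vp : ℕ → ℕ) (kap Hu HN : ℕ) (al nu kN nN : (Fin 3 → ℤ) × (ℕ × F.ζ) → ℝ)
    (a : ℕ → F.Ω → ℝ) (s t : F.Ω → ℝ) (z : ℕ → F.Ω → Pln) (B C E : ℝ) : Prop where
  fr : UFi F A sg ⌊(wq : ℝ) * J⌋₊ wa wb vp kap Hu HN al nu kN nN a s t B C
  s0 : sg 0 = i₀
  bk : ∀ ω, A ω → |al (Fam.pt F ω)| ≤ 2 ∧ |kN (Fam.pt F ω)| ≤ 2
  wa1 : (w₀ - L) * J ≤ wa
  wb1 : (wb : ℝ) ≤ (w₀ + L) * J
  wa2 : (wa : ℝ) ≤ (w₀ - L / 2) * J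
  wb2 : (w₀ + L / 2) * J ≤ wb
  lin : ∀ w, wa ≤ w → w ≤ wb → |(vp w : ℝ) - (v₀ * J + v * (w - w₀ * J))| ≤ e * L * J
  kap1 : R₀ * J ≤ kap
  room : Room (J := J) wb vp kap Hu HN ⌈qm * J⌉₊ (L * J)
  nl : ∀ j < Nm, NL F A sg ⌊(u j : ℝ) * J⌋₊ ⌊(rot (u j) - e * L) * J⌋₊ ⌊(th (u j) - e * L) * J⌋₊
    (z j)
  E1 : 1 ≤ E
  logE : Real.log E ≤ e * L * J
  cls : ∀ w, wa ≤ w → w ≤ wb → ∃ j < Nm, (u j : ℝ) * J ≤ w ∧ (w : ℝ) ≤ (u j + e * L) * J ∧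
    (vp w : ℝ) ≤ rot (u j) * J ∧ ∀ ω, A ω → |a w ω - fra (z j) ω| ≤ E / 2 ^ vp w ∧
      |s ω - frs (z j) ω| ≤ E / 2 ^ ⌊(th (u j) - u j - rot (u j)) * J⌋₊ ∧
      |(t ω - frt (z j) ω) + (s ω - frs (z j) ω) * fra (z j) ω| ≤
        E / 2 ^ ⌊(th (u j) - u j) * J⌋₊
  lo : 0 < Nm ∧ u 0 ≤ wq ∧ (vp wa : ℝ) ≤ rot (u 0) * J ∧ ∀ ω, A ω →
    |a wa ω - fra (z 0) ω| ≤ E / 2 ^ vp wa ∧
      |s ω - frs (z 0) ω| ≤ E / 2 ^ ⌊(th (u 0) - u 0 - rot (u 0)) * J⌋₊ ∧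
      |(t ω - frt (z 0) ω) + (s ω - frs (z 0) ω) * fra (z 0) ω| ≤
        E / 2 ^ ⌊(th (u 0) - u 0) * J⌋₊

theorem BFr.sub {J : ℕ} {F : Fam 3 J} {A A' : F.Ω → Prop} {i₀ : Fin 3} {rot th : ℚ → ℝ}
    {w₀ v₀ v R₀ qm L e : ℝ} {wq : ℚ} {Nm : ℕ} {u : ℕ → ℚ} {sg : Fin 3 → Fin 3} {wa wb : ℕ}
    {vp : ℕ → ℕ} {kap Hu HN : ℕ} {al nu kN nN : (Fin 3 → ℤ) × (ℕ × F.ζ) → ℝ}
    {a : ℕ → F.Ω → ℝ} {s t : F.Ω → ℝ} {z : ℕ → F.Ω → Pln} {B C E : ℝ}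
    (h : BFr F A i₀ rot th w₀ v₀ v R₀ qm L e wq Nm u sg wa wb vp kap Hu HN al nu kN nN a s t z
      B C E) (hA : Sub A' A) :
    BFr F A' i₀ rot th w₀ v₀ v R₀ qm L e wq Nm u sg wa wb vp kap Hu HN al nu kN nN a s t z
      B C E where
  fr := h.fr.sub hA
  s0 := h.s0
  bk := fun ω hω => h.bk ω (hA ω hω)
  wa1 := h.wa1
  wb1 := h.wb1
  wa2 := h.wa2
  wb2 := h.wb2
  lin := h.lin
  kap1 := h.kap1
  room := h.room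
  nl := fun j hj => ⟨fun ω hω => (h.nl j hj).inc ω (hA ω hω),
    fun ω ω' h1 h2 => (h.nl j hj).vis ω ω' (hA ω h1) (hA ω' h2),
    fun ω ω' h1 h2 => (h.nl j hj).con ω ω' (hA ω h1) (hA ω' h2)⟩
  E1 := h.E1
  logE := h.logE
  cls := fun w h1 h2 => by
    obtain ⟨j, hj, g1, g2, g3, g4⟩ := h.cls w h1 h2
    exact ⟨j, hj, g1, g2, g3, fun ω hω => g4 ω (hA ω hω)⟩
  lo := ⟨h.lo.1, h.lo.2.1, h.lo.2.2.1, fun ω hω => h.lo.2.2.2 ω (hA ω hω)⟩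

/-- **(FRM)** There are frames. `inf = True`: with a bound of the information of the plane of
directions at the exact points. -/
def FrmG (inf : Prop) (Γ : ℝ → ℝ → Prop) : Prop :=
  ∀ (S : PCl 3) (a R h₁ : ℝ) (i₀ : Fin 3) (c s₂ : ℝ) (r : ℝ → ℝ) (D : Set ℝ) (σ : ℝ → Row),
    Cs S a R h₁ i₀ c s₂ r D σ → ∀ (act : ℚ → ℝ) (K : Set ℝ) (W : ℝ → ℝ) (v₁ t : ℚ)
    (e₁ Q₀ P g v₀ v ρ a₀ α : ℝ), Loc S i₀ c s₂ r D σ act K W v₁ t e₁ Q₀ P g v₀ v ρ a₀ α →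
    Γ v ρ → ∀ (pe : ℝ) (rc : ℚ → ℝ) (Rc : ℝ), (P - g) + v₀ < pe → pe < (σ 1).pi →
    RcN S i₀ pe rc → RcC rc (W g) Rc → g - W g < Rc →
    ∃ B C Ki : ℝ, 1 ≤ B ∧ 1 ≤ C ∧ 0 < Ki ∧ ∀ M : ℝ, 0 < M → ∀ e : ℝ, 0 < e →
    ∃ L₀ : ℝ, 0 < L₀ ∧ ∀ L : ℝ, 0 < L → L ≤ L₀ → ∃ (wq : ℚ) (Nm : ℕ) (u : ℕ → ℚ),
      |(wq : ℝ) - W g| ≤ 2 * L ∧ (∀ j < Nm, |(u j : ℝ) - W g| ≤ 2 * L ∧ 0 < u j ∧
        0 ≤ (σ 1).th (u j) - u j - (σ 1).rot (u j)) ∧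
    ∀ (τ : ℝ) (J₀ : ℕ), 0 < τ → ∃ (J : ℕ) (F : Fam 3 J) (A : F.Ω → Prop), J₀ ≤ J ∧ S.St τ J F A ∧
    ∃ (sg : Fin 3 → Fin 3) (wa wb : ℕ) (vp : ℕ → ℕ) (kap Hu HN : ℕ)
      (al nu kN nN : (Fin 3 → ℤ) × (ℕ × F.ζ) → ℝ) (a : ℕ → F.Ω → ℝ) (s t : F.Ω → ℝ)
      (z : ℕ → F.Ω → Pln) (E : ℝ),
      BFr F A i₀ (σ 1).rot (σ 1).th (W g) v₀ v (g - W g + (v + ρ + 2) * L) (P - g + M * L) L e
        wq Nm u sg wa wb vp kap Hu HN al nu kN nN a s t z B C E ∧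
      (inf → ∀ p : F.Ω → ℝ, IsLaw p → (∀ ω, 0 < p ω → A ω) →
        CH p (fun ω => (s ω, t ω)) (Fam.pt F) ≤ Ki * L * J)

/-- The frames before the rounding of the plane of directions. -/
def FrmRaw (Γ : ℝ → ℝ → Prop) : Prop := FrmG False Γ

/-- The frames. -/
def FrmStmt (Γ : ℝ → ℝ → Prop) : Prop := FrmG True Γ

/-- **(COL)** Two lines with the same label, which is a function of the exact point up to a bounded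
entropy, have planes of directions which are transversal at the natural scale; at any rational
window `w` of the zone of the frames. `G`, `ρ₀` are the numbers `th w`, `rot w`. -/
def ColStmt : Prop :=
  ∀ (S : PCl 3) (i₀ : Fin 3) (w : ℚ) (G ρ₀ : ℝ), PNum S (capS 1 (qTh i₀ 1 w)) G → 0 ≤ w →
    (w : ℝ) + ρ₀ ≤ G → ∀ h : ℝ, 0 < h → G + h ≤ 1 → 0 ≤ ρ₀ → ∀ B C K₀ ε : ℝ, 0 < ε →
    Clp S (fun J F A => IsLaw (Pool.Agent.H49.Ent.cond F.p A True) →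
      ∀ (sg : Fin 3 → Fin 3) (wl wa wb : ℕ) (vp : ℕ → ℕ) (kap Hu HN : ℕ)
      (al nu kN nN : (Fin 3 → ℤ) × (ℕ × F.ζ) → ℝ) (a : ℕ → F.Ω → ℝ) (s t : F.Ω → ℝ),
      UFi F A sg wl wa wb vp kap Hu HN al nu kN nN a s t B C → sg 0 = i₀ →
      (∀ ω, A ω → |al (Fam.pt F ω)| ≤ 2 ∧ |kN (Fam.pt F ω)| ≤ 2) →
      wa ≤ ⌊(w : ℝ) * J⌋₊ → ⌊(w : ℝ) * J⌋₊ ≤ wb →
      (ρ₀ - h / 4) * J ≤ vp ⌊(w : ℝ) * J⌋₊ → (ρ₀ - h / 4) * J ≤ Hu →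
      (G - w + h) * J ≤ kap → (G - w + h) * J ≤ HN →
      ∀ (V : Type) (Lb : F.Ω → V) (m : ℕ),
        CH (Pool.Agent.H49.Ent.cond F.p A True) Lb (Fam.pt F) ≤ K₀ →
        (G - w - ρ₀ + h) * J ≤ m →
        Pool.KAF.Pr (dbl (Pool.Agent.H49.Ent.cond F.p A True) Lb)
          {x | |s x.1 - s x.2| < 1 / 2 ^ m} ≤ ε)

/-- **(UP)** The block beyond a natural box has at most the rate `3 - c`. -/
def UpStmt : Prop :=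
  ∀ (S : PCl 3) (a R h₁ : ℝ) (i₀ : Fin 3) (c s₂ : ℝ) (r : ℝ → ℝ) (D : Set ℝ) (σ : ℝ → Row),
    Cs S a R h₁ i₀ c s₂ r D σ → ∀ (act : ℚ → ℝ) (K : Set ℝ) (W : ℝ → ℝ) (v₁ t : ℚ)
    (e₁ Q₀ P g v₀ v ρ a₀ α : ℝ), Loc S i₀ c s₂ r D σ act K W v₁ t e₁ Q₀ P g v₀ v ρ a₀ α →
    ∀ ε : ℝ, 0 < ε → ∃ ε₀ X₀ : ℝ, 0 < ε₀ ∧ 0 < X₀ ∧ ∀ X : ℝ, 0 < X → X ≤ X₀ →
    ∀ w : ℚ, |(w : ℝ) - W g| ≤ X →
    Clp S (fun J F A => ∀ sg : Fin 3 → Fin 3, Function.Bijective sg → sg 0 = i₀ →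
      ∀ z : F.Ω → Pln, NL F A sg ⌊(w : ℝ) * J⌋₊ ⌊((σ 1).rot w - ε₀ * X) * J⌋₊
        ⌊((σ 1).th w - ε₀ * X) * J⌋₊ z →
      ∀ (a s t : F.Ω → ℝ) (E : ℝ), (∀ ω ω', A ω → A ω' → z ω = z ω' →
        a ω = a ω' ∧ s ω = s ω' ∧ t ω = t ω') → (∀ ω, A ω → |a ω| ≤ 8 ∧ |s ω| ≤ 8 ∧ |t ω| ≤ 8) →
      1 ≤ E → Real.log E ≤ ε₀ * X * J → Fcl F A w ((w : ℝ) + (σ 1).rot w) ((σ 1).th w) E z a s t →
      ∀ (r U N Y : ℕ) (q : ℝ), |q - (P - g)| ≤ X → |q + Y / J - (P - g)| ≤ X →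
        ((w : ℝ) + q) * J ≤ r → ((w : ℝ) + (σ 1).rot w + q) * J ≤ U →
        (N : ℝ) ≤ ((σ 1).th w + q) * J → r ≤ N → U ≤ N →
        |(N : ℝ) - P * J| ≤ X * J → |((N + Y : ℕ) : ℝ) - P * J| ≤ X * J →
        CH (Pool.Agent.H49.Ent.cond F.p A True) (F.sbx sg (r + Y) (U + Y) (N + Y) a s t)
          (fun ω => (F.sbx sg r U N a s t ω, F.W ω)) ≤
        (3 - c) * Y * Real.log 2 + ε * X * J)

end Pool.S6B
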