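import Pool.Agent.H2.UST.Fr
import Pool.Agent.H54.KVA.Defs2

/-!
# Frames whose plane of directions is not visible

`UFi`: as `UFr` (helper2), but the plane of directions `(s, t)` of the window `wl` is only a function
of the line and of the window, and not of the exact point. At the exact points the velocities are
`d_u = al d_e + nu + δ_u`, `d_N = kN d_e + nN + δ_N`, with `|δ_u| ≤ B / 2 ^ Hu` and
`|δ_N - s δ_u| ≤ B / 2 ^ HN`; the plane of directions is closed: `|kN - s al - t| ≤ C / 2 ^ kap`.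
-/

set_option autoImplicit false

namespace Pool.S6B

open Finset Real
open Pool.Agent.H49.Ent Pool.Agent.H32.Dense Pool.STK Pool.KA Pool.KA.Win Pool.KA.TRC
  Pool.KSAT Pool.K2S Pool.K2S.Rows Pool.K2S.FF Pool.PB Pool.S6K.Wfe Pool.UST

variable {J : ℕ}

/-- The frames on the windows `wa ≤ w ≤ wb`, with a plane of directions which is not visible. -/
structure UFi (F : Fam 3 J) (A : F.Ω → Prop) (σ : Fin 3 → Fin 3) (wl wa wb : ℕ) (vp : ℕ → ℕ)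
    (kap Hu HN : ℕ) (al nu kN nN : (Fin 3 → ℤ) × (ℕ × F.ζ) → ℝ) (a : ℕ → F.Ω → ℝ)
    (s t : F.Ω → ℝ) (B C : ℝ) : Prop where
  bij : Function.Bijective σ
  B1 : 1 ≤ B
  C1 : 1 ≤ C
  lw : wl ≤ wa
  wJ : wb ≤ J
  mono : ∀ w w', wa ≤ w → w ≤ w' → w' ≤ wb → vp w ≤ vp w'
  on1 : ∀ ω, A ω → |F.d ω (σ 1) - al (Fam.pt F ω) * F.d ω (σ 0) - nu (Fam.pt F ω)| ≤ B / 2 ^ Hu
  on2 : ∀ ω, A ω → |(F.d ω (σ 2) - kN (Fam.pt F ω) * F.d ω (σ 0) - nN (Fam.pt F ω)) -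
    s ω * (F.d ω (σ 1) - al (Fam.pt F ω) * F.d ω (σ 0) - nu (Fam.pt F ω))| ≤ B / 2 ^ HN
  bal : ∀ ω, A ω → |al (Fam.pt F ω)| ≤ B
  bd : ∀ ω, A ω → |s ω| ≤ B ∧ |t ω| ≤ B
  near : ∀ w, wa ≤ w → w ≤ wb → ∀ ω, A ω → |al (Fam.pt F ω) - a w ω| ≤ 3 / 2 ^ vp w
  int : ∀ w, wa ≤ w → w ≤ wb → ∀ ω, ∃ n : ℤ, a w ω = n / 2 ^ vp w
  clo : ∀ ω, A ω → |kN (Fam.pt F ω) - s ω * al (Fam.pt F ω) - t ω| ≤ C / 2 ^ kap
  slm : ∀ w, wa ≤ w → w ≤ wb → Det F.p (slam F w) (a w)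
  slp : Det F.p (slam F wl) (fun ω => (s ω, t ω))

theorem UFi.sub {F : Fam 3 J} {A A' : F.Ω → Prop} {σ : Fin 3 → Fin 3} {wl wa wb : ℕ}
    {vp : ℕ → ℕ} {kap Hu HN : ℕ} {al nu kN nN : (Fin 3 → ℤ) × (ℕ × F.ζ) → ℝ} {a : ℕ → F.Ω → ℝ}
    {s t : F.Ω → ℝ} {B C : ℝ} (h : UFi F A σ wl wa wb vp kap Hu HN al nu kN nN a s t B C)
    (hA : Sub A' A) : UFi F A' σ wl wa wb vp kap Hu HN al nu kN nN a s t B C :=
  ⟨h.bij, h.B1, h.C1, h.lw, h.wJ, h.mono, fun ω hω => h.on1 ω (hA ω hω),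
    fun ω hω => h.on2 ω (hA ω hω), fun ω hω => h.bal ω (hA ω hω), fun ω hω => h.bd ω (hA ω hω),
    fun w h1 h2 ω hω => h.near w h1 h2 ω (hA ω hω), h.int, fun ω hω => h.clo ω (hA ω hω),
    h.slm, h.slp⟩

/-- The information of the plane of directions on the velocity, beyond `q` digits, given the exact
point. -/
noncomputable def fri (F : Fam 3 J) (p : F.Ω → ℝ) (σ : Fin 3 → Fin 3) (s t : F.Ω → ℝ)
    (q q' : ℕ) : ℝ :=
  Pool.KVA.MI p (fun ω => F.D q' ω (σ 0)) (fun ω => (s ω, t ω)) (Pool.K2S.ptq F (σ 0) q)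

end Pool.S6B
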