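import Pool.Agent.H72.S6B.Def
import Pool.Agent.H2.UST.Cls

/-!
# The local U-step for planes of directions which are not visible: statements

`UhP`: the hypotheses of the U-step on a rectangle, without the rows of the base position, which
come from lemma W. `UhPStmt`: they hold in a class, for the frames `UFi`, if the plane of directions
has a small information on the velocity in the range of the rectangle. `UePStmt`: the conclusion.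
-/

set_option autoImplicit false

namespace Pool.S6B

open Finset Real
open Pool.Agent.H49.Ent Pool.Agent.H32.Dense Pool.STK Pool.KA Pool.KA.Win Pool.KA.TRC
  Pool.KSAT Pool.K2S Pool.K2S.Rows Pool.K2S.FF Pool.PB Pool.S6K.Wfe Pool.UST Pool.S6U Pool.S6C

/-- The hypotheses of the U-step on a rectangle, on events: time, slopes, the velocities of the
first coordinate in blocks of at least `η d` digits. `X` is the block. -/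
structure UhP {J : ℕ} (F : Fam 3 J) (p : F.Ω → ℝ) (σ : Fin 3 → Fin 3) (wa wb : ℕ) (vp : ℕ → ℕ)
    (D : ℕ) (a : ℕ → F.Ω → ℝ) (s t al : F.Ω → ℝ) (κ d X qa qb : ℕ) (x₁ ϖ δ ε₁ η ca : ℝ) :
    Prop where
  tm : ∀ E : F.Ω → Prop, ϖ ≤ Pe p E → ((J : ℝ) - wa) * Real.log 2 - δ * X ≤
    CH (Pool.Agent.H49.Ent.cond p E True) F.T (slam F wa)
  h6 : ∀ w q, wa ≤ w → w ≤ wb → qa ≤ q → q < qb → ∀ E : F.Ω → Prop, ϖ ≤ Pe p E →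
    Pool.KAF.Pr (dbl (Pool.Agent.H49.Ent.cond p E True)
      (F.blb w (cv (vp w) κ (q + X)) (frm σ (a w) s t)))
      {v | |sl (vp w) D (a w) al v.1 - sl (vp w) D (a w) al v.2| <
        (2 : ℝ) ^ (-(x₁ * X))} ≤ ε₁
  act : ∀ w q Y, wa ≤ w → w ≤ wb → qa ≤ q → q + Y ≤ qb + X → η * d ≤ Y → Y ≤ X →
    ∀ E : F.Ω → Prop, ϖ ≤ Pe p E →
    ca * Y * Real.log 2 ≤ CH (Pool.Agent.H49.Ent.cond p E True)
      (Uni.dg Y (fun ω => F.md (cv (vp w) κ q) (frm σ (a w) s t) ω 0))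
      (F.blb w (cv (vp w) κ q) (frm σ (a w) s t))

/-- The hypotheses on the class and the numbers in the local U-step. -/
structure UCs (S : PCl 3) (a₁ R : ℝ) (i₀ : Fin 3) (rt act : ℚ → ℝ)
    (w₀ v₀ v q₀ a₀ α : ℝ) : Prop where
  st : ∀ (τ : ℝ) (J : ℕ) (F : Fam 3 J) (A : F.Ω → Prop), S.St τ J F A → Fam.Stt F a₁ R τ A
  prt : ∀ w : ℚ, 0 ≤ w → w ≤ 1 → PNum S (capS 1 (qRot i₀ 1 w)) (rt w)
  rt0 : ∀ w : ℚ, 0 ≤ w → w ≤ 1 → 0 ≤ rt w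
  pac : ActN S i₀ act
  am : ∀ q q' : ℚ, 0 ≤ q → q ≤ q' → q' ≤ 1 → act q ≤ act q'
  w0 : 0 < w₀
  w1 : w₀ < 1
  v1 : v₀ < 1
  q0 : 0 < q₀
  q1 : q₀ < 1
  sr : Pool.Sel51.Slp rt w₀ v₀ v
  sa : Pool.Sel51.Slp act q₀ a₀ α

/-- **(UHP)** The hypotheses of the U-step in a class, `v ≥ 0`, for given constants; the plane of
directions is not visible. The constant `M` of the velocities is free at the end: the plane of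
directions has a small information on the velocities in one of many rectangles. -/
def UhPStmt : Prop :=
  ∀ (x₁ ϖ δ ε₁ γ η α : ℝ) (n d₀ : ℕ), 0 < x₁ → 0 < ϖ → 0 < δ → 0 < ε₁ → 0 < γ → 0 < η →
    0 < α → 1 ≤ n →
  ∀ v cw : ℝ, 0 ≤ v → 0 < cw → ∃ κ₀ : ℝ, 0 < κ₀ ∧ ∀ κ : ℝ, 0 < κ → κ ≤ κ₀ →
  ∃ e₂ e₃ : ℝ, 0 < e₂ ∧ 0 < e₃ ∧ ∀ M : ℝ, 0 < M →
  ∀ (S : PCl 3) (a₁ R : ℝ) (i₀ : Fin 3) (rt act : ℚ → ℝ) (w₀ v₀ q₀ a₀ : ℝ),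
    UCs S a₁ R i₀ rt act w₀ v₀ v q₀ a₀ α →
  ∃ L₀ : ℝ, 0 < L₀ ∧ ∀ L B C : ℝ, 0 < L → L ≤ L₀ → Clp S (fun J F A =>
    ∀ (σ : Fin 3 → Fin 3) (wl wa wb : ℕ) (vp : ℕ → ℕ) (kap Hu HN : ℕ)
      (al nu kN nN : (Fin 3 → ℤ) × (ℕ × F.ζ) → ℝ) (a : ℕ → F.Ω → ℝ) (s t : F.Ω → ℝ),
      UFi F A σ wl wa wb vp kap Hu HN al nu kN nN a s t B C → σ 0 = i₀ →
    ∀ qa qb d D : ℕ, UeN J w₀ v₀ v q₀ L M cw κ e₂ γ x₁ n wa wb vp kap Hu HN qa qb d D →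
    fri F (Pool.Agent.H49.Ent.cond F.p A True) σ s t qa (qb + n * d) ≤ e₃ * L * J →
    0 < Pe F.p A ∧ vp wb ≤ D ∧ d₀ ≤ d ∧
    (0 < v → ∃ tt, Ush wa wb vp D (n * d) tt qa qb J γ) ∧
    UhP F (Pool.Agent.H49.Ent.cond F.p A True) σ wa wb vp D a s t
        (fun ω => al (Fam.pt F ω)) kap d (n * d) qa qb x₁ ϖ δ ε₁ η (α / 2))

/-- The conclusion of the U-step at one context, in static boxes. -/
def UcP {J : ℕ} (F : Fam 3 J) (p : F.Ω → ℝ) (σ : Fin 3 → Fin 3) (vp : ℕ → ℕ)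
    (D : ℕ) (a : ℕ → F.Ω → ℝ) (s t al : F.Ω → ℝ) (κ X w q : ℕ) (ε : ℝ) : Prop :=
  ∀ N : ℕ, N ≤ w + q + κ →
    (2 - ε) * X * Real.log 2 ≤
      CH p (F.sbx σ (w + q + X) (w + vp w + q + X) N (ald D al) s t)
        (ocn F σ vp D a s t al κ w q N)

/-- **(UEP)** in a class: the plane of directions is not visible. -/
def UePStmt (V : Set ℝ) : Prop :=
  ∀ ε ρ α : ℝ, 0 < ε → 0 < ρ → 0 < α → ∃ (n : ℕ) (γ x₁ : ℝ), 1 ≤ n ∧ 0 < γ ∧ γ ≤ 1 ∧ 0 < x₁ ∧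
  ∀ v ∈ V, ∀ cw : ℝ, 0 < cw → ∃ κ₀ : ℝ, 0 < κ₀ ∧ ∀ κ : ℝ, 0 < κ → κ ≤ κ₀ →
  ∃ e₂ e₃ : ℝ, 0 < e₂ ∧ 0 < e₃ ∧ ∀ M : ℝ, 0 < M →
  ∀ (S : PCl 3) (a₁ R : ℝ) (i₀ : Fin 3) (rt act : ℚ → ℝ) (w₀ v₀ q₀ a₀ : ℝ),
    UCs S a₁ R i₀ rt act w₀ v₀ v q₀ a₀ α →
  ∃ L₀ : ℝ, 0 < L₀ ∧ ∀ L B C : ℝ, 0 < L → L ≤ L₀ → Clp S (fun J F A =>
    ∀ (σ : Fin 3 → Fin 3) (wl wa wb : ℕ) (vp : ℕ → ℕ) (kap Hu HN : ℕ)
      (al nu kN nN : (Fin 3 → ℤ) × (ℕ × F.ζ) → ℝ) (a : ℕ → F.Ω → ℝ) (s t : F.Ω → ℝ),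
      UFi F A σ wl wa wb vp kap Hu HN al nu kN nN a s t B C → σ 0 = i₀ →
    ∀ qa qb d D : ℕ, UeN J w₀ v₀ v q₀ L M cw κ e₂ γ x₁ n wa wb vp kap Hu HN qa qb d D →
    fri F (Pool.Agent.H49.Ent.cond F.p A True) σ s t qa (qb + n * d) ≤ e₃ * L * J →
    ∃ Bd : Finset (ℕ × ℕ), (Bd.card : ℝ) ≤ ρ * ((wb + 1 - wa : ℕ) * (qb - qa : ℕ)) ∧
      ∀ w q, wa ≤ w → w ≤ wb → qa ≤ q → q < qb → (w, q) ∉ Bd →
        UcP F (Pool.Agent.H49.Ent.cond F.p A True) σ vp D a s t (fun ω => al (Fam.pt F ω)) kap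
          (n * d) w q ε)

end Pool.S6B
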