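import Pool.Agent.H72.S6B.Beta

/-!
# (beta) in a class
-/

set_option autoImplicit false

namespace Pool.S6B

open Finset Real
open Pool.Agent.H49.Ent Pool.Agent.H32.Dense Pool.STK Pool.KA Pool.KA.Win Pool.KA.TRC
  Pool.KSAT Pool.K2S Pool.K2S.Rows Pool.K2S.FF Pool.PB Pool.KS6 Pool.S6K.Wfe Pool.UST Pool.S6U
  Pool.S6C Pool.Sel51

/-- **(beta)** from the U-step, the frames, the transversality of the planes of directions and the
bound of the blocks. -/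
theorem beta_of {V : Set ℝ} {Γ : ℝ → ℝ → Prop} (hΓ : ∀ v ρ, Γ v ρ → v ∈ V ∧ v = ρ)
    (hU : UePStmt V) (hF : FrmStmt Γ) (hCol : ColStmt) (hUp : UpStmt) : RcBeta Γ := by
  intro S a R h₁ i₀ c s₂ r D σ hC act K W v₁ t e₁ Q₀ P g v₀ v ρ a₀ α hL hG pe rc Rc sc _ hpe1
    hpe2 hrcN _ hrcS hRc
  have hrcC := rcC_of_slp hrcS
  obtain ⟨hvV, hvρ⟩ := hΓ v ρ hG
  have hgv := frm_gv hF hC hL hG hvρ hpe1 hpe2 hrcN hrcC hRc
  subst hvρ
  have hc := hC.c0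
  have hrow := hC.row 1 one_pos le_rfl hC.D1
  have hpi : (σ 1).pi ≤ 1 := num_le_cap hC.ne zero_le_one hrow.pi
  have hgP := hL.gP
  have hv₀1 : v₀ < 1 := by linarith only [hpe1, hpe2, hpi, hgP]
  have hv := hL.v0
  have hv₀ := loc_v0 hC hL
  have hucs := ucs_of hC hL hv₀1
  have hP1 := (hL.pr P hL.row).lt1
  have hw0 := hL.w0
  -- the constants
  obtain ⟨n, γ, x₁, hn, hγ, hγ1, hx₁, hU1⟩ := hU.app (ε := c / 16) (ρ := 1 / 2) (α := α)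
    (by positivity) (by norm_num) hL.α0
  have hn0 : (1 : ℝ) ≤ n := by exact_mod_cast hn
  obtain ⟨κ₀, hκ₀, hU2⟩ := hU1 v hvV 1 one_pos
  obtain ⟨κ, hκd⟩ : ∃ κ, κ = min κ₀ (1 / (8 * n)) := ⟨_, rfl⟩
  have hκ : 0 < κ := by rw [hκd]; exact lt_min hκ₀ (by positivity)
  have hκ1 : κ ≤ κ₀ := by rw [hκd]; exact min_le_left _ _
  have hθ1 : n * κ ≤ 1 / 8 := by
    have h1 : κ ≤ 1 / (8 * n) := by rw [hκd]; exact min_le_right _ _
    rw [le_div_iff₀ (by positivity)] at h1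
    linarith only [h1]
  have hθ : 0 < n * κ := by positivity
  obtain ⟨e₂, e₃, he₂, he₃, hU3⟩ := hU2 κ hκ hκ1
  obtain ⟨B, C, Ki, hB1, hC1, hKi, hF1⟩ := hF S a R h₁ i₀ c s₂ r D σ hC act K W v₁ t e₁ Q₀ P g v₀
    v v a₀ α hL hG pe rc Rc hpe1 hpe2 hrcN hrcC hRc
  obtain ⟨lam, hlam⟩ : ∃ lam, lam = (2 * v + x₁ * (n * κ) + 8) / γ := ⟨_, rfl⟩
  have hlam0 : 0 < lam := by rw [hlam]; positivity
  obtain ⟨NR, hNRd⟩ : ∃ NR, NR = ⌈Ki / e₃⌉₊ + 1 := ⟨_, rfl⟩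
  have hNR : 0 < NR := by omega
  have hNR0 : (1 : ℝ) ≤ NR := by exact_mod_cast hNR
  have hKiN : Ki ≤ e₃ * NR := by
    have h1 : Ki / e₃ ≤ (⌈Ki / e₃⌉₊ : ℝ) := Nat.le_ceil _
    have h2 : (⌈Ki / e₃⌉₊ : ℝ) ≤ NR := by
      rw [hNRd]
      push_cast
      linarith only [hθ1, hθ]
    have h3 := h1.trans h2
    rw [div_le_iff₀ he₃] at h3
    linarith only [h3]
  obtain ⟨M, hMd⟩ : ∃ M, M = (NR : ℝ) * (lam + 2) := ⟨_, rfl⟩
  have hM : 0 < M := by rw [hMd]; positivity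
  obtain ⟨L₁, hL₁, hU4⟩ := hU3 M hM S a R i₀ (σ 1).rot act (W g) v₀ (P - g) a₀ hucs
  obtain ⟨Ku, hKud⟩ : ∃ Ku, Ku = M + 2 * v + 6 := ⟨_, rfl⟩
  have hKu : 0 < Ku := by rw [hKud]; positivity
  obtain ⟨εu, hεud⟩ : ∃ εu, εu = c * (n * κ) / (32 * Ku) := ⟨_, rfl⟩
  have hεu : 0 < εu := by rw [hεud]; positivity
  have hεuK : εu * Ku ≤ c * (n * κ) / 32 := by
    rw [hεud]
    refine le_of_eq ?_
    field_simp
  obtain ⟨ε₀, X₀, hε₀, hX₀, hUp1⟩ := hUp.app hC hL hεu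
  obtain ⟨η, hηd⟩ : ∃ η, η = min (min (1 / (960 * (v + 16))) (c * (n * κ) / (960 * (v + 16))))
    (ε₀ * Ku / 6) := ⟨_, rfl⟩
  have hη : 0 < η := by
    rw [hηd]
    exact lt_min (lt_min (by positivity) (by positivity)) (by positivity)
  have hη1 : 960 * (v + 16) * η ≤ 1 := by
    have : η ≤ 1 / (960 * (v + 16)) := by rw [hηd]; exact (min_le_left _ _).trans (min_le_left _ _)
    rw [le_div_iff₀ (by positivity)] at this
    linarith only [this]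
  have hη2 : 960 * (v + 16) * η ≤ c * (n * κ) := by
    have : η ≤ c * (n * κ) / (960 * (v + 16)) := by
      rw [hηd]; exact (min_le_left _ _).trans (min_le_right _ _)
    rw [le_div_iff₀ (by positivity)] at this
    linarith only [this]
  have hη3 : 6 * η ≤ ε₀ * Ku := by
    have : η ≤ ε₀ * Ku / 6 := by rw [hηd]; exact min_le_right _ _
    linarith only [this]
  have hvη : 0 ≤ v * η := mul_nonneg hv hη.le
  have hη9 : η ≤ 1 / 960 := by nlinarith only [hη, hη1, hvη]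
  obtain ⟨e, hed⟩ : ∃ e, e = min η e₂ := ⟨_, rfl⟩
  have he0 : 0 < e := by rw [hed]; exact lt_min hη he₂
  have he1 : e ≤ η := by rw [hed]; exact min_le_left _ _
  have he2 : e ≤ e₂ := by rw [hed]; exact min_le_right _ _
  obtain ⟨L₂, hL₂, hF2⟩ := hF1 M hM e he0
  obtain ⟨δ₁, hδ₁, hs1⟩ := hL.rot (η / 2) (half_pos hη)
  obtain ⟨δ₂, hδ₂, hs2⟩ := hL.th (η / 2) (half_pos hη)
  obtain ⟨X₁, hX₁, hrad⟩ := hL.radz
  -- the size of the zone
  obtain ⟨L, hLd⟩ : ∃ L, L = min (min (min L₁ L₂) (min (δ₁ / 4) (δ₂ / 4)))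
    (min (min (X₀ / Ku) (X₁ / 4)) (min (1 - g) ((P - g) / M))) := ⟨_, rfl⟩
  have hL0 : 0 < L := by
    rw [hLd]
    exact lt_min (lt_min (lt_min hL₁ hL₂) (lt_min (by positivity) (by positivity)))
      (lt_min (lt_min (by positivity) (by positivity))
        (lt_min (by linarith only [hgP, hP1]) (div_pos (by linarith only [hgP]) hM)))
  have hLle := le_of_eq hLd
  obtain ⟨l12, l34⟩ := le_min_iff.1 hLle
  obtain ⟨l1, l2⟩ := le_min_iff.1 l12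
  obtain ⟨l3, l4⟩ := le_min_iff.1 l34
  obtain ⟨m1, m2⟩ := le_min_iff.1 l1
  obtain ⟨m3, m4⟩ := le_min_iff.1 l2
  obtain ⟨m5, m6⟩ := le_min_iff.1 l3
  obtain ⟨m7, m8⟩ := le_min_iff.1 l4
  have m5' : Ku * L ≤ X₀ := by
    rw [le_div_iff₀ hKu] at m5
    linarith only [m5]
  have m8' : M * L ≤ P - g := by
    rw [le_div_iff₀ hM] at m8
    linarith only [m8]
  obtain ⟨wq, Nm, u, -, hu, hF3⟩ := hF2 L hL0 m2
  have hηL : 0 < η * L := mul_pos hη hL0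
  have hηL1 : η * L ≤ 1 / 960 * L := mul_le_mul_of_nonneg_right hη9 hL0.le
  have hηL2 : 960 * (v + 16) * η * L ≤ 1 * L := mul_le_mul_of_nonneg_right hη1 hL0.le
  -- the slopes
  have hrot : ∀ j < Nm, |(σ 1).rot (u j) - v₀ - v * (u j - W g)| ≤ η * L := by
    intro j hj
    have h1 := (hu j hj).1
    refine (hs1 (u j) (by linarith only [m3, hηL, hηL1, h1])).trans ?_
    have := mul_le_mul_of_nonneg_left h1 (half_pos hη).le
    linarith only [this]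
  have hth : ∀ j < Nm, |(σ 1).th (u j) - g - (1 + v) * (u j - W g)| ≤ η * L := by
    intro j hj
    have h1 := (hu j hj).1
    refine (hs2 (u j) (by linarith only [m4, hηL, hηL1, h1])).trans ?_
    have := mul_le_mul_of_nonneg_left h1 (half_pos hη).le
    linarith only [this]
  -- the window `w₁`
  obtain ⟨w₁, hw1, hw2⟩ := exists_rat_btwn (show W g < W g + η * L by linarith only [hηL])
  have hw₁0 : (0 : ℚ) ≤ w₁ := by
    have : (0 : ℝ) ≤ w₁ := by linarith only [hw0, hw1]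
    exact_mod_cast this
  have hw₁a : |(w₁ : ℝ) - W g| ≤ η * L := by
    rw [abs_of_nonneg (by linarith only [hw1])]
    linarith only [hw2]
  have hw₁1 : w₁ ≤ 1 := (hrad w₁ (by linarith only [m6, hηL1, hw1, hw2, hw₁a])).2.1
  have hw₁1' : (w₁ : ℝ) ≤ 1 := by exact_mod_cast hw₁1
  have hG2 := hs2 w₁ (by linarith only [m4, hηL1, hw1, hw2, hw₁a])
  have hG3 : η / 2 * |(w₁ : ℝ) - W g| ≤ η * L := by
    have h1 := mul_le_mul_of_nonneg_left hw₁a (half_pos hη).le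
    have h2 : η / 2 * (η * L) ≤ 1 / 2 * (η * L) :=
      mul_le_mul_of_nonneg_right (by linarith only [hη, hη1, hvη]) hηL.le
    linarith only [hw1, hw2, h1, h2]
  have hGb := hG2.trans hG3
  obtain ⟨G1, G2⟩ := abs_le.1 hGb
  have hvw : v * ((w₁ : ℝ) - W g) ≤ v * (η * L) := mul_le_mul_of_nonneg_left (by linarith only [hw2]) hv
  have hvw0 : 0 ≤ v * ((w₁ : ℝ) - W g) := mul_nonneg hv (by linarith only [hw1])
  have hGle : (σ 1).th w₁ ≤ g + (v + 2) * (η * L) := by linarith only [hw2, G2, hvw]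
  obtain ⟨ρ₀, hρd⟩ : ∃ ρ₀, ρ₀ = max 0 (v₀ - 2 * (η * L)) := ⟨_, rfl⟩
  have hρ0 : 0 ≤ ρ₀ := by rw [hρd]; exact le_max_left _ _
  have hρ1 : v₀ - 2 * (η * L) ≤ ρ₀ := by rw [hρd]; exact le_max_right _ _
  have hρ2 : ρ₀ ≤ v₀ := by rw [hρd]; exact max_le hv₀ (by linarith only [hw1, hw2])
  have hwG : (w₁ : ℝ) + ρ₀ ≤ (σ 1).th w₁ := by
    have h1 := (ths_thm hC one_pos le_rfl hC.D1 (le_refl (0 : ℚ)) hw₁0 hw₁1').2
    have h2 : ρ₀ ≤ (σ 1).th w₁ - w₁ := by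
      rw [hρd]
      refine max_le (by linarith only [h1]) ?_
      linarith only [hgv, hw1, hw2, G1, hvw0]
    linarith only [h2]
  have hGh : (σ 1).th w₁ + 8 * (η * L) ≤ 1 := by
    have : (v + 10) * (η * L) ≤ L := by
      have h1 : 0 ≤ v * (η * L) := mul_nonneg hv hηL.le
      linarith only [hηL2, hw1, hw2, hvw, hvw0]
    linarith only [m7, hηL2, hw1, hw2, G2, hvw, hvw0]
  obtain ⟨ε₁, hε₁d⟩ : ∃ ε₁, ε₁ = min 1 (c / 8) := ⟨_, rfl⟩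
  have hε₁0 : 0 < ε₁ := by rw [hε₁d]; exact lt_min one_pos (by positivity)
  have hε₁1 : ε₁ ≤ 1 := by rw [hε₁d]; exact min_le_left _ _
  have hε₁2 : ε₁ ≤ c / 8 := by rw [hε₁d]; exact min_le_right _ _
  -- the claims
  have cU := hU4 L B C hL0 m1
  have cC := hCol.app (hrow.th w₁ hw₁0 hw₁1) hw₁0 hwG (h := 8 * (η * L)) (by positivity) hGh hρ0
    B C (Pool.KA.Vd.K1 (8 ^ 2 + 8 + 1)) hε₁0
  have cUp : Clp S (fun _ F A => ∀ j < Nm,
      UpC F A i₀ (σ 1).rot (σ 1).th P g c εu ε₀ (Ku * L) (u j)) :=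
    Clp.all Nm fun j hj => hUp1 (Ku * L) (mul_pos hKu hL0) m5' (u j) ((hu j hj).1.trans
      (mul_le_mul_of_nonneg_right (by rw [hKud]; linarith only [hv, hM]) hL0.le))
  obtain ⟨τ, hτ, J₁, hwin⟩ := ((cU.and cC).and (cUp.and hC.evlaw)).win 1 one_pos
  obtain ⟨KJ, hKJ⟩ : ∃ KJ, KJ = 1 + v + (29 * Real.log (4 + C) + 120) := ⟨_, rfl⟩
  have hlogC : 0 ≤ Real.log (4 + C) := Real.log_nonneg (by linarith only [hC1])
  obtain ⟨J₂, hJ₂⟩ := exists_nat_ge (KJ / (η * L))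
  obtain ⟨J₃, hJ₃⟩ := exists_nat_ge (2 / (κ * L))
  obtain ⟨J, F, A, hJ, hA, sg, wa, wb, vp, kap, Hu, HN, al, nu, kN, nN, aa, s, tt, z, E, hBF,
    hinf⟩ := hF3 τ (max J₁ (max J₂ J₃)) hτ
  have hJ1 : J₁ ≤ J := (le_max_left _ _).trans hJ
  have hJ2 : (J₂ : ℝ) ≤ J := by
    exact_mod_cast ((le_max_left _ _).trans (le_max_right _ _)).trans hJ
  have hJ3 : (J₃ : ℝ) ≤ J := by
    exact_mod_cast ((le_max_right _ _).trans (le_max_right _ _)).trans hJ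
  have hKJJ : KJ ≤ η * (L * J) := by
    have h1 := hJ₂.trans hJ2
    rw [div_le_iff₀ hηL] at h1
    linarith only [h1]
  have hκJJ : 2 ≤ κ * (L * J) := by
    have h1 := hJ₃.trans hJ3
    rw [div_le_iff₀ (mul_pos hκ hL0)] at h1
    linarith only [h1]
  obtain ⟨A', hsub, -, ⟨kU, kC⟩, kUp, kL⟩ := hwin J hJ1 F A hA
  exact fam_false (hBF.sub hsub) kL (w₁ := w₁) (G := (σ 1).th w₁) (ρ₀ := ρ₀) (εu := εu)
    (ε₀ := ε₀) (ε₁ := ε₁) (Ku := Ku) kU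
    (hinf trivial _ kL fun ω hω => hsub ω (ldm_mem hω)) hc hn hκ hθ1 hγ hγ1 hx₁ hlam hNR hKiN
    hMd hη hη1 hη2 hη3 (le_of_eq hKud.symm) hεuK hε₁1 hε₁2 hv hgv hL0 he1 he2 m8'
    (by linarith only [hv, hKJ, hlogC, hKJJ]) (by linarith only [hKJ, hlogC, hKJJ]) (by linarith only [hv, hKJ, hKJJ]) hκJJ hu hrot hth kUp hw1.le hw2.le hGle hρ1 hρ2 kC

/-- **(beta)** for the case `v = ρ > 0`. -/
theorem beta_hpla (hU : UePStmt {v | 0 < v}) (hF : FrmStmt fun v ρ => v = ρ ∧ 0 < v)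
    (hCol : ColStmt) (hUp : UpStmt) : RcBeta fun v ρ => v = ρ ∧ 0 < v :=
  beta_of (fun _ _ h => ⟨h.2, h.1⟩) hU hF hCol hUp

/-- **(beta)** for the case `v = ρ = 0`. -/
theorem beta_dpla (hU : UePStmt {0}) (hF : FrmStmt fun v ρ => v = 0 ∧ ρ = 0)
    (hCol : ColStmt) (hUp : UpStmt) : RcBeta fun v ρ => v = 0 ∧ ρ = 0 :=
  beta_of (fun _ _ h => ⟨h.1, h.1.trans h.2.symm⟩) hU hF hCol hUp

end Pool.S6B
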