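import Pool.Agent.H72.S6B.BetaC
import Pool.Agent.H28.HP.ColT
import Pool.Agent.H91.S6B.FrmR
import Pool.Agent.H41.S6H.Rc8
import Pool.Agent.H46.S6B.UeZ
import Pool.Agent.H46.S6B.Up
import Pool.Agent.H57.S6B.UepT
import Pool.Agent.H23.S6E.Ld2

/-!
# (beta): the two cases from the natural boxes
-/

set_option autoImplicit false

namespace Pool.S6B

open Pool.S6C

/-- **(beta)** for the case `v = ρ > 0`. -/
theorem beta_pos (hNAT : NATStmt) : RcBeta fun v ρ => v = ρ ∧ 0 < v :=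
  beta_hpla uep_pos (frm_of_raw (frmraw_of fun _ _ h => h.1)) col_thm (up_of (ldOne_of hNAT))

/-- **(beta)** for the case `v = ρ = 0`. -/
theorem beta_zero (hNAT : NATStmt) : RcBeta fun v ρ => v = 0 ∧ ρ = 0 :=
  beta_dpla uep_zero (frm_of_raw (frmraw_of fun _ _ h => h.1.trans h.2.symm)) col_thm
    (up_of (ldOne_of hNAT))

end Pool.S6B
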