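import Pool.Agent.H72.S6B.Num

/-!
# (beta) from the U-step, the frames, the transversality and the bound of the blocks
-/

set_option autoImplicit false

namespace Pool.S6B

open Finset Real
open Pool.Agent.H49.Ent Pool.Agent.H32.Dense Pool.STK Pool.KA Pool.KA.Win Pool.KA.TRC
  Pool.KSAT Pool.K2S Pool.K2S.Rows Pool.K2S.FF Pool.PB Pool.KS6 Pool.S6K.Wfe Pool.UST Pool.S6U
  Pool.S6C Pool.Sel51

section cls

variable {S : PCl 3} {a R h₁ : ℝ} {i₀ : Fin 3} {c s₂ : ℝ} {r : ℝ → ℝ} {D : Set ℝ} {σ : ℝ → Row}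
  {act : ℚ → ℝ} {K : Set ℝ} {W : ℝ → ℝ} {v₁ t : ℚ} {e₁ Q₀ P g v₀ v ρ a₀ α : ℝ}

/-- The value of `rot` is nonnegative. -/
theorem loc_v0 (hC : Cs S a R h₁ i₀ c s₂ r D σ)
    (hL : Loc S i₀ c s₂ r D σ act K W v₁ t e₁ Q₀ P g v₀ v ρ a₀ α) : 0 ≤ v₀ := by
  by_contra hcon
  push Not at hcon
  obtain ⟨X₁, hX₁, hrad⟩ := hL.radz
  obtain ⟨δ, hδ, hs⟩ := hL.rot 1 one_pos
  have hv := hL.v0
  obtain ⟨y, hy⟩ : ∃ y, y = min (min X₁ δ) (-v₀ / (4 * (v + 1))) := ⟨_, rfl⟩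
  have hy0 : 0 < y := by
    rw [hy]
    exact lt_min (lt_min hX₁ hδ) (div_pos (by linarith only [hcon]) (by linarith only [hv]))
  have hy1 : y ≤ X₁ := by rw [hy]; exact (min_le_left _ _).trans (min_le_left _ _)
  have hy2 : y ≤ δ := by rw [hy]; exact (min_le_left _ _).trans (min_le_right _ _)
  have hy3 : 4 * (v + 1) * y ≤ -v₀ := by
    have : y ≤ -v₀ / (4 * (v + 1)) := by rw [hy]; exact min_le_right _ _
    rw [le_div_iff₀ (by linarith only [hv])] at this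
    linarith only [this]
  obtain ⟨w, hw1, hw2⟩ := exists_rat_btwn (show W g < W g + y by linarith)
  have hw : |(w : ℝ) - W g| < y := by
    rw [abs_of_pos (by linarith only [hw1])]
    linarith only [hw2]
  have h1 := hs w (by linarith)
  have h2 := hC.rot_nn (hrad w (by linarith)).1 (hrad w (by linarith only [hy1, hw])).2.1
  have h3 := (abs_le.1 h1).2
  have h4 : v * ((w : ℝ) - W g) ≤ v * y := mul_le_mul_of_nonneg_left (by linarith only [hw2]) hv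
  rw [one_mul] at h3
  linarith only [hcon, hy3, hw, h2, h3, h4, (abs_lt.1 hw).2]

/-- The natural planks are planks. -/
theorem frm_gv {Γ : ℝ → ℝ → Prop} (hF : FrmStmt Γ) (hC : Cs S a R h₁ i₀ c s₂ r D σ)
    (hL : Loc S i₀ c s₂ r D σ act K W v₁ t e₁ Q₀ P g v₀ v ρ a₀ α) (hG : Γ v ρ) (hvρ : v = ρ)
    {pe : ℝ} {rc : ℚ → ℝ} {Rc : ℝ} (hpe1 : (P - g) + v₀ < pe) (hpe2 : pe < (σ 1).pi)
    (hrcN : RcN S i₀ pe rc) (hrcC : RcC rc (W g) Rc) (hRc : g - W g < Rc) : W g + v₀ ≤ g := by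
  by_contra hcon
  push Not at hcon
  obtain ⟨B, C, Ki, hB1, hC1, hKi, hF1⟩ := hF S a R h₁ i₀ c s₂ r D σ hC act K W v₁ t e₁ Q₀ P g v₀
    v ρ a₀ α hL hG pe rc Rc hpe1 hpe2 hrcN hrcC hRc
  obtain ⟨L₂, hL₂, hF2⟩ := hF1 1 one_pos 1 one_pos
  obtain ⟨δ₁, hδ₁, hs1⟩ := hL.rot 1 one_pos
  obtain ⟨δ₂, hδ₂, hs2⟩ := hL.th 1 one_pos
  obtain ⟨L, hLd⟩ : ∃ L, L = min (min L₂ (W g + v₀ - g)) (min δ₁ δ₂) / 8 := ⟨_, rfl⟩
  have hm : 0 < min (min L₂ (W g + v₀ - g)) (min δ₁ δ₂) :=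
    lt_min (lt_min hL₂ (by linarith only [hcon])) (lt_min hδ₁ hδ₂)
  have hL0 : 0 < L := by rw [hLd]; linarith only [hm]
  have l1 : 8 * L ≤ L₂ := by
    have := (min_le_left (min L₂ (W g + v₀ - g)) (min δ₁ δ₂)).trans (min_le_left _ _)
    linarith only [hLd, this]
  have l2 : 8 * L ≤ W g + v₀ - g := by
    have := (min_le_left (min L₂ (W g + v₀ - g)) (min δ₁ δ₂)).trans (min_le_right _ _)
    linarith only [hLd, this]
  have l3 : 8 * L ≤ δ₁ := by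
    have := (min_le_right (min L₂ (W g + v₀ - g)) (min δ₁ δ₂)).trans (min_le_left _ _)
    linarith only [hLd, this]
  have l4 : 8 * L ≤ δ₂ := by
    have := (min_le_right (min L₂ (W g + v₀ - g)) (min δ₁ δ₂)).trans (min_le_right _ _)
    linarith only [hLd, this]
  obtain ⟨wq, Nm, u, -, hu, hF3⟩ := hF2 L hL0 (by linarith only [hL0, l1])
  obtain ⟨J, F, A, -, -, sg, wa, wb, vp, kap, Hu, HN, al, nu, kN, nN, aa, s, tt, z, E, hBF, -⟩ :=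
    hF3 1 0 one_pos
  obtain ⟨hu1, hu0, hu2⟩ := hu 0 hBF.lo.1
  have g1 := (abs_le.1 (hs1 (u 0) (by linarith only [hL0, l3, hu1]))).1
  have g2 := (abs_le.1 (hs2 (u 0) (by linarith only [hL0, l4, hu1]))).2
  rw [← hvρ] at g2
  rw [one_mul] at g1 g2
  linarith only [hL0, l2, hu1, hu2, g1, g2]

/-! ### One family -/

/-- The numbers of a rectangle. -/
theorem uen_of {J : ℕ} {F : Fam 3 J} {A : F.Ω → Prop} {i₀ : Fin 3} {rot th : ℚ → ℝ}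
    {w₀ v₀ v L e : ℝ} {wq : ℚ} {Nm : ℕ} {u : ℕ → ℚ} {sg : Fin 3 → Fin 3} {wa wb : ℕ}
    {vp : ℕ → ℕ} {kap Hu HN : ℕ} {al nu kN nN : (Fin 3 → ℤ) × (ℕ × F.ζ) → ℝ}
    {a : ℕ → F.Ω → ℝ} {s t : F.Ω → ℝ} {z : ℕ → F.Ω → Pln} {B C E P g M : ℝ}
    (hB : BFr F A i₀ rot th w₀ v₀ v (g - w₀ + (v + v + 2) * L)
      (P - g + M * L) L e wq Nm u sg wa wb vp kap Hu HN al nu kN nN a s t z B C E)
    {κ e₂ γ x₁ lam : ℝ} {n qa Q d : ℕ} (hL : 0 < L) (hJ : 1 ≤ L * J) (hγ : 0 < γ) (hγ1 : γ ≤ 1)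
    (hx₁ : 0 < x₁) (hlam : lam = (2 * v + x₁ * (n * κ) + 8) / γ) (hθ1 : n * κ ≤ 1 / 8)
    (hκ : 0 < κ) (he : e ≤ 1 / 960) (he₂ : e ≤ e₂) (hv : 0 ≤ v) (hgv : w₀ + v₀ ≤ g)
    (hd : d = ⌊κ * (L * J)⌋₊) (hκJ : 2 ≤ κ * (L * J)) (hQ : Q = ⌈lam * (L * J)⌉₊)
    (hqa : (P - g - M * L) * J ≤ qa) (hqb : ((qa + Q : ℕ) : ℝ) ≤ (P - g + M * L) * J) :
    UeN J w₀ v₀ v (P - g) L M 1 κ e₂ γ x₁ n wa wb vp kap Hu HN qa (qa + Q) d
      (vp wb + n * d + ⌈x₁ * (n * d : ℕ)⌉₊) := by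
  obtain ⟨l, hl⟩ : ∃ l : ℝ, l = L * J := ⟨_, rfl⟩
  rw [← hl] at hJ hd hκJ hQ
  have hl0 : 0 < l := by linarith only [hJ]
  have hJ0 : (0 : ℝ) < J := by
    rcases (Nat.cast_nonneg (α := ℝ) J).lt_or_eq with h | h
    · exact h
    · rw [← h, mul_zero] at hl
      linarith only [hJ, hl]
  have d2 : (d : ℝ) ≤ κ * l := by rw [hd]; exact Nat.floor_le (by positivity)
  have d1 : κ * l < d + 1 := by rw [hd]; exact Nat.lt_floor_add_one _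
  have hQ1 : lam * l ≤ Q := by rw [hQ]; exact Nat.le_ceil _
  have hγlam : γ * lam = 2 * v + x₁ * (n * κ) + 8 := by
    rw [hlam]
    field_simp
  have hnκ : 0 ≤ (n : ℝ) * κ := by positivity
  have hxn : 0 ≤ x₁ * (n * κ) := by positivity
  have hlam0 : 2 * v + x₁ * (n * κ) + 8 ≤ lam := by
    rw [hlam, le_div_iff₀ hγ]
    have : 0 ≤ 2 * v + x₁ * (n * κ) + 8 := by linarith only [hv, hxn]
    nlinarith only [hγ1, hv, hxn]
  have hnd : ((n * d : ℕ) : ℝ) ≤ n * κ * l := by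
    push_cast
    have := mul_le_mul_of_nonneg_left d2 (Nat.cast_nonneg (α := ℝ) n)
    linarith only [this]
  have hnd8 : n * κ * l ≤ 1 / 8 * l := mul_le_mul_of_nonneg_right hθ1 hl0.le
  have hxnd : x₁ * ((n * d : ℕ) : ℝ) ≤ x₁ * (n * κ) * l := by
    have := mul_le_mul_of_nonneg_left hnd hx₁.le
    linarith only [this]
  have hγQ : (2 * v + x₁ * (n * κ) + 8) * l ≤ γ * Q := by
    have := mul_le_mul_of_nonneg_left hQ1 hγ.le
    rw [← mul_assoc, hγlam] at this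
    exact this
  have hlamQ : (2 * v + x₁ * (n * κ) + 8) * l ≤ Q :=
    (mul_le_mul_of_nonneg_right hlam0 hl0.le).trans hQ1
  have hvl : 0 ≤ v * l := mul_nonneg hv hl0.le
  have hxl : 0 ≤ x₁ * (n * κ) * l := mul_nonneg hxn hl0.le
  have hel : e * l ≤ 1 / 960 * l := mul_le_mul_of_nonneg_right he hl0.le
  have ha1 := hB.wa1
  have hb1 := hB.wb1
  have ha2 := hB.wa2
  have hb2 := hB.wb2
  have ha1' : w₀ * J - l ≤ wa := by rw [hl]; linarith only [ha1]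
  have hb1' : (wb : ℝ) ≤ w₀ * J + l := by rw [hl]; linarith only [hb1]
  have ha2' : (wa : ℝ) ≤ w₀ * J - l / 2 := by rw [hl]; linarith only [ha2]
  have hb2' : w₀ * J + l / 2 ≤ wb := by rw [hl]; linarith only [hb2]
  have hab : wa ≤ wb := by
    have : (wa : ℝ) ≤ wb := by linarith only [hJ, hl, ha2, hb2]
    exact_mod_cast this
  have la := hB.lin wa le_rfl hab
  have lb := hB.lin wb hab le_rfl
  rw [mul_assoc e L, ← hl] at la lb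
  obtain ⟨la1, la2⟩ := abs_le.1 la
  obtain ⟨lb1, lb2⟩ := abs_le.1 lb
  have hva : -(v * l) ≤ v * ((wa : ℝ) - w₀ * J) := by
    have := mul_le_mul_of_nonneg_left (show -l ≤ (wa : ℝ) - w₀ * J by linarith only [hl, ha1]) hv
    linarith only [this]
  have hvb : v * ((wb : ℝ) - w₀ * J) ≤ v * l :=
    mul_le_mul_of_nonneg_left (by linarith only [hl, hb1]) hv
  have hmono : vp wa ≤ vp wb := hB.fr.mono wa wb le_rfl hab le_rfl
  have hqa' : qa + Q - qa = Q := by omega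
  have hkap := hB.kap1
  have hkap' : g * J - w₀ * J + 2 * (v * l) + 2 * l ≤ kap := by
    rw [hl]
    have e1 : g * J - w₀ * J + 2 * (v * (L * J)) + 2 * (L * J) =
      (g - w₀ + (v + v + 2) * L) * J := by ring
    rw [e1]
    exact hkap
  have hgJ : w₀ * J + v₀ * J ≤ g * J := by
    have := mul_le_mul_of_nonneg_right hgv hJ0.le
    linarith only [this]
  have hroom := hB.room
  have hqc : ((qa + Q : ℕ) : ℝ) ≤ (⌈(P - g + M * L) * J⌉₊ : ℝ) :=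
    hqb.trans (Nat.le_ceil _)
  have hce : ((⌈x₁ * ((n * d : ℕ) : ℝ)⌉₊ : ℕ) : ℝ) < x₁ * ((n * d : ℕ) : ℝ) + 1 :=
    Nat.ceil_lt_add_one (by positivity)
  have hce' : x₁ * ((n * d : ℕ) : ℝ) ≤ ((⌈x₁ * ((n * d : ℕ) : ℝ)⌉₊ : ℕ) : ℝ) := Nat.le_ceil _
  have hnd0 : (0 : ℝ) ≤ ((n * d : ℕ) : ℝ) := Nat.cast_nonneg _
  refine ⟨hB.wa1, hB.wb1, ?_, hqa, hqb, by omega, fun w h1 h2 => (hB.lin w h1 h2).trans ?_, ?_,
    ⟨?_, ?_, ?_, ?_⟩, ?_, ?_, ?_, ?_, ?_, ?_⟩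
  · rw [one_mul, ← hl]
    linarith only [hl, ha2, hb2]
  · rw [mul_assoc, mul_assoc]
    exact mul_le_mul_of_nonneg_right he₂ (by positivity)
  · rw [← hl]
    linarith only [hJ, hvl, hel, lb2, hvb, hkap', hgJ]
  · linarith only [hqc, hroom, hroom.u]
  · linarith only [hqc, hroom, hroom.n]
  · linarith only [hqc, hroom, hroom.uJ]
  · linarith only [hqc, hroom, hroom.nJ]
  · rw [mul_assoc κ, ← hl]
    linarith only [hκJ, d1]
  · rw [mul_assoc κ, ← hl]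
    exact d2
  · rw [hqa']
    linarith only [hJ, hnd, hnd8, hγQ, hvl, hxl]
  · push_cast
    push_cast at hce'
    have : (0 : ℝ) ≤ (n : ℝ) * d := by positivity
    linarith only [hce', this]
  · rw [hqa']
    have e1 : vp wb + n * d + ⌈x₁ * ((n * d : ℕ) : ℝ)⌉₊ - vp wa =
        (vp wb - vp wa) + n * d + ⌈x₁ * ((n * d : ℕ) : ℝ)⌉₊ := by omega
    rw [e1, Nat.cast_add, Nat.cast_add, Nat.cast_sub hmono]
    linarith only [hJ, hnd, hnd8, hxnd, hγQ, hel, la1, lb2, hva, hvb, hce]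
  · have : ((wb + vp wb : ℕ) : ℝ) ≤ ((wa + vp wa + (qa + Q - qa) : ℕ) : ℝ) := by
      rw [hqa']
      push_cast
      linarith only [hJ, hl, hlamQ, hxl, hel, ha1, hb1, la1, lb2, hva, hvb]
    exact_mod_cast this

end cls

/-- **One family.** -/
theorem fam_false {J : ℕ} {F : Fam 3 J} {A : F.Ω → Prop} {i₀ : Fin 3} {rot th : ℚ → ℝ}
    {w₀ v₀ v L e : ℝ} {wq : ℚ} {Nm : ℕ} {u : ℕ → ℚ} {sg : Fin 3 → Fin 3} {wa wb : ℕ}
    {vp : ℕ → ℕ} {kap Hu HN : ℕ} {al nu kN nN : (Fin 3 → ℤ) × (ℕ × F.ζ) → ℝ}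
    {a : ℕ → F.Ω → ℝ} {s t : F.Ω → ℝ} {z : ℕ → F.Ω → Pln} {B C E P g M : ℝ}
    (hB : BFr F A i₀ rot th w₀ v₀ v (g - w₀ + (v + v + 2) * L)
      (P - g + M * L) L e wq Nm u sg wa wb vp kap Hu HN al nu kN nN a s t z B C E)
    (hlaw : IsLaw (Pool.Agent.H49.Ent.cond F.p A True)) {c η Ku εu ε₀ ε₁ G ρ₀ : ℝ} {w₁ : ℚ}
    {κ e₂ e₃ γ x₁ lam Ki : ℝ} {n NR : ℕ}
    (hU : UeC F A i₀ w₀ v₀ v (P - g) L M 1 κ e₂ e₃ γ x₁ B C (c / 16) (1 / 2) n)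
    (hinf : CH (Pool.Agent.H49.Ent.cond F.p A True) (fun ω => (s ω, t ω)) (Fam.pt F) ≤
      Ki * L * J)
    (hc : 0 < c) (hn : 1 ≤ n) (hκ : 0 < κ) (hθ1 : n * κ ≤ 1 / 8) (hγ : 0 < γ) (hγ1 : γ ≤ 1)
    (hx₁ : 0 < x₁) (hlam : lam = (2 * v + x₁ * (n * κ) + 8) / γ) (hNR : 0 < NR)
    (hKi : Ki ≤ e₃ * NR) (hM : M = NR * (lam + 2)) (hη : 0 < η)
    (hη1 : 960 * (v + 16) * η ≤ 1) (hη2 : 960 * (v + 16) * η ≤ c * (n * κ))
    (hη3 : 6 * η ≤ ε₀ * Ku) (hKu : M + 2 * v + 6 ≤ Ku) (hεu : εu * Ku ≤ c * (n * κ) / 32)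
    (hε₁ : ε₁ ≤ 1) (hε₁c : ε₁ ≤ c / 8) (hv : 0 ≤ v) (hgv : w₀ + v₀ ≤ g) (hL : 0 < L)
    (he : e ≤ η) (he₂ : e ≤ e₂) (hML : M * L ≤ P - g)
    (hJ1 : 1 ≤ η * (L * J)) (hJv : v ≤ η * (L * J))
    (hJC : 29 * Real.log (4 + C) + 120 ≤ η * (L * J)) (hJκ : 2 ≤ κ * (L * J))
    (hu : ∀ j < Nm, |(u j : ℝ) - w₀| ≤ 2 * L ∧ 0 < u j ∧ 0 ≤ th (u j) - u j - rot (u j))
    (hrot : ∀ j < Nm, |rot (u j) - v₀ - v * (u j - w₀)| ≤ η * L)
    (hth : ∀ j < Nm, |th (u j) - g - (1 + v) * (u j - w₀)| ≤ η * L)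
    (hUp : ∀ j < Nm, UpC F A i₀ rot th P g c εu ε₀ (Ku * L) (u j))
    (hw1 : w₀ ≤ w₁) (hw2 : (w₁ : ℝ) ≤ w₀ + η * L) (hG : G ≤ g + (v + 2) * (η * L))
    (hρ1 : v₀ - 2 * (η * L) ≤ ρ₀) (hρ2 : ρ₀ ≤ v₀)
    (hcol : ColC F A i₀ w₁ G ρ₀ (8 * (η * L)) B C (Pool.KA.Vd.K1 (8 ^ 2 + 8 + 1)) ε₁) :
    False := by
  have hn0 : (1 : ℝ) ≤ n := by exact_mod_cast hn
  have hNR0 : (1 : ℝ) ≤ NR := by exact_mod_cast hNR
  have hnκ : 0 < (n : ℝ) * κ := by positivity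
  obtain ⟨l, hl⟩ : ∃ l : ℝ, l = L * J := ⟨_, rfl⟩
  have hη9 : η ≤ 1 / 960 := by
    have : 0 ≤ v * η := mul_nonneg hv hη.le
    nlinarith only [hη, hη1, this]
  have hl1 : 1 ≤ l := by
    rw [← hl] at hJ1
    by_contra hcon
    push Not at hcon
    nlinarith only [hθ1, hJκ, hκ, hη, hn0, hl, hη9, hcon]
  have hl0 : 0 < l := by linarith only [hη, hη9, hl1]
  have hlam8 : 8 ≤ lam := by
    rw [hlam, le_div_iff₀ hγ]
    have : 0 ≤ x₁ * (n * κ) := by positivity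
    linarith only [hγ1, hv, this]
  obtain ⟨d, hd⟩ : ∃ d, d = ⌊κ * (L * J)⌋₊ := ⟨_, rfl⟩
  obtain ⟨Q, hQ⟩ : ∃ Q, Q = ⌈lam * (L * J)⌉₊ := ⟨_, rfl⟩
  obtain ⟨qa, hqa⟩ : ∃ qa, qa = ⌈(P - g - M * L) * J⌉₊ := ⟨_, rfl⟩
  have hJ0 : (0 : ℝ) ≤ J := Nat.cast_nonneg J
  have hqa1 : (P - g - M * L) * J ≤ qa := by rw [hqa]; exact Nat.le_ceil _
  have hqa2 : (qa : ℝ) < (P - g - M * L) * J + 1 := by
    rw [hqa]
    exact Nat.ceil_lt_add_one (mul_nonneg (by linarith only [hML]) hJ0)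
  have hQ1 : lam * l ≤ Q := by rw [hQ, hl]; exact Nat.le_ceil _
  have hQ2 : (Q : ℝ) < lam * l + 1 := by
    rw [hQ, hl]
    refine Nat.ceil_lt_add_one ?_
    rw [← hl]
    positivity
  have d2 : (d : ℝ) ≤ κ * l := by
    rw [hd, hl]
    refine Nat.floor_le ?_
    rw [← hl]
    positivity
  have d1 : κ * l < d + 1 := by rw [hd, hl]; exact Nat.lt_floor_add_one _
  have hnd : ((n * d : ℕ) : ℝ) ≤ n * κ * l := by
    push_cast
    have := mul_le_mul_of_nonneg_left d2 (Nat.cast_nonneg (α := ℝ) n)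
    linarith only [this]
  have hnd8 : n * κ * l ≤ 1 / 8 * l := mul_le_mul_of_nonneg_right hθ1 hl0.le
  have hnd' : n * κ / 2 * l ≤ ((n * d : ℕ) : ℝ) := by
    push_cast
    rw [← hl] at hJκ
    have h3 : κ * l / 2 ≤ d := by linarith only [hJκ, d1]
    have := mul_le_mul_of_nonneg_left h3 (Nat.cast_nonneg (α := ℝ) n)
    linarith only [this]
  -- the rectangle
  obtain ⟨y, hy⟩ : ∃ y : ℕ → ℕ, y = fun i => qa + i * (Q + n * d) := ⟨_, rfl⟩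
  have hymono : Monotone y := by
    rw [hy]
    intro i j hij
    exact Nat.add_le_add_left (Nat.mul_le_mul_right _ hij) _
  have hp0 := hlaw.nonneg
  obtain ⟨i, hi, hfri⟩ := fri_pig hp0 sg s t y hymono hNR hinf
  have hyi : y (i + 1) = y i + Q + n * d := by
    rw [hy]
    show qa + (i + 1) * (Q + n * d) = qa + i * (Q + n * d) + Q + n * d
    ring
  have hfri' : fri F (Pool.Agent.H49.Ent.cond F.p A True) sg s t (y i) (y i + Q + n * d) ≤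
      e₃ * L * J := by
    rw [← hyi]
    refine hfri.trans ?_
    rw [div_le_iff₀ (by linarith only [hη, hNR0, hη9])]
    have := mul_le_mul_of_nonneg_right hKi (mul_nonneg hL.le hJ0)
    linarith only [this]
  have hyi1 : (P - g - M * L) * J ≤ y i := by
    have : (qa : ℝ) ≤ y i := by
      rw [hy]
      exact_mod_cast Nat.le_add_right _ _
    linarith only [hqa1, this]
  have hyi2 : ((y i + Q + n * d : ℕ) : ℝ) ≤ (P - g + M * L) * J := by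
    have h1 : y i + Q + n * d ≤ qa + NR * (Q + n * d) := by
      rw [← hyi, hy]
      exact Nat.add_le_add_left (Nat.mul_le_mul_right _ hi) _
    have h2 : ((y i + Q + n * d : ℕ) : ℝ) ≤ (qa : ℝ) + NR * (Q + ((n * d : ℕ) : ℝ)) := by
      exact_mod_cast h1
    have h3 : (Q : ℝ) + ((n * d : ℕ) : ℝ) ≤ (lam + 9 / 8) * l := by
      have : (1 : ℝ) ≤ l := hl1
      have h4 : ((n * d : ℕ) : ℝ) ≤ 1 / 8 * l := hnd.trans hnd8
      linarith only [hl1, hQ2, hnd, hnd8]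
    have h4 : (NR : ℝ) * (Q + ((n * d : ℕ) : ℝ)) ≤ NR * ((lam + 9 / 8) * l) :=
      mul_le_mul_of_nonneg_left h3 (by linarith only [hη, hNR0, hη9])
    have h5 : (1 : ℝ) ≤ NR * l := by nlinarith only [hNR0, hl1]
    have h6 : 0 ≤ NR * l * lam := by positivity
    have e1 : (P - g + M * L) * J = (P - g - M * L) * J + 2 * (NR * (lam + 2)) * l := by
      rw [hl, hM]
      ring
    rw [e1]
    linarith only [hη, hη9, hqa2, h2, h4, h5, h6]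
  have hyi3 : ((y i + Q : ℕ) : ℝ) ≤ (P - g + M * L) * J := by
    refine le_trans ?_ hyi2
    exact_mod_cast Nat.le_add_right _ _
  have hN := uen_of hB (κ := κ) (e₂ := e₂) (γ := γ) (x₁ := x₁) (lam := lam) (n := n)
    (qa := y i) (Q := Q) (d := d) hL (by rw [← hl]; exact hl1) hγ hγ1 hx₁ hlam hθ1 hκ
    (he.trans hη9) he₂ hv hgv hd hJκ hQ hyi1 hyi3
  have hab : wa ≤ wb := by
    have h1 := hB.wa2
    have h2 := hB.wb2
    have : (wa : ℝ) ≤ wb := by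
      have : 0 ≤ L * J := by rw [← hl]; exact hl0.le
      linarith only [hη, hl, hη9, hl1, h1, h2]
    exact_mod_cast this
  have hQ0 : 0 < Q := by
    have : (0 : ℝ) < Q := by nlinarith only [hη1, hv, hJ1, hl, hlam8, hQ1, hη, hη9, hl1]
    exact_mod_cast this
  obtain ⟨w, q, h1, h2, h3, h4, hlow⟩ := hU.good hB.fr hB.s0 hN (by
    exact hfri') hab (by omega)
  have hM0 : 0 < M := by rw [hM]; positivity
  refine hB.false hlaw (θ := n * κ) (X := n * d)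
    (D := vp wb + n * d + ⌈x₁ * ((n * d : ℕ) : ℝ)⌉₊) (w := w) (q := q) hc hnκ hθ1 hη hη1 hη2
    hη3 hM0 hKu hεu hε₁ hε₁c hv hL he hJ1 hJv hJC (by rw [← hl]; exact hnd')
    (by rw [← hl]; exact hnd) hu hrot hth hUp hw1 hw2 hG hρ1 hρ2 hcol h1 h2 ?_ ?_ (by omega)
    hlow
  · refine hyi1.trans ?_
    exact_mod_cast h3
  · refine le_trans ?_ hyi2
    have : q + n * d ≤ y i + Q + n * d := by omega
    exact_mod_cast this

end Pool.S6B
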