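import Pool.Agent.H50.S6H.Cord
import Pool.Agent.H10.S6U.Out

/-!
# The contradiction at one context

The block of `X` digits of the position beyond a natural static box has at most `(3 - c) X` digits
of entropy; the block of the first two coordinates, given the context of the plane of directions
through the line, has `2 X` digits; two planes through a position are transversal. By Cordoba's
inequality the block has almost `3 X` digits.
-/

set_option autoImplicit false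

namespace Pool.S6B

open Finset Real
open Pool.Agent.H49.Ent Pool.Agent.H32.Dense Pool.STK Pool.KA Pool.KSAT Pool.K2S Pool.S6U
  Pool.KA.Vd

/-! ### Digits -/

theorem floor_fract_pow (X : ℕ) (x : ℝ) :
    ⌊(2 : ℝ) ^ X * Int.fract x⌋ = ⌊(2 : ℝ) ^ X * x⌋ - 2 ^ X * ⌊x⌋ := by
  have e : (2 : ℝ) ^ X * Int.fract x = 2 ^ X * x - ((2 ^ X * ⌊x⌋ : ℤ) : ℝ) := by
    unfold Int.fract
    push_cast
    ring
  rw [e, Int.floor_sub_intCast]

/-- The digits of the fractional part from the digits. -/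
theorem fract_of_floor {X r : ℕ} {x y : ℝ} (h : ⌊(2 : ℝ) ^ (r + X) * x⌋ = ⌊(2 : ℝ) ^ (r + X) * y⌋) :
    ⌊(2 : ℝ) ^ X * Int.fract (2 ^ r * x)⌋ = ⌊(2 : ℝ) ^ X * Int.fract (2 ^ r * y)⌋ := by
  have h1 := fl_lift (Nat.le_add_right r X) h
  have e : ∀ z : ℝ, (2 : ℝ) ^ X * (2 ^ r * z) = 2 ^ (r + X) * z := by
    intro z
    rw [pow_add]
    ring
  rw [floor_fract_pow, floor_fract_pow, e, e, h, h1]

/-- The digits from the digits of the fractional part and the coarse digits. -/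
theorem floor_of_fract {X r : ℕ} {x y : ℝ} (h1 : ⌊(2 : ℝ) ^ r * x⌋ = ⌊(2 : ℝ) ^ r * y⌋)
    (h : ⌊(2 : ℝ) ^ X * Int.fract (2 ^ r * x)⌋ = ⌊(2 : ℝ) ^ X * Int.fract (2 ^ r * y)⌋) :
    ⌊(2 : ℝ) ^ (r + X) * x⌋ = ⌊(2 : ℝ) ^ (r + X) * y⌋ := by
  have e : ∀ z : ℝ, (2 : ℝ) ^ X * (2 ^ r * z) = 2 ^ (r + X) * z := by
    intro z
    rw [pow_add]
    ring
  rw [floor_fract_pow, floor_fract_pow, e, e, h1] at h
  linarith only [h]

/-- A function of a label which is a value of a given function in the fibre of the label. -/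
theorem exists_rep {Ω T : Type} (p : Ω → ℝ) (Z : Ω → T) (f : Ω → ℝ) : ∃ cc : Ω → ℝ,
    Det p Z cc ∧ ∀ ω, 0 < p ω → ∃ ω', 0 < p ω' ∧ Z ω' = Z ω ∧ cc ω = f ω' := by
  classical
  refine ⟨fun ω => (fun z => if h : ∃ ω', 0 < p ω' ∧ Z ω' = z then f h.choose else 0) (Z ω),
    fun ω ω' _ _ e => ?_, fun ω hω => ?_⟩
  · simp only [e]
  · have h : ∃ ω', 0 < p ω' ∧ Z ω' = Z ω := ⟨ω, hω, rfl⟩
    refine ⟨h.choose, h.choose_spec.1, h.choose_spec.2, ?_⟩
    simp only [dif_pos h]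

variable {J : ℕ}

/-- The positions of two samples in a context at the same time. -/
theorem ctx_near {F : Fam 3 J} {σ : Fin 3 → Fin 3} {a s t : F.Ω → ℝ} {w r U P : ℕ} (hw : w ≤ J)
    (hr : w ≤ r) (hU : w ≤ U) (hP : w ≤ P) {ω ω' : F.Ω}
    (b1 : F.ctx σ w r U P a s t ω = F.ctx σ w r U P a s t ω') (b2 : F.T ω = F.T ω') (i : Fin 3) :
    |mco (tfr σ (a ω) (s ω) (t ω)) (F.x ω) i - mco (tfr σ (a ω) (s ω) (t ω)) (F.x ω') i| ≤
      2 / 2 ^ ppr r U P i := by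
  have e1 := Box.vpr_add (w := w) (r := r) (U := U) (P := P) hr hU hP
  have ht : F.t ω = F.t ω' := by
    unfold Fam.t
    rw [b2]
  have hs : |F.t ω - (F.T1 w ω : ℝ) / 2 ^ w| ≤ 1 / 2 ^ w := by
    have := Lab.time_near F hw le_rfl (v := w) (min_eq_left hw).symm ω
    rw [Lab.T1_J] at this
    exact this
  have n1 := Box.nr_of_mlb (F := F) (g := w) (M := fun o => tfr σ (a o) (s o) (t o)) b1
  have n2 := n1.time (k' := ppr r U P) zero_le_one hs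
    (fun i => by rw [e1]) (fun i => by rw [e1])
  have x1 : F.xa (F.t ω) ω = F.x ω := rfl
  have x2 : F.xa (F.t ω) ω' = F.x ω' := by rw [ht]; rfl
  have n3 := n2.1 i
  rw [x1, x2] at n3
  refine n3.trans (le_of_eq ?_)
  norm_num

/-! ### The data -/

/-- **The data at one context** `(w, q)` with the block `X`: the plane of directions `(s, t)` and
the slope `a w` of the context, the slope `al` and the normal coefficient `kN` at the exact point,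
the natural frame `(a₀, s₀, t₀)` at the level `N` of the normal coordinate. -/
structure BDat (F : Fam 3 J) (p : F.Ω → ℝ) (σ : Fin 3 → Fin 3) (v D : ℕ) (a s t al kN a₀ s₀
    t₀ : F.Ω → ℝ) (κ X w q N : ℕ) (B E : ℝ) : Prop where
  law : IsLaw p
  bij : Function.Bijective σ
  B1 : 1 ≤ B
  E1 : 1 ≤ E
  wJ : w ≤ J
  UN : w + v + q ≤ N
  Nk : N + X ≤ w + q + κ
  NJ : N + X ≤ J
  Dv : v + X ≤ D
  near : ∀ ω, 0 < p ω → |al ω - a ω| ≤ 3 / 2 ^ v
  clo : ∀ ω, 0 < p ω → |kN ω - s ω * al ω - t ω| ≤ E / 2 ^ κ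
  bal : ∀ ω, 0 < p ω → |al ω| ≤ B ∧ |kN ω| ≤ B
  b0 : ∀ ω, 0 < p ω → |a₀ ω| ≤ B ∧ |s₀ ω| ≤ B ∧ |t₀ ω| ≤ B
  nat : ∀ ω, 0 < p ω → Fnr (w + q) (w + v + q) N E (a₀ ω) (s₀ ω) (t₀ ω) (a ω) (s ω) (t ω)
  gr : ∀ ω, (∃ n : ℤ, a₀ ω = n / 2 ^ v) ∧ (∃ n : ℤ, s₀ ω = n / 2 ^ (N - (w + v + q))) ∧
    ∃ n : ℤ, t₀ ω = n / 2 ^ (N - (w + q))
  vis : ∀ ω ω', 0 < p ω → 0 < p ω' → Fam.pt F ω = Fam.pt F ω' →
    (al ω = al ω' ∧ kN ω = kN ω') ∧ a₀ ω = a₀ ω' ∧ s₀ ω = s₀ ω' ∧ t₀ ω = t₀ ω'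

section bone

variable {F : Fam 3 J} {p : F.Ω → ℝ} {σ : Fin 3 → Fin 3} {v D : ℕ} {a s t al kN a₀ s₀
    t₀ : F.Ω → ℝ} {κ X w q N : ℕ} {B E : ℝ}

/-- The coefficient of the normal coordinate at the exact point, rounded. -/
noncomputable def tk (r N X : ℕ) (al kN s₀ : F.Ω → ℝ) : F.Ω → ℝ :=
  ald (N - r + X) (fun ω => kN ω - s₀ ω * al ω)

/-- The condition. -/
noncomputable def bW (F : Fam 3 J) (σ : Fin 3 → Fin 3) (r U N X D : ℕ)
    (al kN a₀ s₀ t₀ : F.Ω → ℝ) (ω : F.Ω) :=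
  (F.sbx σ r U N (ald D al) s₀ (tk r N X al kN s₀) ω, ((a₀ ω, s₀ ω, t₀ ω), (Uni.dg D al ω, F.W ω)))

/-- The first row. -/
noncomputable def bA (F : Fam 3 J) (σ : Fin 3 → Fin 3) (r U N X D : ℕ) (al kN s₀ : F.Ω → ℝ)
    (ω : F.Ω) : ℝ := Int.fract (2 ^ U * co F σ (ald D al) s₀ (tk r N X al kN s₀) 1 ω)

/-- The second row. -/
noncomputable def bn (F : Fam 3 J) (σ : Fin 3 → Fin 3) (r _U N X D : ℕ) (al kN s₀ : F.Ω → ℝ)
    (ω : F.Ω) : ℝ := Int.fract (2 ^ N * co F σ (ald D al) s₀ (tk r N X al kN s₀) 2 ω)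

/-- The block. -/
noncomputable def bB (F : Fam 3 J) (σ : Fin 3 → Fin 3) (r U N X D : ℕ) (al kN s₀ : F.Ω → ℝ)
    (ω : F.Ω) : ℤ × ℤ × ℤ := (⌊(2 : ℝ) ^ (r + X) * F.x ω (σ 0)⌋,
  (Uni.dg X (bA F σ r U N X D al kN s₀) ω, Uni.dg X (bn F σ r U N X D al kN s₀) ω))

/-- The label of two planes. -/
noncomputable def bL (F : Fam 3 J) (σ : Fin 3 → Fin 3) (r U N X D : ℕ)
    (al kN a₀ s₀ t₀ : F.Ω → ℝ) (ω : F.Ω) :=
  (bB F σ r U N X D al kN s₀ ω, bW F σ r U N X D al kN a₀ s₀ t₀ ω)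

theorem co0 {a s t : F.Ω → ℝ} (ω : F.Ω) : co F σ a s t 0 ω = F.x ω (σ 0) := by
  unfold co
  rw [Box.mco_tfr0]

theorem co1 {a s t : F.Ω → ℝ} (ω : F.Ω) :
    co F σ a s t 1 ω = F.x ω (σ 1) - a ω * F.x ω (σ 0) := by
  unfold co
  rw [Box.mco_tfr1]

theorem co2 {a s t : F.Ω → ℝ} (ω : F.Ω) :
    co F σ a s t 2 ω = F.x ω (σ 2) - s ω * F.x ω (σ 1) - t ω * F.x ω (σ 0) := by
  unfold co
  rw [Box.mco_tfr2]

/-- The block and the condition from the finer box and the condition. -/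
theorem bB_of_sbx {r U : ℕ} {ω ω' : F.Ω}
    (h : F.sbx σ (r + X) (U + X) (N + X) (ald D al) s₀ (tk r N X al kN s₀) ω =
      F.sbx σ (r + X) (U + X) (N + X) (ald D al) s₀ (tk r N X al kN s₀) ω') :
    bB F σ r U N X D al kN s₀ ω = bB F σ r U N X D al kN s₀ ω' := by
  obtain ⟨-, h1, h2, h3⟩ := (sbx_ext).1 h
  rw [co0, co0] at h1
  exact Prod.ext h1 (Prod.ext (fract_of_floor h2) (fract_of_floor h3))

/-- The finer box of the first two coordinates from the block and the conditions. -/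
theorem sbx_of_bB {r U N' : ℕ} {ω ω' : F.Ω} {s t : F.Ω → ℝ}
    (h : bB F σ r U N X D al kN s₀ ω = bB F σ r U N X D al kN s₀ ω')
    (hW : F.sbx σ r U N (ald D al) s₀ (tk r N X al kN s₀) ω =
      F.sbx σ r U N (ald D al) s₀ (tk r N X al kN s₀) ω')
    (hO : F.sbx σ r U N' (ald D al) s t ω = F.sbx σ r U N' (ald D al) s t ω') :
    F.sbx σ (r + X) (U + X) N' (ald D al) s t ω =
      F.sbx σ (r + X) (U + X) N' (ald D al) s t ω' := by
  obtain ⟨h1, h2⟩ := Prod.ext_iff.mp h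
  obtain ⟨h3, h4⟩ := Prod.ext_iff.mp h2
  obtain ⟨-, g1, g2, g3⟩ := (sbx_ext).1 hW
  obtain ⟨f0, f1, f2, f3⟩ := (sbx_ext).1 hO
  rw [sbx_ext]
  refine ⟨f0, ?_, ?_, f3⟩
  · rw [co0, co0]
    exact h1
  · have e := floor_of_fract g2 h3
    rw [co1, co1] at e ⊢
    exact e

theorem pos_of {ω : F.Ω} (h : 0 < p ω) : 0 < p ω := h

/-- The rounded coefficient. -/
theorem tk_near (r N X : ℕ) (al kN s₀ : F.Ω → ℝ) (ω : F.Ω) :
    |tk r N X al kN s₀ ω - (kN ω - s₀ ω * al ω)| ≤ 1 / 2 ^ (N - r + X) :=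
  dg_near (N - r + X) (fun ω => kN ω - s₀ ω * al ω) ω

theorem ald_near (D : ℕ) (al : F.Ω → ℝ) (ω : F.Ω) : |ald D al ω - al ω| ≤ 1 / 2 ^ D :=
  dg_near D al ω

/-- Powers. -/
theorem pw_ratio {r N X κ : ℕ} (h : N + X ≤ r + κ) : (1 : ℝ) / 2 ^ κ ≤ 2 ^ r / 2 ^ (N + X) := by
  rw [div_le_div_iff₀ (by positivity) (by positivity), one_mul, ← pow_add]
  exact pow_le_pow_right₀ (by norm_num) h

theorem pw_eq {r N X : ℕ} (h : r ≤ N) : (1 : ℝ) / 2 ^ (N - r + X) = 2 ^ r / 2 ^ (N + X) := by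
  have e : N + X = r + (N - r + X) := by omega
  rw [e, pow_add 2 r]
  field_simp

theorem pw_X {r N X : ℕ} : (2 : ℝ) ^ r / 2 ^ (N + X) ≤ 2 ^ r / 2 ^ N :=
  div_le_div_of_nonneg_left (by positivity) (by positivity)
    (pow_le_pow_right₀ (by norm_num) (Nat.le_add_right _ _))

/-- The estimates of the frames. -/
theorem BDat.est (h : BDat F p σ v D a s t al kN a₀ s₀ t₀ κ X w q N B E) {ω : F.Ω} (hω : 0 < p ω) :
    |t ω - tk (w + q) N X al kN s₀ ω + (s ω - s₀ ω) * ald D al ω| ≤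
      (2 * E + 1) * (2 ^ (w + q) / 2 ^ (N + X)) ∧
    Fnr (w + q) (w + v + q) N (4 * E + 4) (a ω) (s ω) (t ω) (ald D al ω) (s₀ ω)
      (tk (w + q) N X al kN s₀ ω) ∧
    |ald D al ω - a₀ ω| ≤ (E ^ 2 + 5 * E + 5) * 2 ^ (w + q) / 2 ^ (w + v + q) ∧
    |tk (w + q) N X al kN s₀ ω - t₀ ω| ≤ (E ^ 2 + 5 * E + 5) * 2 ^ (w + q) / 2 ^ N := by
  have hE := h.E1
  have hUN := h.UN
  have hrN : w + q ≤ N := by omega
  obtain ⟨θ₁, hθ₁⟩ : ∃ θ₁, θ₁ = tk (w + q) N X al kN s₀ ω - (kN ω - s₀ ω * al ω) := ⟨_, rfl⟩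
  obtain ⟨θ₂, hθ₂⟩ : ∃ θ₂, θ₂ = ald D al ω - al ω := ⟨_, rfl⟩
  obtain ⟨c, hc⟩ : ∃ c, c = kN ω - s ω * al ω - t ω := ⟨_, rfl⟩
  obtain ⟨g, hg⟩ : ∃ g : ℝ, g = 2 ^ (w + q) / 2 ^ (N + X) := ⟨_, rfl⟩
  obtain ⟨G, hG⟩ : ∃ G : ℝ, G = 2 ^ (w + q) / 2 ^ N := ⟨_, rfl⟩
  obtain ⟨V, hV⟩ : ∃ V : ℝ, V = 2 ^ (w + q) / 2 ^ (w + v + q) := ⟨_, rfl⟩
  obtain ⟨Q, hQ⟩ : ∃ Q : ℝ, Q = 2 ^ (w + v + q) / 2 ^ N := ⟨_, rfl⟩
  have hg0 : 0 < g := by rw [hg]; positivity
  have hG0 : 0 < G := by rw [hG]; positivity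
  have hV0 : 0 < V := by rw [hV]; positivity
  have hQ0 : 0 < Q := by rw [hQ]; positivity
  have hVv : (1 : ℝ) / 2 ^ v = V := by
    rw [hV, show w + v + q = (w + q) + v by omega, pow_add _ (w + q) v]
    field_simp
  have hQV : Q * V = G := by
    rw [hQ, hV, hG]
    field_simp
  have hgG : g ≤ G := by
    rw [hg, hG]
    exact pw_X
  have t1 : |θ₁| ≤ g := by
    rw [hθ₁, hg, ← pw_eq hrN]
    exact tk_near _ _ _ _ _ _ _
  have t2 : |θ₂| ≤ 1 / 2 ^ D := by rw [hθ₂]; exact ald_near _ _ _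
  have hDg : Q * (1 / 2 ^ D) ≤ g := by
    rw [hQ, hg, div_mul_div_comm, mul_one, ← pow_add, div_le_div_iff₀ (by positivity)
      (by positivity), ← pow_add, ← pow_add]
    exact pow_le_pow_right₀ (by norm_num) (by have := h.Dv; omega)
  have hDV : (1 : ℝ) / 2 ^ D ≤ V := by
    rw [← hVv]
    exact div_le_div_of_nonneg_left (by norm_num) (by positivity)
      (pow_le_pow_right₀ (by norm_num) (by have := h.Dv; omega))
  have hκ : E / 2 ^ κ ≤ E * g := by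
    rw [hg]
    have := mul_le_mul_of_nonneg_left (pw_ratio (r := w + q) h.Nk) (by linarith only [hE] : (0 : ℝ) ≤ E)
    calc E / 2 ^ κ = E * (1 / 2 ^ κ) := by ring
      _ ≤ _ := this
  have c1 : |c| ≤ E * g := by rw [hc]; exact (h.clo ω hω).trans hκ
  have n1 : |al ω - a ω| ≤ 3 * V := by
    have := h.near ω hω
    calc |al ω - a ω| ≤ 3 / 2 ^ v := this
      _ = 3 * (1 / 2 ^ v) := by ring
      _ = 3 * V := by rw [hVv]
  obtain ⟨f1, f2, f3⟩ := h.nat ω hω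
  have f1' : |a ω - a₀ ω| ≤ E * V := by
    rw [hV]
    refine f1.trans (le_of_eq ?_)
    ring
  have f2' : |s ω - s₀ ω| ≤ E * Q := by
    rw [hQ]
    refine f2.trans (le_of_eq ?_)
    ring
  have f3' : |(t ω - t₀ ω) + (s ω - s₀ ω) * a₀ ω| ≤ E * G := by
    rw [hG]
    refine f3.trans (le_of_eq ?_)
    ring
  have hE2 : 0 ≤ E ^ 2 := by positivity
  refine ⟨?_, ⟨?_, ?_, ?_⟩, ?_, ?_⟩
  · have e : t ω - tk (w + q) N X al kN s₀ ω + (s ω - s₀ ω) * ald D al ω =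
        -c - θ₁ + (s ω - s₀ ω) * θ₂ := by
      rw [hc, hθ₁, hθ₂]
      ring
    rw [e, ← hg]
    have k1 : |(s ω - s₀ ω) * θ₂| ≤ E * g := by
      rw [abs_mul]
      calc |s ω - s₀ ω| * |θ₂| ≤ (E * Q) * (1 / 2 ^ D) :=
            mul_le_mul f2' t2 (abs_nonneg _) (by positivity)
        _ = E * (Q * (1 / 2 ^ D)) := by ring
        _ ≤ E * g := mul_le_mul_of_nonneg_left hDg (by linarith only [hE])
    have a1 := abs_le.1 c1
    have a2 := abs_le.1 t1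
    have a3 := abs_le.1 k1
    rw [abs_le]
    constructor <;> linarith only [a1, a2, a3, a1.1, a1.2, a2.1, a2.2, a3.1, a3.2]
  · have e : ald D al ω - a ω = θ₂ + (al ω - a ω) := by rw [hθ₂]; ring
    have e2 : (4 * E + 4) * (2 : ℝ) ^ (w + q) / 2 ^ (w + v + q) = (4 * E + 4) * V := by
      rw [hV]; ring
    rw [e, e2]
    refine (abs_add_le _ _).trans ?_
    have : 0 ≤ E * V := by positivity
    linarith only [t2, hDV, n1, this]
  · have e2 : (4 * E + 4) * (2 : ℝ) ^ (w + v + q) / 2 ^ N = (4 * E + 4) * Q := by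
      rw [hQ]; ring
    rw [e2, abs_sub_comm]
    refine f2'.trans ?_
    have : 0 ≤ E * Q := by positivity
    linarith only [hQ0, this]
  · have e : tk (w + q) N X al kN s₀ ω - t ω + (s₀ ω - s ω) * a ω =
        c + θ₁ + (s ω - s₀ ω) * (al ω - a ω) := by
      rw [hc, hθ₁]
      ring
    have e2 : (4 * E + 4) * (2 : ℝ) ^ (w + q) / 2 ^ N = (4 * E + 4) * G := by
      rw [hG]; ring
    rw [e, e2]
    have k1 : |(s ω - s₀ ω) * (al ω - a ω)| ≤ 3 * E * G := by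
      rw [abs_mul]
      calc |s ω - s₀ ω| * |al ω - a ω| ≤ (E * Q) * (3 * V) :=
            mul_le_mul f2' n1 (abs_nonneg _) (by positivity)
        _ = 3 * E * (Q * V) := by ring
        _ = 3 * E * G := by rw [hQV]
    have k2 : E * g ≤ E * G := mul_le_mul_of_nonneg_left hgG (by linarith only [hE])
    have a1 := abs_le.1 c1
    have a2 := abs_le.1 t1
    have a3 := abs_le.1 k1
    rw [abs_le]
    constructor <;> linarith only [hG0, hgG, k2, a1, a2, a3, a1.1, a1.2, a2.1, a2.2, a3.1, a3.2]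
  · have e : ald D al ω - a₀ ω = θ₂ + (al ω - a ω) + (a ω - a₀ ω) := by rw [hθ₂]; ring
    have e2 : (E ^ 2 + 5 * E + 5) * (2 : ℝ) ^ (w + q) / 2 ^ (w + v + q) =
        (E ^ 2 + 5 * E + 5) * V := by
      rw [hV]; ring
    rw [e, e2]
    have k1 : 0 ≤ E ^ 2 * V := by positivity
    have k2 : 0 ≤ E * V := by positivity
    have a1 := abs_le.1 (t2.trans hDV)
    have a2 := abs_le.1 n1
    have a3 := abs_le.1 f1'
    rw [abs_le]
    constructor <;> linarith only [hV0, k1, k2, a1, a2, a3, a1.1, a1.2, a2.1, a2.2, a3.1, a3.2]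
  · have e : tk (w + q) N X al kN s₀ ω - t₀ ω = c + θ₁ + ((t ω - t₀ ω) + (s ω - s₀ ω) * a₀ ω) +
        (s ω - s₀ ω) * ((al ω - a ω) + (a ω - a₀ ω)) := by
      rw [hc, hθ₁]
      ring
    have e2 : (E ^ 2 + 5 * E + 5) * (2 : ℝ) ^ (w + q) / 2 ^ N = (E ^ 2 + 5 * E + 5) * G := by
      rw [hG]; ring
    rw [e, e2]
    have k0 : |(al ω - a ω) + (a ω - a₀ ω)| ≤ (3 + E) * V := by
      refine (abs_add_le _ _).trans ?_
      linarith only [n1, f1']
    have k1 : |(s ω - s₀ ω) * ((al ω - a ω) + (a ω - a₀ ω))| ≤ (E ^ 2 + 3 * E) * G := by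
      rw [abs_mul]
      calc |s ω - s₀ ω| * |(al ω - a ω) + (a ω - a₀ ω)| ≤ (E * Q) * ((3 + E) * V) :=
            mul_le_mul f2' k0 (abs_nonneg _) (by positivity)
        _ = (E ^ 2 + 3 * E) * (Q * V) := by ring
        _ = (E ^ 2 + 3 * E) * G := by rw [hQV]
    have k2 : E * g ≤ E * G := mul_le_mul_of_nonneg_left hgG (by linarith only [hE])
    have a1 := abs_le.1 c1
    have a2 := abs_le.1 t1
    have a3 := abs_le.1 f3'
    have a4 := abs_le.1 k1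
    rw [abs_le]
    constructor <;> linarith only [hG0, hgG, k2, a1, a2, a3, a4, a1.1, a1.2, a2.1, a2.2, a3.1, a3.2, a4.1, a4.2]

/-- The condition of the result of the U-step. -/
noncomputable def bO (F : Fam 3 J) (σ : Fin 3 → Fin 3) (v D : ℕ) (a s t al : F.Ω → ℝ)
    (κ w q N' : ℕ) (ω : F.Ω) :=
  (F.sbx σ (w + q) (w + v + q) N' (ald D al) s t ω,
    (F.ctx σ w (w + q) (w + v + q) (w + q + κ) a s t ω, (Uni.dg D al ω, F.T ω)))

/-- The data given by the condition. -/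
theorem bO_ext (hσ : Function.Injective σ) {N' : ℕ} {ω ω' : F.Ω}
    (h : bO F σ v D a s t al κ w q N' ω = bO F σ v D a s t al κ w q N' ω') :
    F.sbx σ (w + q) (w + v + q) N' (ald D al) s t ω =
      F.sbx σ (w + q) (w + v + q) N' (ald D al) s t ω' ∧
    F.ctx σ w (w + q) (w + v + q) (w + q + κ) a s t ω =
      F.ctx σ w (w + q) (w + v + q) (w + q + κ) a s t ω' ∧
    Uni.dg D al ω = Uni.dg D al ω' ∧ F.T ω = F.T ω' ∧ F.W ω = F.W ω' ∧
    a ω = a ω' ∧ s ω = s ω' ∧ t ω = t ω' := by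
  obtain ⟨h1, h2⟩ := Prod.ext_iff.mp h
  obtain ⟨h3, h4⟩ := Prod.ext_iff.mp h2
  obtain ⟨h5, h6⟩ := Prod.ext_iff.mp h4
  have h3' : F.ctx σ w (w + q) (w + v + q) (w + q + κ) a s t ω =
      F.ctx σ w (w + q) (w + v + q) (w + q + κ) a s t ω' := h3
  have h3'' := h3'
  rw [ctx_eq] at h3''
  obtain ⟨e1, e2, e3, e4, e5⟩ := Box.mlb_ext h3''
  have e2' : frm σ a s t ω = frm σ a s t ω' := e2
  obtain ⟨f1, f2, f3⟩ := Box.tfr_eq hσ e2'
  have h6' : F.T ω = F.T ω' := h6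
  exact ⟨h1, h3', h5, h6', Prod.ext h6' e5, f1, f2, f3⟩

/-- The natural frame from the condition of the U-step: it lies in a grid. -/
theorem BDat.CH_fr (h : BDat F p σ v D a s t al kN a₀ s₀ t₀ κ X w q N B E) (N' : ℕ) :
    CH p (fun ω => (a₀ ω, s₀ ω, t₀ ω)) (bO F σ v D a s t al κ w q N') ≤
      3 * Real.log (4 * E + 1) := by
  have hp := h.law
  have h0 := hp.nonneg
  have hE := h.E1
  have hUN := h.UN
  choose m₁ hm₁ using fun ω => (h.gr ω).1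
  choose m₂ hm₂ using fun ω => (h.gr ω).2.1
  choose m₃ hm₃ using fun ω => (h.gr ω).2.2
  obtain ⟨O, hO⟩ : ∃ O, O = bO F σ v D a s t al κ w q N' := ⟨_, rfl⟩
  rw [← hO]
  have hU : (2 : ℝ) ^ (w + v + q) / 2 ^ N * 2 ^ (N - (w + v + q)) = 1 := by
    have e : N = (w + v + q) + (N - (w + v + q)) := by omega
    have e2 : (2 : ℝ) ^ N = 2 ^ (w + v + q) * 2 ^ (N - (w + v + q)) := by
      rw [← pow_add, ← e]
    rw [e2]
    field_simp
  have hr : (2 : ℝ) ^ (w + q) / 2 ^ N * 2 ^ (N - (w + q)) = 1 := by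
    have e : N = (w + q) + (N - (w + q)) := by omega
    have e2 : (2 : ℝ) ^ N = 2 ^ (w + q) * 2 ^ (N - (w + q)) := by
      rw [← pow_add, ← e]
    rw [e2]
    field_simp
  have hv : (2 : ℝ) ^ (w + q) / 2 ^ (w + v + q) * 2 ^ v = 1 := by
    rw [show w + v + q = (w + q) + v by omega, pow_add _ (w + q) v]
    field_simp
  have hO' : ∀ ω ω', O ω = O ω' → a ω = a ω' ∧ s ω = s ω' ∧ t ω = t ω' := by
    intro ω ω' e
    rw [hO] at e
    obtain ⟨-, -, -, -, -, g2, g3, g4⟩ := bO_ext h.bij.1 e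
    exact ⟨g2, g3, g4⟩
  have e0 : 4 * E + 1 = 2 * (2 * E) + 1 := by ring
  -- the three integers
  have k1 : CH p m₁ O ≤ Real.log (4 * E + 1) := by
    rw [e0]
    refine CH_int hp m₁ O ?_
    intro ω ω' hω hω' e
    obtain ⟨g1, -, -⟩ := hO' ω ω' e
    have f1 := (h.nat ω hω).1
    have f2 := (h.nat ω' hω').1
    have e1 : ((m₁ ω - m₁ ω' : ℤ) : ℝ) = 2 ^ v * ((a ω' - a₀ ω') - (a ω - a₀ ω)) := by
      rw [hm₁ ω, hm₁ ω', g1]
      push_cast
      field_simp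
      ring
    rw [e1, abs_mul, abs_of_pos (by positivity : (0 : ℝ) < 2 ^ v)]
    have f3 : |(a ω' - a₀ ω') - (a ω - a₀ ω)| ≤ 2 * (E * 2 ^ (w + q) / 2 ^ (w + v + q)) := by
      refine (abs_sub _ _).trans ?_
      linarith only [f1, f2]
    calc (2 : ℝ) ^ v * |(a ω' - a₀ ω') - (a ω - a₀ ω)| ≤
          2 ^ v * (2 * (E * 2 ^ (w + q) / 2 ^ (w + v + q))) :=
          mul_le_mul_of_nonneg_left f3 (by positivity)
      _ = 2 * E * (2 ^ (w + q) / 2 ^ (w + v + q) * 2 ^ v) := by ring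
      _ = 2 * E := by rw [hv, mul_one]
  have k2 : CH p m₂ O ≤ Real.log (4 * E + 1) := by
    rw [e0]
    refine CH_int hp m₂ O ?_
    intro ω ω' hω hω' e
    obtain ⟨-, g1, -⟩ := hO' ω ω' e
    have f1 := (h.nat ω hω).2.1
    have f2 := (h.nat ω' hω').2.1
    have e1 : ((m₂ ω - m₂ ω' : ℤ) : ℝ) = 2 ^ (N - (w + v + q)) *
        ((s ω' - s₀ ω') - (s ω - s₀ ω)) := by
      rw [hm₂ ω, hm₂ ω', g1]
      push_cast
      field_simp
      ring
    rw [e1, abs_mul, abs_of_pos (by positivity : (0 : ℝ) < 2 ^ (N - (w + v + q)))]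
    have f3 : |(s ω' - s₀ ω') - (s ω - s₀ ω)| ≤ 2 * (E * 2 ^ (w + v + q) / 2 ^ N) := by
      refine (abs_sub _ _).trans ?_
      linarith only [f1, f2]
    calc (2 : ℝ) ^ (N - (w + v + q)) * |(s ω' - s₀ ω') - (s ω - s₀ ω)| ≤
          2 ^ (N - (w + v + q)) * (2 * (E * 2 ^ (w + v + q) / 2 ^ N)) :=
          mul_le_mul_of_nonneg_left f3 (by positivity)
      _ = 2 * E * (2 ^ (w + v + q) / 2 ^ N * 2 ^ (N - (w + v + q))) := by ring
      _ = 2 * E := by rw [hU, mul_one]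
  have k3 : CH p m₃ (fun ω => ((m₁ ω, m₂ ω), O ω)) ≤ Real.log (4 * E + 1) := by
    rw [e0]
    refine CH_int hp m₃ _ ?_
    intro ω ω' hω hω' e
    obtain ⟨d1, d2⟩ := Prod.ext_iff.mp e
    obtain ⟨d3, d4⟩ := Prod.ext_iff.mp d1
    have d3' : m₁ ω = m₁ ω' := d3
    have d4' : m₂ ω = m₂ ω' := d4
    obtain ⟨g1, g2, g3⟩ := hO' ω ω' d2
    have f1 := (h.nat ω hω).2.2
    have f2 := (h.nat ω' hω').2.2
    have c1 : a₀ ω = a₀ ω' := by rw [hm₁ ω, hm₁ ω', d3']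
    have c2 : s₀ ω = s₀ ω' := by rw [hm₂ ω, hm₂ ω', d4']
    have e1 : ((m₃ ω - m₃ ω' : ℤ) : ℝ) = 2 ^ (N - (w + q)) *
        (((t ω' - t₀ ω') + (s ω' - s₀ ω') * a₀ ω') -
          ((t ω - t₀ ω) + (s ω - s₀ ω) * a₀ ω)) := by
      rw [c1, c2, g2, g3, hm₃ ω, hm₃ ω']
      push_cast
      field_simp
      ring
    rw [e1, abs_mul, abs_of_pos (by positivity : (0 : ℝ) < 2 ^ (N - (w + q)))]
    have f3 : |((t ω' - t₀ ω') + (s ω' - s₀ ω') * a₀ ω') -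
          ((t ω - t₀ ω) + (s ω - s₀ ω) * a₀ ω)| ≤ 2 * (E * 2 ^ (w + q) / 2 ^ N) := by
      refine (abs_sub _ _).trans ?_
      linarith only [f1, f2]
    calc (2 : ℝ) ^ (N - (w + q)) * |((t ω' - t₀ ω') + (s ω' - s₀ ω') * a₀ ω') -
          ((t ω - t₀ ω) + (s ω - s₀ ω) * a₀ ω)| ≤
          2 ^ (N - (w + q)) * (2 * (E * 2 ^ (w + q) / 2 ^ N)) :=
          mul_le_mul_of_nonneg_left f3 (by positivity)
      _ = 2 * E * (2 ^ (w + q) / 2 ^ N * 2 ^ (N - (w + q))) := by ring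
      _ = 2 * E := by rw [hr, mul_one]
  have k4 : CH p (fun ω => (a₀ ω, s₀ ω, t₀ ω)) O ≤ CH p (fun ω => (m₃ ω, (m₁ ω, m₂ ω))) O := by
    refine CH_mono_left h0 ?_
    intro ω ω' _ _ e
    obtain ⟨d1, d2⟩ := Prod.ext_iff.mp e
    obtain ⟨d3, d4⟩ := Prod.ext_iff.mp d1
    obtain ⟨d5, d6⟩ := Prod.ext_iff.mp d4
    have d3' : m₃ ω = m₃ ω' := d3
    have d5' : m₁ ω = m₁ ω' := d5
    have d6' : m₂ ω = m₂ ω' := d6
    refine Prod.ext ?_ (Prod.ext ?_ ?_)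
    · show a₀ ω = a₀ ω'
      rw [hm₁ ω, hm₁ ω', d5']
    · show s₀ ω = s₀ ω'
      rw [hm₂ ω, hm₂ ω', d6']
    · show t₀ ω = t₀ ω'
      rw [hm₃ ω, hm₃ ω', d3']
  have k5 := CH_chain h0 m₃ (fun ω => (m₁ ω, m₂ ω)) O
  have k6 := CH_subadd h0 m₁ m₂ O
  linarith only [k1, k2, k3, k4, k5, k6]

/-- The condition `bW` from the condition of the U-step. -/
theorem BDat.CH_W (h : BDat F p σ v D a s t al kN a₀ s₀ t₀ κ X w q N B E) (N' : ℕ) :
    CH p (bW F σ (w + q) (w + v + q) N X D al kN a₀ s₀ t₀) (bO F σ v D a s t al κ w q N') ≤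
      3 * Real.log (4 * E + 1) + Real.log (6 * E + 3) + 3 * Real.log (48 * E + 51) := by
  have hp := h.law
  have h0 := hp.nonneg
  have hE := h.E1
  have hUN := h.UN
  have hrN : w + q ≤ N := by omega
  obtain ⟨O, hO⟩ : ∃ O, O = bO F σ v D a s t al κ w q N' := ⟨_, rfl⟩
  obtain ⟨kd, hkd⟩ : ∃ kd, kd = Uni.dg (N - (w + q) + X) (fun ω => kN ω - s₀ ω * al ω) := ⟨_, rfl⟩
  rw [← hO]
  have kf := h.CH_fr N'
  rw [← hO] at kf
  obtain ⟨fr, hfr⟩ : ∃ fr, fr = fun ω => (a₀ ω, s₀ ω, t₀ ω) := ⟨_, rfl⟩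
  rw [← hfr] at kf
  have hfe : ∀ ω ω', fr ω = fr ω' → a₀ ω = a₀ ω' ∧ s₀ ω = s₀ ω' ∧ t₀ ω = t₀ ω' := by
    intro ω ω' e
    rw [hfr] at e
    obtain ⟨e1, e2⟩ := Prod.ext_iff.mp e
    obtain ⟨e3, e4⟩ := Prod.ext_iff.mp e2
    exact ⟨e1, e3, e4⟩
  have k0 := CH_le_add h0 (bW F σ (w + q) (w + v + q) N X D al kN a₀ s₀ t₀) fr O
  have k1 := CH_le_add h0 (bW F σ (w + q) (w + v + q) N X D al kN a₀ s₀ t₀) kd
    (fun ω => (fr ω, O ω))
  -- the digits of the coefficient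
  have k2 : CH p kd (fun ω => (fr ω, O ω)) ≤ Real.log (6 * E + 3) := by
    have e0 : 6 * E + 3 = 2 * (3 * E + 1) + 1 := by ring
    rw [e0]
    refine CH_int hp kd _ ?_
    intro ω ω' hω hω' e
    obtain ⟨e1, e⟩ := Prod.ext_iff.mp e
    obtain ⟨-, g5, -⟩ := hfe ω ω' e1
    have e' : O ω = O ω' := e
    rw [hO] at e'
    obtain ⟨-, -, g1, -, -, g2, g3, g4⟩ := bO_ext h.bij.1 e'
    rw [hkd]
    refine Plk.floor_sub_lt ?_
    rw [← mul_sub, abs_mul, abs_of_pos (by positivity : (0 : ℝ) < 2 ^ (N - (w + q) + X))]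
    have d1 : |al ω - al ω'| ≤ 1 / 2 ^ D := Box.near_of_floor g1
    have d2 := h.clo ω hω
    have d3 := h.clo ω' hω'
    obtain ⟨-, d4, -⟩ := h.nat ω hω
    have e1 : (kN ω - s₀ ω * al ω) - (kN ω' - s₀ ω' * al ω') =
        (kN ω - s ω * al ω - t ω) - (kN ω' - s ω' * al ω' - t ω') +
          (s ω - s₀ ω) * (al ω - al ω') := by
      rw [← g3, ← g4, ← g5]
      ring
    rw [e1]
    have d5 : |(s ω - s₀ ω) * (al ω - al ω')| ≤ E * 2 ^ (w + v + q) / 2 ^ N * (1 / 2 ^ D) := by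
      rw [abs_mul]
      exact mul_le_mul d4 d1 (abs_nonneg _) (by positivity)
    have d6 : |(kN ω - s ω * al ω - t ω) - (kN ω' - s ω' * al ω' - t ω') +
          (s ω - s₀ ω) * (al ω - al ω')| ≤ 2 * (E / 2 ^ κ) +
            E * 2 ^ (w + v + q) / 2 ^ N * (1 / 2 ^ D) := by
      refine (abs_add_le _ _).trans (add_le_add ((abs_sub _ _).trans ?_) d5)
      linarith only [d2, d3]
    refine (mul_le_mul_of_nonneg_left d6 (by positivity)).trans ?_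
    have d7 : (2 : ℝ) ^ (N - (w + q) + X) * (1 / 2 ^ κ) ≤ 1 := by
      rw [mul_one_div, div_le_one (by positivity)]
      exact pow_le_pow_right₀ (by norm_num) (by have := h.Nk; omega)
    have d8 : (2 : ℝ) ^ (N - (w + q) + X) * (2 ^ (w + v + q) / 2 ^ N * (1 / 2 ^ D)) ≤ 1 := by
      rw [div_mul_div_comm, mul_one, mul_div_assoc', div_le_one (by positivity), ← pow_add,
        ← pow_add]
      exact pow_le_pow_right₀ (by norm_num) (by have := h.Dv; omega)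
    calc (2 : ℝ) ^ (N - (w + q) + X) * (2 * (E / 2 ^ κ) +
            E * 2 ^ (w + v + q) / 2 ^ N * (1 / 2 ^ D)) =
          2 * E * (2 ^ (N - (w + q) + X) * (1 / 2 ^ κ)) +
            E * (2 ^ (N - (w + q) + X) * (2 ^ (w + v + q) / 2 ^ N * (1 / 2 ^ D))) := by ring
      _ ≤ 2 * E * 1 + E * 1 := add_le_add (mul_le_mul_of_nonneg_left d7 (by linarith only [hE]))
          (mul_le_mul_of_nonneg_left d8 (by linarith only [hE]))
      _ = 3 * E := by ring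
  -- the static box
  have k3 : CH p (bW F σ (w + q) (w + v + q) N X D al kN a₀ s₀ t₀)
      (fun ω => (kd ω, (fr ω, O ω))) ≤ 3 * Real.log (48 * E + 51) := by
    have c1 : CH p (bW F σ (w + q) (w + v + q) N X D al kN a₀ s₀ t₀)
        (fun ω => (kd ω, (fr ω, O ω))) ≤
        CH p (F.sbx σ (w + q) (w + v + q) N (ald D al) s₀ (tk (w + q) N X al kN s₀))
          (fun ω => (kd ω, (fr ω, O ω))) := by
      refine CH_mono_left h0 ?_
      intro ω ω' hω hω' e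
      obtain ⟨e1, e2⟩ := Prod.ext_iff.mp e
      obtain ⟨e3, e4⟩ := Prod.ext_iff.mp e2
      obtain ⟨e5, e6⟩ := Prod.ext_iff.mp e4
      have e4' : O ω = O ω' := e6
      rw [hO] at e4'
      obtain ⟨-, -, g1, -, gW, g2, g3, g4⟩ := bO_ext h.bij.1 e4'
      obtain ⟨f1, f2, f3⟩ := hfe ω ω' e5
      exact Prod.ext e1 (Prod.ext (Prod.ext f1 (Prod.ext f2 f3)) (Prod.ext g1 gW))
    refine c1.trans ?_
    have hwJ := h.wJ
    have hNk := h.Nk
    have c2 := Box.CH_sbx_of_ctx (F := F) (σ := σ) (a := a) (s := s) (t := t) (a' := ald D al)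
      (s' := s₀) (t' := tk (w + q) N X al kN s₀) (w := w) (r := w + q) (U := w + v + q)
      (P := w + q + κ) (r' := w + q) (U' := w + v + q) (P' := N) (D := 4 * E + 4) hp hwJ
      (by linarith only [hE]) (by omega) (by omega) (by omega) le_rfl le_rfl (by omega)
      (fun ω hω => (h.est hω).2.1) (fun ω => (kd ω, (fr ω, O ω))) (by
        intro ω ω' hω hω' e
        obtain ⟨e3, e4⟩ := Prod.ext_iff.mp e
        obtain ⟨e5, e6⟩ := Prod.ext_iff.mp e4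
        have e4' : O ω = O ω' := e6
        rw [hO] at e4'
        obtain ⟨-, g0, g1, gT, gW, g2, g3, g4⟩ := bO_ext h.bij.1 e4'
        obtain ⟨f1, f2, f3⟩ := hfe ω ω' e5
        refine ⟨g0, gT, ?_, f2, ?_⟩
        · unfold ald
          rw [g1]
        · have e3' : kd ω = kd ω' := e3
          rw [hkd] at e3'
          unfold tk ald
          rw [e3'])
    refine c2.trans (le_of_eq ?_)
    push_cast
    congr 2
    ring
  linarith only [kf, k0, k1, k2, k3]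

/-- **The lower bound** for the block in the context of the plane of directions. -/
theorem BDat.low (h : BDat F p σ v D a s t al kN a₀ s₀ t₀ κ X w q N B E) (N' : ℕ) :
    CH p (F.sbx σ (w + q + X) (w + v + q + X) N' (ald D al) s t)
      (bO F σ v D a s t al κ w q N') ≤
    CH p (bB F σ (w + q) (w + v + q) N X D al kN s₀)
      (fun ω => (bO F σ v D a s t al κ w q N' ω,
        bW F σ (w + q) (w + v + q) N X D al kN a₀ s₀ t₀ ω)) +
      (3 * Real.log (4 * E + 1) + Real.log (6 * E + 3) + 3 * Real.log (48 * E + 51)) := by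
  have hp := h.law
  have h0 := hp.nonneg
  have k0 := h.CH_W N'
  have k1 := CH_le_add h0 (F.sbx σ (w + q + X) (w + v + q + X) N' (ald D al) s t)
    (bW F σ (w + q) (w + v + q) N X D al kN a₀ s₀ t₀) (bO F σ v D a s t al κ w q N')
  have k2 : CH p (F.sbx σ (w + q + X) (w + v + q + X) N' (ald D al) s t)
      (fun ω => (bW F σ (w + q) (w + v + q) N X D al kN a₀ s₀ t₀ ω,
        bO F σ v D a s t al κ w q N' ω)) ≤
      CH p (bB F σ (w + q) (w + v + q) N X D al kN s₀)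
      (fun ω => (bW F σ (w + q) (w + v + q) N X D al kN a₀ s₀ t₀ ω,
        bO F σ v D a s t al κ w q N' ω)) := by
    refine CH_mono_left h0 ?_
    intro ω ω' hω hω' e
    obtain ⟨e1, e2⟩ := Prod.ext_iff.mp e
    obtain ⟨e3, e4⟩ := Prod.ext_iff.mp e2
    exact sbx_of_bB e1 (Prod.ext_iff.mp e3).1 (Prod.ext_iff.mp e4).1
  have k3 : CH p (bB F σ (w + q) (w + v + q) N X D al kN s₀)
      (fun ω => (bW F σ (w + q) (w + v + q) N X D al kN a₀ s₀ t₀ ω,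
        bO F σ v D a s t al κ w q N' ω)) ≤
      CH p (bB F σ (w + q) (w + v + q) N X D al kN s₀)
      (fun ω => (bO F σ v D a s t al κ w q N' ω,
        bW F σ (w + q) (w + v + q) N X D al kN a₀ s₀ t₀ ω)) := by
    refine CH_mono_cond h0 ?_
    intro ω ω' _ _ e
    exact Prod.ext (Prod.ext_iff.mp e).2 (Prod.ext_iff.mp e).1
  linarith only [k0, k1, k2, k3]

/-- **The upper bound** for the block in the natural box. -/
theorem BDat.up (h : BDat F p σ v D a s t al kN a₀ s₀ t₀ κ X w q N B E) :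
    CH p (bB F σ (w + q) (w + v + q) N X D al kN s₀)
      (bW F σ (w + q) (w + v + q) N X D al kN a₀ s₀ t₀) ≤
    CH p (F.sbx σ (w + q + X) (w + v + q + X) (N + X) a₀ s₀ t₀)
      (fun ω => (F.sbx σ (w + q) (w + v + q) N a₀ s₀ t₀ ω, F.W ω)) +
      6 * Real.log (6 * (E ^ 2 + 5 * E + 5) + 3) := by
  have hp := h.law
  have h0 := hp.nonneg
  have hE := h.E1
  have hD1 : 1 ≤ E ^ 2 + 5 * E + 5 := by nlinarith only [hE]
  obtain ⟨W, hW⟩ : ∃ W, W = bW F σ (w + q) (w + v + q) N X D al kN a₀ s₀ t₀ := ⟨_, rfl⟩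
  obtain ⟨bx, hbx⟩ : ∃ bx, bx = F.sbx σ (w + q) (w + v + q) N a₀ s₀ t₀ := ⟨_, rfl⟩
  obtain ⟨bx', hbx'⟩ : ∃ bx', bx' = F.sbx σ (w + q + X) (w + v + q + X) (N + X) a₀ s₀ t₀ :=
    ⟨_, rfl⟩
  obtain ⟨cx', hcx'⟩ : ∃ cx', cx' = F.sbx σ (w + q + X) (w + v + q + X) (N + X) (ald D al) s₀
    (tk (w + q) N X al kN s₀) := ⟨_, rfl⟩
  rw [← hW, ← hbx, ← hbx']
  -- the frames
  have hdet : ∀ ω ω', W ω = W ω' → (a₀ ω = a₀ ω' ∧ s₀ ω = s₀ ω' ∧ t₀ ω = t₀ ω') ∧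
      F.W ω = F.W ω' := by
    intro ω ω' e
    rw [hW] at e
    obtain ⟨e1, e2⟩ := Prod.ext_iff.mp e
    obtain ⟨e3, e4⟩ := Prod.ext_iff.mp e2
    obtain ⟨e5, e6⟩ := Prod.ext_iff.mp e3
    obtain ⟨e7, e8⟩ := Prod.ext_iff.mp e6
    exact ⟨⟨e5, e7, e8⟩, (Prod.ext_iff.mp e4).2⟩
  have hfr : ∀ ω ω', W ω = W ω' → ald D al ω = ald D al ω' ∧ s₀ ω = s₀ ω' ∧
      tk (w + q) N X al kN s₀ ω = tk (w + q) N X al kN s₀ ω' := by
    intro ω ω' e
    rw [hW] at e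
    exact ((sbx_ext).1 (Prod.ext_iff.mp e).1).1
  have m1 : CH p (bB F σ (w + q) (w + v + q) N X D al kN s₀) W ≤ CH p cx' W := by
    refine CH_mono_left h0 ?_
    intro ω ω' _ _ e
    obtain ⟨e1, e2⟩ := Prod.ext_iff.mp e
    rw [hcx'] at e1
    exact bB_of_sbx e1
  have m2 := CH_le_add h0 cx' bx' W
  have m3 := CH_le_add h0 bx' bx W
  have m4 : CH p bx' (fun ω => (bx ω, W ω)) ≤ CH p bx' (fun ω => (bx ω, F.W ω)) := by
    refine CH_mono_cond h0 ?_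
    intro ω ω' _ _ e
    obtain ⟨e1, e2⟩ := Prod.ext_iff.mp e
    exact Prod.ext e1 (hdet ω ω' e2).2
  have m5 : CH p bx W ≤ (3 : ℕ) * Real.log (6 * (E ^ 2 + 5 * E + 5) + 3) := by
    rw [hbx]
    refine CH_sbx_chg (σ := σ) (a := ald D al) (s := s₀) (t := tk (w + q) N X al kN s₀)
      (a' := a₀) (s' := s₀) (t' := t₀) hp hD1 le_rfl le_rfl le_rfl (fun ω hω => ?_) W
      (fun ω ω' _ _ e => by rw [hW] at e; exact (Prod.ext_iff.mp e).1)
      (fun ω ω' _ _ e => by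
        obtain ⟨⟨f1, f2, f3⟩, -⟩ := hdet ω ω' e
        exact Prod.ext f1 (Prod.ext f2 f3))
    obtain ⟨-, -, g1, g2⟩ := h.est hω
    refine ⟨?_, ?_, ?_⟩
    · rw [abs_sub_comm]
      exact g1
    · rw [sub_self, abs_zero]
      positivity
    · rw [sub_self, zero_mul, add_zero, abs_sub_comm]
      exact g2
  have m6 : CH p cx' (fun ω => (bx' ω, W ω)) ≤
      (3 : ℕ) * Real.log (6 * (E ^ 2 + 5 * E + 5) + 3) := by
    rw [hcx']
    refine CH_sbx_chg (σ := σ) (a := a₀) (s := s₀) (t := t₀) (a' := ald D al) (s' := s₀)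
      (t' := tk (w + q) N X al kN s₀) (r₀ := w + q + X) (U₀ := w + v + q + X) (P₀ := N + X)
      hp hD1 le_rfl le_rfl le_rfl (fun ω hω => ?_) _
      (fun ω ω' _ _ e => by
        have := (Prod.ext_iff.mp e).1
        rw [hbx'] at this
        exact this)
      (fun ω ω' _ _ e => by
        obtain ⟨f1, f2, f3⟩ := hfr ω ω' (Prod.ext_iff.mp e).2
        exact Prod.ext f1 (Prod.ext f2 f3))
    obtain ⟨-, -, g1, g2⟩ := h.est hω
    have hpw : ∀ (K : ℝ) (x y : ℕ), K * (2 : ℝ) ^ (x + X) / 2 ^ (y + X) = K * 2 ^ x / 2 ^ y := by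
      intro K x y
      rw [pow_add, pow_add]
      field_simp
    rw [hpw, hpw, hpw]
    refine ⟨g1, ?_, ?_⟩
    · rw [sub_self, abs_zero]
      positivity
    · rw [sub_self, zero_mul, add_zero]
      exact g2
  push_cast at m5 m6
  linarith only [m1, m2, m3, m4, m5, m6]

/-- The label of two planes is a function of the exact point, up to a bounded number of values. -/
theorem BDat.CH_L (h : BDat F p σ v D a s t al kN a₀ s₀ t₀ κ X w q N B E) :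
    CH p (bL F σ (w + q) (w + v + q) N X D al kN a₀ s₀ t₀) (Fam.pt F) ≤ K1 (B ^ 2 + B + 1) := by
  have hp := h.law
  have h0 := hp.nonneg
  have hB := h.B1
  have hUN := h.UN
  have hNJ := h.NJ
  have hv : ∀ ω ω', 0 < p ω → 0 < p ω' → Fam.pt F ω = Fam.pt F ω' →
      (a₀ ω = a₀ ω' ∧ s₀ ω = s₀ ω' ∧ t₀ ω = t₀ ω') ∧ Uni.dg D al ω = Uni.dg D al ω' ∧
      ald D al ω = ald D al ω' ∧ tk (w + q) N X al kN s₀ ω = tk (w + q) N X al kN s₀ ω' := by
    intro ω ω' hω hω' e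
    obtain ⟨⟨f1, f2⟩, f3, f4, f5⟩ := h.vis ω ω' hω hω' e
    have g1 : Uni.dg D al ω = Uni.dg D al ω' := by
      unfold Uni.dg
      rw [f1]
    refine ⟨⟨f3, f4, f5⟩, g1, ?_, ?_⟩
    · unfold ald
      rw [g1]
    · unfold tk ald Uni.dg
      simp only [f1, f2, f4]
  have k1 : CH p (bL F σ (w + q) (w + v + q) N X D al kN a₀ s₀ t₀) (Fam.pt F) ≤
      CH p (F.sbx σ (w + q + X) (w + v + q + X) (N + X) (ald D al) s₀
        (tk (w + q) N X al kN s₀)) (Fam.pt F) := by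
    refine CH_mono_left h0 ?_
    intro ω ω' hω hω' e
    obtain ⟨e1, e2⟩ := Prod.ext_iff.mp e
    obtain ⟨⟨f3, f4, f5⟩, g1, g2, g3⟩ := hv ω ω' hω hω' e2
    have e4 : F.W ω = F.W ω' := (Prod.ext_iff.mp e2).2
    refine Prod.ext (bB_of_sbx e1) (Prod.ext ?_ (Prod.ext (Prod.ext f3 (Prod.ext f4 f5))
      (Prod.ext g1 e4)))
    exact sbx_lift (Nat.le_add_right _ _) (Nat.le_add_right _ _) (Nat.le_add_right _ _) e1
  refine k1.trans ?_
  refine CH_sbx_X (σ := σ) (a := ald D al) (s := s₀) (t := tk (w + q) N X al kN s₀) hp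
    (by nlinarith only [hB]) (K := J) (by omega) (by omega) hNJ (fun ω hω => ?_) _
    (fun ω ω' _ _ e => (Prod.ext_iff.mp e).1) (fun ω ω' hω hω' e => ?_)
  · obtain ⟨b1, b2⟩ := h.bal ω hω
    obtain ⟨b3, b4, b5⟩ := h.b0 ω hω
    have c1 := ald_near D al ω
    have c2 := tk_near (w + q) N X al kN s₀ ω
    have c3 : (1 : ℝ) / 2 ^ D ≤ 1 := div_le_self (by norm_num) (one_le_pow₀ (by norm_num))
    have c4 : (1 : ℝ) / 2 ^ (N - (w + q) + X) ≤ 1 :=
      div_le_self (by norm_num) (one_le_pow₀ (by norm_num))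
    have hB2 : 0 ≤ B ^ 2 := by positivity
    refine ⟨?_, by linarith only [b4, hB2], ?_⟩
    · have e : ald D al ω = (ald D al ω - al ω) + al ω := by ring
      rw [e]
      refine (abs_add_le _ _).trans ?_
      linarith only [b1, c1, c3, hB2]
    · have e : tk (w + q) N X al kN s₀ ω =
          (tk (w + q) N X al kN s₀ ω - (kN ω - s₀ ω * al ω)) + (kN ω - s₀ ω * al ω) := by ring
      rw [e]
      have c5 : |kN ω - s₀ ω * al ω| ≤ B + B ^ 2 := by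
        refine (abs_sub _ _).trans ?_
        rw [abs_mul]
        have : |s₀ ω| * |al ω| ≤ B * B :=
          mul_le_mul b4 b1 (abs_nonneg _) (by linarith only [hB])
        nlinarith only [b2, this]
      refine (abs_add_le _ _).trans ?_
      linarith only [c2, c4, c5]
  · obtain ⟨⟨f3, f4, f5⟩, g1, g2, g3⟩ := hv ω ω' hω hω' e
    exact Prod.ext g2 (Prod.ext f4 g3)

/-- The planks of the planes of directions. -/
theorem BDat.plk (h : BDat F p σ v D a s t al kN a₀ s₀ t₀ κ X w q N B E) (N' : ℕ) {ω ω' : F.Ω}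
    (hω : 0 < p ω)
    (e : (bO F σ v D a s t al κ w q N' ω, bW F σ (w + q) (w + v + q) N X D al kN a₀ s₀ t₀ ω) =
      (bO F σ v D a s t al κ w q N' ω', bW F σ (w + q) (w + v + q) N X D al kN a₀ s₀ t₀ ω')) :
    |(bn F σ (w + q) (w + v + q) N X D al kN s₀ ω -
        2 ^ N / 2 ^ (w + v + q) * (s ω - s₀ ω) * bA F σ (w + q) (w + v + q) N X D al kN s₀ ω) -
      (bn F σ (w + q) (w + v + q) N X D al kN s₀ ω' -
        2 ^ N / 2 ^ (w + v + q) * (s ω' - s₀ ω') * bA F σ (w + q) (w + v + q) N X D al kN s₀ ω')| ≤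
      (2 * E + 3) / 2 ^ X := by
  have hE := h.E1
  have hUN := h.UN
  have hNk := h.Nk
  obtain ⟨e1, e2⟩ := Prod.ext_iff.mp e
  obtain ⟨-, g0, g1, gT, gW, g2, g3, g4⟩ := bO_ext h.bij.1 e1
  obtain ⟨⟨f1, f2, f3⟩, f4, f5, f6⟩ := (sbx_ext).1 (Prod.ext_iff.mp e2).1
  have c2 := ctx_near h.wJ (by omega) (by omega) (by omega) g0 gT 2
  rw [Box.mco_tfr2, Box.mco_tfr2] at c2
  have c2' : |(F.x ω (σ 2) - s ω * F.x ω (σ 1) - t ω * F.x ω (σ 0)) -
      (F.x ω' (σ 2) - s ω * F.x ω' (σ 1) - t ω * F.x ω' (σ 0))| ≤ 2 / 2 ^ (w + q + κ) := c2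
  have c0 : |F.x ω (σ 0) - F.x ω' (σ 0)| ≤ 1 / 2 ^ (w + q) := by
    rw [co0, co0] at f4
    exact Box.near_of_floor f4
  have hest := (h.est hω).1
  rw [co1, co1, ← f1] at f5
  rw [co2, co2, ← f2, ← f3] at f6
  unfold bn bA
  rw [co1, co1, co2, co2, ← f1, ← f2, ← f3, ← g3]
  obtain ⟨x0, hx0⟩ : ∃ x, x = F.x ω (σ 0) := ⟨_, rfl⟩
  obtain ⟨x1, hx1⟩ : ∃ x, x = F.x ω (σ 1) := ⟨_, rfl⟩
  obtain ⟨x2, hx2⟩ : ∃ x, x = F.x ω (σ 2) := ⟨_, rfl⟩
  obtain ⟨y0, hy0⟩ : ∃ x, x = F.x ω' (σ 0) := ⟨_, rfl⟩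
  obtain ⟨y1, hy1⟩ : ∃ x, x = F.x ω' (σ 1) := ⟨_, rfl⟩
  obtain ⟨y2, hy2⟩ : ∃ x, x = F.x ω' (σ 2) := ⟨_, rfl⟩
  rw [← hx0, ← hx1, ← hy0, ← hy1] at f5
  rw [← hx0, ← hx1, ← hx2, ← hy0, ← hy1, ← hy2] at f6 c2'
  rw [← hx0, ← hy0] at c0
  rw [← hx0, ← hx1, ← hx2, ← hy0, ← hy1, ← hy2]
  obtain ⟨α, hα⟩ : ∃ α, α = ald D al ω := ⟨_, rfl⟩
  obtain ⟨τ, hτ⟩ : ∃ τ, τ = tk (w + q) N X al kN s₀ ω := ⟨_, rfl⟩
  obtain ⟨U, hU⟩ : ∃ U, U = w + v + q := ⟨_, rfl⟩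
  rw [← hα, ← hτ] at hest
  rw [← hα, ← hU] at f5
  rw [← hτ] at f6
  rw [← hα, ← hτ, ← hU]
  have r1 : Int.fract (2 ^ U * (x1 - α * x0)) =
      Int.fract (2 ^ U * (y1 - α * y0)) + (2 ^ U * (x1 - α * x0) - 2 ^ U * (y1 - α * y0)) := by
    unfold Int.fract
    rw [f5]
    ring
  have r2 : Int.fract (2 ^ N * (x2 - s₀ ω * x1 - τ * x0)) =
      Int.fract (2 ^ N * (y2 - s₀ ω * y1 - τ * y0)) +
        (2 ^ N * (x2 - s₀ ω * x1 - τ * x0) - 2 ^ N * (y2 - s₀ ω * y1 - τ * y0)) := by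
    unfold Int.fract
    rw [f6]
    ring
  rw [r1, r2]
  obtain ⟨P1, hP1⟩ : ∃ P1 : ℝ, P1 = Int.fract (2 ^ U * (y1 - α * y0)) := ⟨_, rfl⟩
  obtain ⟨P2, hP2⟩ : ∃ P2 : ℝ, P2 = Int.fract (2 ^ N * (y2 - s₀ ω * y1 - τ * y0)) := ⟨_, rfl⟩
  rw [← hP1, ← hP2]
  have hU0 : (2 : ℝ) ^ U ≠ 0 := by positivity
  have r3 : P2 + (2 ^ N * (x2 - s₀ ω * x1 - τ * x0) - 2 ^ N * (y2 - s₀ ω * y1 - τ * y0)) -
      2 ^ N / 2 ^ U * (s ω - s₀ ω) *
        (P1 + (2 ^ U * (x1 - α * x0) - 2 ^ U * (y1 - α * y0))) -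
      (P2 - 2 ^ N / 2 ^ U * (s ω - s₀ ω) * P1) =
      2 ^ N * ((x2 - s ω * x1 - t ω * x0 - (y2 - s ω * y1 - t ω * y0)) +
        (t ω - τ + (s ω - s₀ ω) * α) * (x0 - y0)) := by
    field_simp
    ring
  rw [r3, abs_mul, abs_of_pos (by positivity : (0 : ℝ) < 2 ^ N)]
  have r4 : |(t ω - τ + (s ω - s₀ ω) * α) * (x0 - y0)| ≤
      (2 * E + 1) * (2 ^ (w + q) / 2 ^ (N + X)) * (1 / 2 ^ (w + q)) := by
    rw [abs_mul]
    exact mul_le_mul hest c0 (abs_nonneg _) (by positivity)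
  have r5 : (2 : ℝ) ^ N * (2 / 2 ^ (w + q + κ)) ≤ 2 / 2 ^ X := by
    rw [mul_div_assoc', div_le_div_iff₀ (by positivity) (by positivity)]
    have : (2 : ℝ) ^ (N + X) ≤ 2 ^ (w + q + κ) := pow_le_pow_right₀ (by norm_num) hNk
    rw [pow_add] at this
    nlinarith only [this]
  have r6 : (2 : ℝ) ^ N * ((2 * E + 1) * (2 ^ (w + q) / 2 ^ (N + X)) * (1 / 2 ^ (w + q))) =
      (2 * E + 1) / 2 ^ X := by
    rw [pow_add _ N X]
    field_simp
  have r7 := abs_add_le (x2 - s ω * x1 - t ω * x0 - (y2 - s ω * y1 - t ω * y0))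
    ((t ω - τ + (s ω - s₀ ω) * α) * (x0 - y0))
  refine (mul_le_mul_of_nonneg_left r7 (by positivity : (0 : ℝ) ≤ 2 ^ N)).trans ?_
  have r8 := mul_le_mul_of_nonneg_left c2' (by positivity : (0 : ℝ) ≤ 2 ^ N)
  have r9 := mul_le_mul_of_nonneg_left r4 (by positivity : (0 : ℝ) ≤ 2 ^ N)
  rw [r6] at r9
  have r10 : (2 * E + 3) / (2 : ℝ) ^ X = 2 / 2 ^ X + (2 * E + 1) / 2 ^ X := by ring
  rw [r10, mul_add]
  linarith only [r5, r8, r9]

/-- The constant. -/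
noncomputable def bC (E : ℝ) : ℝ :=
  2 * (3 * Real.log (4 * E + 1) + Real.log (6 * E + 3) + 3 * Real.log (48 * E + 51)) +
    6 * Real.log (6 * (E ^ 2 + 5 * E + 5) + 3) +
    Real.log (16 * (2 * E + 3) + 3) + Real.log (6 * (2 * E + 3) + 3) +
    Real.log (4 * (2 * E + 3) + 3)

theorem bC_le {E : ℝ} (hE : 1 ≤ E) : bC E ≤ 29 * Real.log E + 120 := by
  have hE0 : 0 < E := by linarith
  have hlE : 0 ≤ Real.log E := Real.log_nonneg hE
  have key : ∀ (x K : ℝ) (n : ℕ), 0 < x → 0 < K → x ≤ K * E ^ n →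
      Real.log x ≤ Real.log K + n * Real.log E := by
    intro x K n hx hK h
    calc Real.log x ≤ Real.log (K * E ^ n) := Real.log_le_log hx h
      _ = Real.log K + n * Real.log E := by
        rw [Real.log_mul hK.ne' (by positivity), Real.log_pow]
  have hE2 : E ≤ E ^ 2 := by nlinarith only [hE]
  have k0 := key (4 * E + 1) 5 1 (by linarith only [hE]) (by norm_num) (by linarith [pow_one E])
  have k1 := key (6 * E + 3) 9 1 (by linarith only [hE]) (by norm_num) (by linarith [pow_one E])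
  have k2 := key (48 * E + 51) 99 1 (by linarith only [hE]) (by norm_num) (by linarith only [hE, pow_one E])
  have k3 := key (6 * (E ^ 2 + 5 * E + 5) + 3) 69 2 (by positivity) (by norm_num) (by nlinarith only [hE, hE2])
  have k4 := key (16 * (2 * E + 3) + 3) 83 1 (by linarith only [hE]) (by norm_num) (by linarith only [hE, pow_one E])
  have k5 := key (6 * (2 * E + 3) + 3) 33 1 (by linarith only [hE]) (by norm_num) (by linarith only [hE, pow_one E])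
  have k6 := key (4 * (2 * E + 3) + 3) 23 1 (by linarith only [hE]) (by norm_num) (by linarith only [hE, pow_one E])
  have l2 : Real.log 2 ≤ 0.7 := by
    have := Real.log_two_lt_d9
    linarith only [this]
  have l128 : Real.log 128 ≤ 4.9 := by
    have : Real.log 128 = 7 * Real.log 2 := by
      rw [show (128 : ℝ) = 2 ^ 7 by norm_num, Real.log_pow]
      norm_num
    rw [this]
    linarith only [l2]
  have l : ∀ x : ℝ, 0 < x → x ≤ 128 → Real.log x ≤ 4.9 := fun x h1 h2 =>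
    (Real.log_le_log h1 h2).trans l128
  have l5 := l 5 (by norm_num) (by norm_num)
  have l9 := l 9 (by norm_num) (by norm_num)
  have l99 := l 99 (by norm_num) (by norm_num)
  have l69 := l 69 (by norm_num) (by norm_num)
  have l83 := l 83 (by norm_num) (by norm_num)
  have l33 := l 33 (by norm_num) (by norm_num)
  have l23 := l 23 (by norm_num) (by norm_num)
  unfold bC
  push_cast at k0 k1 k2 k3 k4 k5 k6
  linarith only [k3, l5, l9, l99, l69, l83, l33, l23, k0, k1, k2, k4, k5, k6]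

/-- **The contradiction at one context.** -/
theorem BDat.main (h : BDat F p σ v D a s t al kN a₀ s₀ t₀ κ X w q N B E) {ε ε₁ c e : ℝ} {g : ℕ}
    (h1 : ε₁ ≤ 1) (N' : ℕ)
    (hlow : (2 - ε) * X * Real.log 2 ≤
      CH p (F.sbx σ (w + q + X) (w + v + q + X) N' (ald D al) s t)
        (bO F σ v D a s t al κ w q N'))
    (hup : CH p (F.sbx σ (w + q + X) (w + v + q + X) (N + X) a₀ s₀ t₀)
      (fun ω => (F.sbx σ (w + q) (w + v + q) N a₀ s₀ t₀ ω, F.W ω)) ≤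
        (3 - c) * X * Real.log 2 + e)
    (hcol : Pool.KAF.Pr (dbl p (bL F σ (w + q) (w + v + q) N X D al kN a₀ s₀ t₀))
      {u | |s u.1 - s u.2| < 1 / 2 ^ (N - (w + v + q) + g)} ≤ ε₁) :
    (c - 2 * ε - ε₁) * X * Real.log 2 ≤ e + g * Real.log 2 + bC E := by
  have hp := h.law
  have h0 := hp.nonneg
  have hE := h.E1
  have hUN := h.UN
  obtain ⟨r, hr⟩ : ∃ r, r = w + q := ⟨_, rfl⟩
  obtain ⟨U, hU⟩ : ∃ U, U = w + v + q := ⟨_, rfl⟩
  obtain ⟨W, hW⟩ : ∃ W, W = bW F σ r U N X D al kN a₀ s₀ t₀ := ⟨_, rfl⟩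
  obtain ⟨O, hO⟩ : ∃ O, O = bO F σ v D a s t al κ w q N' := ⟨_, rfl⟩
  obtain ⟨A, hA⟩ : ∃ A, A = bA F σ r U N X D al kN s₀ := ⟨_, rfl⟩
  obtain ⟨n, hn⟩ : ∃ n, n = bn F σ r U N X D al kN s₀ := ⟨_, rfl⟩
  obtain ⟨y, hy⟩ : ∃ y : F.Ω → ℤ, y = fun ω => ⌊(2 : ℝ) ^ (r + X) * F.x ω (σ 0)⌋ := ⟨_, rfl⟩
  obtain ⟨sg, hsg⟩ : ∃ sg : F.Ω → ℝ, sg = fun ω => 2 ^ N / 2 ^ U * (s ω - s₀ ω) := ⟨_, rfl⟩
  have hbB : bB F σ r U N X D al kN s₀ = fun ω => (y ω, (Uni.dg X A ω, Uni.dg X n ω)) := by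
    rw [hA, hn, hy]
    rfl
  have k1 := h.low N'
  have k2 := h.up
  rw [← hr, ← hU, ← hO, ← hW, hbB] at k1
  rw [← hr, ← hU, ← hW, hbB] at k2
  rw [← hr, ← hU, ← hO] at hlow
  rw [← hr, ← hU] at hup hcol
  -- the representative
  obtain ⟨cc, hcc, hcr⟩ := exists_rep p (fun ω => (O ω, W ω)) (fun ω => n ω - sg ω * A ω)
  have hplk : ∀ ω ω', 0 < p ω → (O ω, W ω) = (O ω', W ω') →
      |(n ω - sg ω * A ω) - (n ω' - sg ω' * A ω')| ≤ (2 * E + 3) / 2 ^ X := by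
    intro ω ω' hω e
    have := h.plk N' hω (ω' := ω') (by
      rw [← hr, ← hU, ← hO, ← hW]
      exact e)
    rw [← hr, ← hU, ← hA, ← hn] at this
    rw [hsg]
    exact this
  have hdsg : Det p (fun ω => (O ω, W ω)) sg := by
    intro ω ω' hω hω' e
    obtain ⟨e1, e2⟩ := Prod.ext_iff.mp e
    have e1' : O ω = O ω' := e1
    rw [hO] at e1'
    obtain ⟨-, -, -, -, -, -, g3, g4⟩ := bO_ext h.bij.1 e1'
    have e2' : W ω = W ω' := e2
    rw [hW] at e2'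
    have g5 : s₀ ω = s₀ ω' := ((sbx_ext).1 (Prod.ext_iff.mp e2').1).1.2.1
    rw [hsg]
    show 2 ^ N / 2 ^ U * (s ω - s₀ ω) = 2 ^ N / 2 ^ U * (s ω' - s₀ ω')
    rw [g3, g5]
  have key := Pool.HPL.cord_real hp y A n sg cc O W X g (K := 2 * E + 3) (by linarith only [hE])
    (fun ω _ => by
      rw [hA]
      unfold bA
      rw [abs_of_nonneg (Int.fract_nonneg _)]
      have := Int.fract_lt_one (2 ^ U * co F σ (ald D al) s₀ (tk r N X al kN s₀) 1 ω)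
      linarith only [hE, this])
    (fun ω hω => by
      rw [hsg]
      show |2 ^ N / 2 ^ U * (s ω - s₀ ω)| ≤ _
      obtain ⟨-, f2, -⟩ := h.nat ω hω
      rw [← hU] at f2
      rw [abs_mul, abs_of_pos (by positivity : (0 : ℝ) < 2 ^ N / 2 ^ U)]
      calc (2 : ℝ) ^ N / 2 ^ U * |s ω - s₀ ω| ≤ 2 ^ N / 2 ^ U * (E * 2 ^ U / 2 ^ N) :=
            mul_le_mul_of_nonneg_left f2 (by positivity)
        _ = E := by field_simp
        _ ≤ 2 * E + 3 := by linarith only [hE])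
    (fun ω hω => by
      obtain ⟨ω', hω', e1, e2⟩ := hcr ω hω
      rw [e2]
      exact hplk ω' ω hω' e1)
    hdsg hcc
  -- the first coordinate
  have hyW : CH p y W ≤ X * Real.log 2 := by
    rw [hy]
    have := CH_digits hp (Nat.le_add_right r X) (fun ω => F.x ω (σ 0)) W (fun ω ω' _ _ e => by
      rw [hW] at e
      obtain ⟨-, f1, -, -⟩ := (sbx_ext).1 (Prod.ext_iff.mp e).1
      rw [co0, co0] at f1
      exact f1)
    refine this.trans (le_of_eq ?_)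
    push_cast
    ring
  -- the pairs
  have hbL : (fun ω => ((y ω, (Uni.dg X A ω, Uni.dg X n ω)), W ω)) =
      bL F σ r U N X D al kN a₀ s₀ t₀ := by
    funext ω
    unfold bL
    rw [hbB, hW]
  rw [hbL] at key
  have hcol' : Pool.KAF.Pr (dbl p (bL F σ r U N X D al kN a₀ s₀ t₀))
      {u | |sg u.1 - sg u.2| < 1 / 2 ^ g} ≤ ε₁ := by
    refine le_trans ?_ hcol
    rw [Pool.KAF.Pr_eq, Pool.KAF.Pr_eq]
    refine Finset.sum_le_sum fun u _ => ?_
    by_cases hu : 0 < dbl p (bL F σ r U N X D al kN a₀ s₀ t₀) u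
    · by_cases hm : u ∈ {u : F.Ω × F.Ω | |sg u.1 - sg u.2| < 1 / 2 ^ g}
      · rw [if_pos hm, if_pos]
        have e1 := dbl_eq h0 hu
        have e2 : bW F σ r U N X D al kN a₀ s₀ t₀ u.1 = bW F σ r U N X D al kN a₀ s₀ t₀ u.2 :=
          (Prod.ext_iff.mp e1).2
        have e3 : s₀ u.1 = s₀ u.2 :=
          ((sbx_ext).1 (Prod.ext_iff.mp e2).1).1.2.1
        have hm' : |sg u.1 - sg u.2| < 1 / 2 ^ g := hm
        rw [hsg] at hm'
        have e4 : (fun ω => 2 ^ N / 2 ^ U * (s ω - s₀ ω)) u.1 -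
            (fun ω => 2 ^ N / 2 ^ U * (s ω - s₀ ω)) u.2 = 2 ^ N / 2 ^ U * (s u.1 - s u.2) := by
          show 2 ^ N / 2 ^ U * (s u.1 - s₀ u.1) - 2 ^ N / 2 ^ U * (s u.2 - s₀ u.2) = _
          rw [e3]
          ring
        rw [e4, abs_mul, abs_of_pos (by positivity : (0 : ℝ) < 2 ^ N / 2 ^ U)] at hm'
        show |s u.1 - s u.2| < 1 / 2 ^ (N - U + g)
        have e5 : (2 : ℝ) ^ N / 2 ^ U = 2 ^ (N - U) := by
          have : N = U + (N - U) := by omega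
          rw [div_eq_iff (by positivity), ← pow_add]
          congr 1
          omega
        rw [e5] at hm'
        rw [lt_div_iff₀ (by positivity), pow_add]
        rw [lt_div_iff₀ (by positivity)] at hm'
        linarith only [hm']
      · rw [if_neg hm]
        split_ifs
        · exact hu.le
        · exact le_rfl
    · have hz : dbl p (bL F σ r U N X D al kN a₀ s₀ t₀) u = 0 :=
        le_antisymm (not_lt.1 hu) (dbl_nonneg h0 u)
      rw [hz]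
      split_ifs <;> exact le_rfl
  -- logarithms
  have hl2 : 0 < Real.log 2 := Real.log_pos (by norm_num)
  have lg : ∀ (K : ℝ) (m : ℕ), 0 ≤ K →
      Real.log (K * 2 ^ m + 3) ≤ m * Real.log 2 + Real.log (K + 3) := by
    intro K m hK
    have h2 : (1 : ℝ) ≤ 2 ^ m := one_le_pow₀ (by norm_num)
    calc Real.log (K * 2 ^ m + 3) ≤ Real.log (2 ^ m * (K + 3)) :=
          Real.log_le_log (by positivity) (by nlinarith only [h2])
      _ = m * Real.log 2 + Real.log (K + 3) := by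
        rw [Real.log_mul (by positivity) (by positivity), Real.log_pow]
  have l1 := lg (16 * (2 * E + 3)) g (by linarith only [hE])
  have l2 := lg (4 * (2 * E + 3)) X (by linarith only [hE])
  have l3 : 0 ≤ Real.log (4 * (2 * E + 3) + 3) := Real.log_nonneg (by linarith only [hE])
  obtain ⟨Q, hQ⟩ : ∃ Q, Q = Pool.KAF.Pr (dbl p (bL F σ r U N X D al kN a₀ s₀ t₀))
      {u | |sg u.1 - sg u.2| < 1 / 2 ^ g} := ⟨_, rfl⟩
  rw [← hQ] at key hcol'
  have hQ0 : 0 ≤ Q := by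
    rw [hQ, Pool.KAF.Pr_eq]
    refine Finset.sum_nonneg fun u _ => ?_
    split_ifs
    · exact dbl_nonneg h0 u
    · exact le_rfl
  have hXl : 0 ≤ (X : ℝ) * Real.log 2 := by positivity
  have m1 : Q * Real.log (4 * (2 * E + 3) * 2 ^ X + 3) ≤
      ε₁ * (X * Real.log 2) + Real.log (4 * (2 * E + 3) + 3) := by
    calc Q * Real.log (4 * (2 * E + 3) * 2 ^ X + 3) ≤
          Q * (X * Real.log 2 + Real.log (4 * (2 * E + 3) + 3)) :=
          mul_le_mul_of_nonneg_left l2 hQ0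
      _ = Q * (X * Real.log 2) + Q * Real.log (4 * (2 * E + 3) + 3) := by ring
      _ ≤ ε₁ * (X * Real.log 2) + 1 * Real.log (4 * (2 * E + 3) + 3) :=
          add_le_add (mul_le_mul_of_nonneg_right hcol' hXl)
            (mul_le_mul_of_nonneg_right (hcol'.trans h1) l3)
      _ = _ := by ring
  unfold bC
  have fin : (c - 2 * ε - ε₁) * X * Real.log 2 = c * X * Real.log 2 -
      2 * (ε * X * Real.log 2) - ε₁ * (X * Real.log 2) := by ring
  have f2 : (2 - ε) * X * Real.log 2 = 2 * (X * Real.log 2) - ε * X * Real.log 2 := by ring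
  have f3 : (3 - c) * X * Real.log 2 = 3 * (X * Real.log 2) - c * X * Real.log 2 := by ring
  rw [fin]
  rw [f2] at hlow
  rw [f3] at hup
  linarith only [hup, hlow, k1, k2, hyW, l1, key, m1]

end bone

end Pool.S6B
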