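import Pool.Agent.H72.S6B.Bone
import Pool.Agent.H72.S6B.Stm2
import Pool.Agent.H91.S6B.Fri
import Pool.Agent.H23.S6E.Ld2

/-!
# (beta): the data at one context
-/

set_option autoImplicit false

namespace Pool.S6B

open Finset Real
open Pool.Agent.H49.Ent Pool.Agent.H32.Dense Pool.STK Pool.KA Pool.KA.Win Pool.KA.TRC
  Pool.KSAT Pool.K2S Pool.K2S.Rows Pool.K2S.FF Pool.PB Pool.KS6 Pool.S6K.Wfe Pool.UST Pool.S6U
  Pool.S6C Pool.Sel51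

/-- The claim of `UpStmt`, one family. -/
def UpC {J : ℕ} (F : Fam 3 J) (A : F.Ω → Prop) (i₀ : Fin 3) (rot th : ℚ → ℝ)
    (P g c ε ε₀ X : ℝ) (w : ℚ) : Prop :=
  ∀ sg : Fin 3 → Fin 3, Function.Bijective sg → sg 0 = i₀ →
    ∀ z : F.Ω → Pln, NL F A sg ⌊(w : ℝ) * J⌋₊ ⌊(rot w - ε₀ * X) * J⌋₊
      ⌊(th w - ε₀ * X) * J⌋₊ z →
    ∀ (a s t : F.Ω → ℝ) (E : ℝ), (∀ ω ω', A ω → A ω' → z ω = z ω' →
      a ω = a ω' ∧ s ω = s ω' ∧ t ω = t ω') → (∀ ω, A ω → |a ω| ≤ 8 ∧ |s ω| ≤ 8 ∧ |t ω| ≤ 8) →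
    1 ≤ E → Real.log E ≤ ε₀ * X * J → Fcl F A w ((w : ℝ) + rot w) (th w) E z a s t →
    ∀ (r U N Y : ℕ) (q : ℝ), |q - (P - g)| ≤ X → |q + Y / J - (P - g)| ≤ X →
      ((w : ℝ) + q) * J ≤ r → ((w : ℝ) + rot w + q) * J ≤ U →
      (N : ℝ) ≤ (th w + q) * J → r ≤ N → U ≤ N →
      |(N : ℝ) - P * J| ≤ X * J → |((N + Y : ℕ) : ℝ) - P * J| ≤ X * J →
      CH (Pool.Agent.H49.Ent.cond F.p A True) (F.sbx sg (r + Y) (U + Y) (N + Y) a s t)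
        (fun ω => (F.sbx sg r U N a s t ω, F.W ω)) ≤
      (3 - c) * Y * Real.log 2 + ε * X * J

/-- The statement `UpStmt` in terms of `UpC`. -/
theorem UpStmt.app (h : UpStmt) {S : PCl 3} {a R h₁ : ℝ} {i₀ : Fin 3} {c s₂ : ℝ} {r : ℝ → ℝ}
    {D : Set ℝ} {σ : ℝ → Row} (hC : Cs S a R h₁ i₀ c s₂ r D σ) {act : ℚ → ℝ} {K : Set ℝ}
    {W : ℝ → ℝ} {v₁ t : ℚ} {e₁ Q₀ P g v₀ v ρ a₀ α : ℝ}
    (hL : Loc S i₀ c s₂ r D σ act K W v₁ t e₁ Q₀ P g v₀ v ρ a₀ α) {ε : ℝ} (hε : 0 < ε) :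
    ∃ ε₀ X₀ : ℝ, 0 < ε₀ ∧ 0 < X₀ ∧ ∀ X : ℝ, 0 < X → X ≤ X₀ → ∀ w : ℚ, |(w : ℝ) - W g| ≤ X →
      Clp S (fun _ F A => UpC F A i₀ (σ 1).rot (σ 1).th P g c ε ε₀ X w) :=
  h S a R h₁ i₀ c s₂ r D σ hC act K W v₁ t e₁ Q₀ P g v₀ v ρ a₀ α hL ε hε

/-- The claim of `ColStmt`, one family; `κ` lower bound of the precision of the labels. -/
def ColC {J : ℕ} (F : Fam 3 J) (A : F.Ω → Prop) (i₀ : Fin 3) (w : ℚ) (G ρ₀ h B C K₀ ε : ℝ) :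
    Prop :=
  IsLaw (Pool.Agent.H49.Ent.cond F.p A True) →
  ∀ (sg : Fin 3 → Fin 3) (wl wa wb : ℕ) (vp : ℕ → ℕ) (kap Hu HN : ℕ)
    (al nu kN nN : (Fin 3 → ℤ) × (ℕ × F.ζ) → ℝ) (a : ℕ → F.Ω → ℝ) (s t : F.Ω → ℝ),
    UFi F A sg wl wa wb vp kap Hu HN al nu kN nN a s t B C → sg 0 = i₀ →
    (∀ ω, A ω → |al (Fam.pt F ω)| ≤ 2 ∧ |kN (Fam.pt F ω)| ≤ 2) →
    wa ≤ ⌊(w : ℝ) * J⌋₊ → ⌊(w : ℝ) * J⌋₊ ≤ wb →
    (ρ₀ - h / 4) * J ≤ vp ⌊(w : ℝ) * J⌋₊ → (ρ₀ - h / 4) * J ≤ Hu →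
    (G - w + h) * J ≤ kap → (G - w + h) * J ≤ HN →
    ∀ (V : Type) (Lb : F.Ω → V) (m : ℕ),
      CH (Pool.Agent.H49.Ent.cond F.p A True) Lb (Fam.pt F) ≤ K₀ →
      (G - w - ρ₀ + h) * J ≤ m →
      Pool.KAF.Pr (dbl (Pool.Agent.H49.Ent.cond F.p A True) Lb)
        {x | |s x.1 - s x.2| < 1 / 2 ^ m} ≤ ε

theorem ColStmt.app (H : ColStmt) {S : PCl 3} {i₀ : Fin 3} {w : ℚ} {G ρ₀ : ℝ}
    (hG : PNum S (capS 1 (qTh i₀ 1 w)) G) (hw : 0 ≤ w) (hwG : (w : ℝ) + ρ₀ ≤ G) {h : ℝ}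
    (hh : 0 < h) (hGh : G + h ≤ 1) (hρ : 0 ≤ ρ₀) (B C K₀ : ℝ) {ε : ℝ} (hε : 0 < ε) :
    Clp S (fun _ F A => ColC F A i₀ w G ρ₀ h B C K₀ ε) :=
  H S i₀ w G ρ₀ hG hw hwG h hh hGh hρ B C K₀ ε hε

/-- The claim of `UePStmt`, one family. -/
def UeC {J : ℕ} (F : Fam 3 J) (A : F.Ω → Prop) (i₀ : Fin 3)
    (w₀ v₀ v q₀ L M cw κ e₂ e₃ γ x₁ B C ε ρ : ℝ) (n : ℕ) : Prop :=
  ∀ (σ : Fin 3 → Fin 3) (wl wa wb : ℕ) (vp : ℕ → ℕ) (kap Hu HN : ℕ)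
    (al nu kN nN : (Fin 3 → ℤ) × (ℕ × F.ζ) → ℝ) (a : ℕ → F.Ω → ℝ) (s t : F.Ω → ℝ),
    UFi F A σ wl wa wb vp kap Hu HN al nu kN nN a s t B C → σ 0 = i₀ →
  ∀ qa qb d D : ℕ, UeN J w₀ v₀ v q₀ L M cw κ e₂ γ x₁ n wa wb vp kap Hu HN qa qb d D →
  fri F (Pool.Agent.H49.Ent.cond F.p A True) σ s t qa (qb + n * d) ≤ e₃ * L * J →
  ∃ Bd : Finset (ℕ × ℕ), (Bd.card : ℝ) ≤ ρ * ((wb + 1 - wa : ℕ) * (qb - qa : ℕ)) ∧
    ∀ w q, wa ≤ w → w ≤ wb → qa ≤ q → q < qb → (w, q) ∉ Bd →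
      UcP F (Pool.Agent.H49.Ent.cond F.p A True) σ vp D a s t (fun ω => al (Fam.pt F ω)) kap
        (n * d) w q ε

/-- There is a good context. -/
theorem UeC.good {J : ℕ} {F : Fam 3 J} {A : F.Ω → Prop} {i₀ : Fin 3}
    {w₀ v₀ v q₀ L M cw κ e₂ e₃ γ x₁ B C ε : ℝ} {n : ℕ}
    (h : UeC F A i₀ w₀ v₀ v q₀ L M cw κ e₂ e₃ γ x₁ B C ε (1 / 2) n) {σ : Fin 3 → Fin 3}
    {wl wa wb : ℕ} {vp : ℕ → ℕ} {kap Hu HN : ℕ}
    {al nu kN nN : (Fin 3 → ℤ) × (ℕ × F.ζ) → ℝ} {a : ℕ → F.Ω → ℝ} {s t : F.Ω → ℝ}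
    (hU : UFi F A σ wl wa wb vp kap Hu HN al nu kN nN a s t B C) (h0 : σ 0 = i₀)
    {qa qb d D : ℕ} (hN : UeN J w₀ v₀ v q₀ L M cw κ e₂ γ x₁ n wa wb vp kap Hu HN qa qb d D)
    (hf : fri F (Pool.Agent.H49.Ent.cond F.p A True) σ s t qa (qb + n * d) ≤ e₃ * L * J)
    (hw : wa ≤ wb) (hq : qa < qb) :
    ∃ w q, wa ≤ w ∧ w ≤ wb ∧ qa ≤ q ∧ q < qb ∧
      UcP F (Pool.Agent.H49.Ent.cond F.p A True) σ vp D a s t (fun ω => al (Fam.pt F ω)) kap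
        (n * d) w q ε := by
  classical
  obtain ⟨Bd, hB, hc⟩ := h σ wl wa wb vp kap Hu HN al nu kN nN a s t hU h0 qa qb d D hN hf
  by_contra hcon
  push Not at hcon
  have hsub : Finset.Icc wa wb ×ˢ Finset.Ico qa qb ⊆ Bd := by
    intro x hx
    obtain ⟨h1, h2⟩ := Finset.mem_product.1 hx
    rw [Finset.mem_Icc] at h1
    rw [Finset.mem_Ico] at h2
    by_contra hx'
    exact hcon x.1 x.2 h1.1 h1.2 h2.1 h2.2 (hc x.1 x.2 h1.1 h1.2 h2.1 h2.2 hx')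
  have hcard := Finset.card_le_card hsub
  rw [Finset.card_product, Nat.card_Icc, Nat.card_Ico] at hcard
  have h1 : (((wb + 1 - wa) * (qb - qa) : ℕ) : ℝ) ≤ Bd.card := by exact_mod_cast hcard
  have h2 : (1 : ℝ) ≤ ((wb + 1 - wa : ℕ) : ℝ) := by
    have : 1 ≤ wb + 1 - wa := by omega
    exact_mod_cast this
  have h3 : (1 : ℝ) ≤ ((qb - qa : ℕ) : ℝ) := by
    have : 1 ≤ qb - qa := by omega
    exact_mod_cast this
  push_cast at h1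
  nlinarith only [hB, h2, h1, h3]

theorem UePStmt.app {V : Set ℝ} (h : UePStmt V) {ε ρ α : ℝ} (hε : 0 < ε) (hρ : 0 < ρ)
    (hα : 0 < α) : ∃ (n : ℕ) (γ x₁ : ℝ), 1 ≤ n ∧ 0 < γ ∧ γ ≤ 1 ∧ 0 < x₁ ∧
    ∀ v ∈ V, ∀ cw : ℝ, 0 < cw → ∃ κ₀ : ℝ, 0 < κ₀ ∧ ∀ κ : ℝ, 0 < κ → κ ≤ κ₀ →
    ∃ e₂ e₃ : ℝ, 0 < e₂ ∧ 0 < e₃ ∧ ∀ M : ℝ, 0 < M →
    ∀ (S : PCl 3) (a₁ R : ℝ) (i₀ : Fin 3) (rt act : ℚ → ℝ) (w₀ v₀ q₀ a₀ : ℝ),
      UCs S a₁ R i₀ rt act w₀ v₀ v q₀ a₀ α →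
    ∃ L₀ : ℝ, 0 < L₀ ∧ ∀ L B C : ℝ, 0 < L → L ≤ L₀ → Clp S (fun _ F A =>
      UeC F A i₀ w₀ v₀ v q₀ L M cw κ e₂ e₃ γ x₁ B C ε ρ n) :=
  h ε ρ α hε hρ hα

/-- The constants of the class. -/
theorem ucs_of {S : PCl 3} {a R h₁ : ℝ} {i₀ : Fin 3} {c s₂ : ℝ} {r : ℝ → ℝ}
    {D : Set ℝ} {σ : ℝ → Row} (hC : Cs S a R h₁ i₀ c s₂ r D σ) {act : ℚ → ℝ} {K : Set ℝ}
    {W : ℝ → ℝ} {v₁ t : ℚ} {e₁ Q₀ P g v₀ v ρ a₀ α : ℝ}
    (hL : Loc S i₀ c s₂ r D σ act K W v₁ t e₁ Q₀ P g v₀ v ρ a₀ α) (hv : v₀ < 1) :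
    UCs S a R i₀ (σ 1).rot act (W g) v₀ v (P - g) a₀ α := by
  have hrow := hC.row 1 one_pos le_rfl hC.D1
  have h1 := hL.adm.ab g hL.thk
  have h2 : (v₁ : ℝ) < 1 := by exact_mod_cast hL.adm.v1
  have h3 := (hL.pr P hL.row).lt1
  have h4 := (hL.pr g hL.thk).half
  exact ⟨hC.st, hrow.rot, fun w h0 h1 => hC.rot_nn h0 h1, hL.actN, hL.amono, hL.w0,
    by linarith only [h1, h2], hv, by linarith only [hL, hL.gP], by linarith, hL.rot, hL.aslp⟩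

/-! ### The data -/

section ctx

variable {J : ℕ} {F : Fam 3 J} {A : F.Ω → Prop} {i₀ : Fin 3} {rot th : ℚ → ℝ}
  {w₀ v₀ v R₀ qm L e : ℝ} {wq : ℚ} {Nm : ℕ} {u : ℕ → ℚ} {sg : Fin 3 → Fin 3} {wa wb : ℕ}
  {vp : ℕ → ℕ} {kap Hu HN : ℕ} {al nu kN nN : (Fin 3 → ℤ) × (ℕ × F.ζ) → ℝ}
  {a : ℕ → F.Ω → ℝ} {s t : F.Ω → ℝ} {z : ℕ → F.Ω → Pln} {B C E : ℝ}

/-- The bounds of the rounded natural frame. -/
theorem nf_bd {w lam P : ℕ} {z : F.Ω → Pln} (h : NL F A sg w lam P z) {ω : F.Ω} (hω : A ω)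
    (v hs ht : ℕ) : |rnd v (fra z ω)| ≤ 8 ∧ |rdS hs (frs z) ω| ≤ 8 ∧
      |rdT hs ht (frs z) (frt z) (fra z) ω| ≤ 8 := by
  have k := h.inc ω hω
  have p1 : ∀ m : ℕ, (1 : ℝ) / 2 ^ m ≤ 1 := fun m => by
    rw [div_le_one (by positivity)]
    exact one_le_pow₀ (by norm_num)
  have e1 : |fra z ω| ≤ 2 := k.e_le
  have e2 : |frs z ω| ≤ 4 := by
    unfold frs
    rw [abs_neg]
    exact k.s_le
  have e3 : |frt z ω| ≤ 4 := by
    unfold frt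
    rw [abs_neg]
    exact k.c_le
  have g1 := (rnd_near v (fra z ω)).trans (p1 v)
  have g2 := (rnd_near hs (frs z ω)).trans (p1 hs)
  have g3 := (rnd_near ht (frt z ω + (frs z ω - rnd hs (frs z ω)) * fra z ω)).trans (p1 ht)
  have g4 : |(frs z ω - rnd hs (frs z ω)) * fra z ω| ≤ 1 * 2 := by
    rw [abs_mul]
    exact mul_le_mul g2 e1 (abs_nonneg _) zero_le_one
  unfold rdS rdT
  obtain ⟨a1, a2⟩ := abs_le.1 e1
  obtain ⟨b1, b2⟩ := abs_le.1 e2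
  obtain ⟨c1, c2⟩ := abs_le.1 e3
  obtain ⟨d1, d2⟩ := abs_le.1 g1
  obtain ⟨f1, f2⟩ := abs_le.1 g2
  obtain ⟨i1, i2⟩ := abs_le.1 g3
  obtain ⟨j1, j2⟩ := abs_le.1 g4
  refine ⟨abs_le.2 ⟨by linarith only [a1, d2], by linarith only [a2, d1]⟩, abs_le.2 ⟨by linarith, by linarith⟩,
    abs_le.2 ⟨by linarith, by linarith⟩⟩

/-- The rounded natural frame and the natural frame. -/
theorem nf_near {z : F.Ω → Pln} (ω : F.Ω) (v hs ht : ℕ) :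
    |rnd v (fra z ω) - fra z ω| ≤ 1 / 2 ^ v ∧ |rdS hs (frs z) ω - frs z ω| ≤ 1 / 2 ^ hs ∧
      |(rdT hs ht (frs z) (frt z) (fra z) ω - frt z ω) +
        (rdS hs (frs z) ω - frs z ω) * fra z ω| ≤ 1 / 2 ^ ht := by
  have g1 := rnd_near v (fra z ω)
  have g2 := rnd_near hs (frs z ω)
  have g3 := rnd_near ht (frt z ω + (frs z ω - rnd hs (frs z ω)) * fra z ω)
  rw [abs_sub_comm] at g1 g2 g3
  refine ⟨g1, g2, ?_⟩
  unfold rdS rdT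
  have e : rnd ht (frt z ω + (frs z ω - rnd hs (frs z ω)) * fra z ω) - frt z ω +
      (rnd hs (frs z ω) - frs z ω) * fra z ω =
      rnd ht (frt z ω + (frs z ω - rnd hs (frs z ω)) * fra z ω) -
        (frt z ω + (frs z ω - rnd hs (frs z ω)) * fra z ω) := by ring
  rw [e]
  exact g3

/-- **The data at one context**, from the frames. -/
theorem BFr.bdat (hB : BFr F A i₀ rot th w₀ v₀ v R₀ qm L e wq Nm u sg wa wb vp kap Hu HN al nu kN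
    nN a s t z B C E) (hlaw : IsLaw (Pool.Agent.H49.Ent.cond F.p A True)) {j : ℕ} (hj : j < Nm)
    {w q X D hs : ℕ} (h1 : wa ≤ w) (h2 : w ≤ wb)
    (hcls : ∀ ω, A ω → |a w ω - fra (z j) ω| ≤ E / 2 ^ vp w ∧
      |s ω - frs (z j) ω| ≤ E / 2 ^ hs ∧
      |(t ω - frt (z j) ω) + (s ω - frs (z j) ω) * fra (z j) ω| ≤ E / 2 ^ (vp w + hs))
    (hk : vp w + hs + X ≤ kap) (hJ : w + vp w + q + hs + X ≤ J) (hD : vp wb + X ≤ D) :
    BDat F (Pool.Agent.H49.Ent.cond F.p A True) sg (vp w) D (a w) s t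
      (fun ω => al (Fam.pt F ω)) (fun ω => kN (Fam.pt F ω))
      (fun ω => rnd (vp w) (fra (z j) ω)) (rdS hs (frs (z j)))
      (rdT hs (vp w + hs) (frs (z j)) (frt (z j)) (fra (z j))) kap X w q
      (w + vp w + q + hs) 8 (2 * E + 2 + C) := by
  have hfr := hB.fr
  have hE := hB.E1
  have hC := hfr.C1
  have hmem : ∀ ω, 0 < Pool.Agent.H49.Ent.cond F.p A True ω → A ω := fun ω h => ldm_mem h
  have hnl := hB.nl j hj
  have hmono : vp w ≤ vp wb := hfr.mono w wb h1 h2 le_rfl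
  have dm : ∀ {x y : ℝ} (m : ℕ), x ≤ y → x / (2 : ℝ) ^ m ≤ y / 2 ^ m := fun m h =>
    div_le_div_of_nonneg_right h (by positivity)
  have eU : w + vp w + q + hs - (w + vp w + q) = hs := by omega
  have er : w + vp w + q + hs - (w + q) = vp w + hs := by omega
  refine ⟨hlaw, hfr.bij, by norm_num, by linarith only [hE, hC], (h2.trans hfr.wJ), by omega, by omega, hJ,
    by omega, fun ω hω => hfr.near w h1 h2 ω (hmem ω hω), fun ω hω =>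
      (hfr.clo ω (hmem ω hω)).trans (dm _ (by linarith only [hE])), fun ω hω => ?_, fun ω hω =>
      nf_bd hnl (hmem ω hω) _ _ _, fun ω hω => ?_, fun ω => ⟨rnd_int _ _, ?_, ?_⟩,
      fun ω ω' hω hω' he => ⟨⟨by simp only [he], by simp only [he]⟩, ?_⟩⟩
  · obtain ⟨k1, k2⟩ := hB.bk ω (hmem ω hω)
    exact ⟨k1.trans (by norm_num), k2.trans (by norm_num)⟩
  · obtain ⟨c1, c2, c3⟩ := hcls ω (hmem ω hω)
    obtain ⟨n1, n2, n3⟩ := nf_near (z := z j) ω (vp w) hs (vp w + hs)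
    obtain ⟨a₀, ha₀⟩ : ∃ a₀, a₀ = rnd (vp w) (fra (z j) ω) := ⟨_, rfl⟩
    obtain ⟨s₀, hs₀⟩ : ∃ s₀, s₀ = rdS hs (frs (z j)) ω := ⟨_, rfl⟩
    obtain ⟨t₀, ht₀⟩ : ∃ t₀, t₀ = rdT hs (vp w + hs) (frs (z j)) (frt (z j)) (fra (z j)) ω :=
      ⟨_, rfl⟩
    rw [← ha₀] at n1
    rw [← hs₀] at n2 n3
    rw [← ht₀] at n3
    show Fnr _ _ _ _ (rnd (vp w) (fra (z j) ω)) _ _ _ _ _
    rw [← ha₀, ← hs₀, ← ht₀]
    have f1 : ∀ D₀ : ℝ, D₀ * 2 ^ (w + q) / 2 ^ (w + vp w + q) = D₀ / 2 ^ vp w := by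
      intro D₀
      have : (2 : ℝ) ^ (w + vp w + q) = 2 ^ (w + q) * 2 ^ vp w := by
        rw [← pow_add]
        congr 1
        omega
      rw [this]
      field_simp
    have f2 : ∀ D₀ : ℝ, D₀ * 2 ^ (w + vp w + q) / 2 ^ (w + vp w + q + hs) = D₀ / 2 ^ hs := by
      intro D₀
      have : (2 : ℝ) ^ (w + vp w + q + hs) = 2 ^ (w + vp w + q) * 2 ^ hs := by
        rw [← pow_add]
      rw [this]
      field_simp
    have f3 : ∀ D₀ : ℝ, D₀ * 2 ^ (w + q) / 2 ^ (w + vp w + q + hs) = D₀ / 2 ^ (vp w + hs) := by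
      intro D₀
      have : (2 : ℝ) ^ (w + vp w + q + hs) = 2 ^ (w + q) * 2 ^ (vp w + hs) := by
        rw [← pow_add]
        congr 1
        omega
      rw [this]
      field_simp
    have k2 : |s ω - s₀| ≤ (E + 1) / 2 ^ hs := by
      have e1 : s ω - s₀ = (s ω - frs (z j) ω) - (s₀ - frs (z j) ω) := by ring
      rw [e1, add_div]
      exact (abs_sub _ _).trans (add_le_add c2 n2)
    refine ⟨?_, ?_, ?_⟩
    · rw [f1]
      have e1 : a w ω - a₀ = (a w ω - fra (z j) ω) - (a₀ - fra (z j) ω) := by ring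
      rw [e1]
      refine ((abs_sub _ _).trans (add_le_add c1 n1)).trans ?_
      rw [← add_div]
      exact dm _ (by linarith only [hE, hC])
    · rw [f2]
      exact k2.trans (dm _ (by linarith only [hE, hC]))
    · rw [f3]
      have e1 : (t ω - t₀) + (s ω - s₀) * a₀ =
          ((t ω - frt (z j) ω) + (s ω - frs (z j) ω) * fra (z j) ω) -
          ((t₀ - frt (z j) ω) + (s₀ - frs (z j) ω) * fra (z j) ω) +
          (s ω - s₀) * (a₀ - fra (z j) ω) := by ring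
      have k3 : |(s ω - s₀) * (a₀ - fra (z j) ω)| ≤ (E + 1) / 2 ^ (vp w + hs) := by
        rw [abs_mul]
        calc |s ω - s₀| * |a₀ - fra (z j) ω| ≤ (E + 1) / 2 ^ hs * (1 / 2 ^ vp w) :=
              mul_le_mul k2 n1 (abs_nonneg _) (by positivity)
          _ = (E + 1) / 2 ^ (vp w + hs) := by
            rw [div_mul_div_comm, mul_one, ← pow_add, Nat.add_comm]
      rw [e1]
      refine ((abs_add_le _ _).trans (add_le_add ((abs_sub _ _).trans (add_le_add c3 n3))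
        k3)).trans ?_
      rw [← add_div, ← add_div]
      exact dm _ (by linarith only [hC])
  · rw [eU]
    exact rdS_int _ _ _
  · rw [er]
    exact rdT_int _ _ _ _ _ _
  · have hz : z j ω = z j ω' := hnl.vis ω ω' (hmem ω hω) (hmem ω' hω') he
    unfold rdS rdT fra frs frt
    simp only [hz, and_self]

/-- Powers. -/
theorem pw_cmp {m b x k : ℕ} (h : k ≤ m + b + x) :
    (1 : ℝ) / 2 ^ m ≤ 2 ^ b * 2 ^ x / 2 ^ k := by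
  rw [div_le_div_iff₀ (by positivity) (by positivity), one_mul, ← pow_add, ← pow_add]
  exact pow_le_pow_right₀ (by norm_num) (by omega)

/-- **The bound of the block**, from `UpStmt`. -/
theorem BFr.up (hB : BFr F A i₀ rot th w₀ v₀ v R₀ qm L e wq Nm u sg wa wb vp kap Hu HN al nu kN
    nN a s t z B C E) {j : ℕ} (hj : j < Nm) {P g c εu ε₀ Xu : ℝ}
    (hup : UpC F A i₀ rot th P g c εu ε₀ Xu (u j)) {w q X hs dl : ℕ}
    (hhs : hs = ⌊(th (u j) - u j - rot (u j)) * J⌋₊) (hx1 : (vp w : ℝ) ≤ rot (u j) * J)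
    (hu0 : 0 ≤ u j) (hth0 : 0 ≤ th (u j) - u j - rot (u j)) (he1 : e * L ≤ ε₀ * Xu)
    (hdl : rot (u j) * J ≤ vp w + dl) (hdl' : ((dl + 3 : ℕ) : ℝ) * Real.log 2 ≤ ε₀ * Xu * J)
    {q' : ℝ} (hq' : ((u j : ℝ) + rot (u j) + q') * J = w + vp w + q)
    (hq1 : |q' - (P - g)| ≤ Xu) (hq2 : |q' + X / J - (P - g)| ≤ Xu)
    (hN1 : |((w + vp w + q + hs : ℕ) : ℝ) - P * J| ≤ Xu * J)
    (hN2 : |((w + vp w + q + hs + X : ℕ) : ℝ) - P * J| ≤ Xu * J) :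
    CH (Pool.Agent.H49.Ent.cond F.p A True) (F.sbx sg (w + q + X) (w + vp w + q + X)
      (w + vp w + q + hs + X) (fun ω => rnd (vp w) (fra (z j) ω)) (rdS hs (frs (z j)))
      (rdT hs (vp w + hs) (frs (z j)) (frt (z j)) (fra (z j))))
      (fun ω => (F.sbx sg (w + q) (w + vp w + q) (w + vp w + q + hs)
        (fun ω => rnd (vp w) (fra (z j) ω)) (rdS hs (frs (z j)))
        (rdT hs (vp w + hs) (frs (z j)) (frt (z j)) (fra (z j))) ω, F.W ω)) ≤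
      (3 - c) * X * Real.log 2 + εu * Xu * J := by
  have hJ0 : (0 : ℝ) ≤ J := Nat.cast_nonneg J
  have hnl := hB.nl j hj
  have hu0' : (0 : ℝ) ≤ u j := by exact_mod_cast hu0
  have hr0 : 0 ≤ rot (u j) * J := (Nat.cast_nonneg _).trans hx1
  have hs1 : (hs : ℝ) ≤ (th (u j) - u j - rot (u j)) * J := by
    rw [hhs]
    exact Nat.floor_le (mul_nonneg hth0 hJ0)
  have hs2 : (th (u j) - u j - rot (u j)) * J < hs + 1 := by
    rw [hhs]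
    exact Nat.lt_floor_add_one _
  have hnl' : NL F A sg ⌊(u j : ℝ) * J⌋₊ ⌊(rot (u j) - ε₀ * Xu) * J⌋₊
      ⌊(th (u j) - ε₀ * Xu) * J⌋₊ (z j) :=
    hnl.mono (Nat.floor_le_floor (mul_le_mul_of_nonneg_right (by linarith only [he1]) hJ0))
      (Nat.floor_le_floor (mul_le_mul_of_nonneg_right (by linarith only [he1]) hJ0))
  have a1 : (u j : ℝ) * J < ⌊(u j : ℝ) * J⌋₊ + 1 := Nat.lt_floor_add_one _
  have a2 : ((u j : ℝ) + rot (u j)) * J < ⌊((u j : ℝ) + rot (u j)) * J⌋₊ + 1 :=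
    Nat.lt_floor_add_one _
  have a3 : (⌊((u j : ℝ) + rot (u j)) * J⌋₊ : ℝ) ≤ ((u j : ℝ) + rot (u j)) * J :=
    Nat.floor_le (by
      have := mul_nonneg hu0' hJ0
      rw [add_mul]
      linarith only [hx1, this])
  have a4 : (⌊th (u j) * J⌋₊ : ℝ) ≤ th (u j) * J :=
    Nat.floor_le (by
      have := mul_nonneg hu0' hJ0
      have h2 := mul_nonneg hth0 hJ0
      have e1 : th (u j) * J = (th (u j) - u j - rot (u j)) * J + u j * J + rot (u j) * J := by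
        ring
      rw [e1]
      linarith only [hs1, a3])
  refine hup sg hB.fr.bij hB.s0 (z j) hnl' _ _ _ ((2 : ℝ) ^ (dl + 3)) ?_
    (fun ω hω => nf_bd hnl hω _ _ _) (one_le_pow₀ (by norm_num)) (by
      rw [Real.log_pow]
      exact hdl') ?_ (w + q) (w + vp w + q) (w + vp w + q + hs) X q' hq1 hq2 ?_ ?_ ?_
    (by omega) (by omega) hN1 hN2
  · intro ω ω' _ _ he
    unfold rdS rdT fra frs frt
    simp only [he, and_self]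
  · intro ω _
    obtain ⟨n1, n2, n3⟩ := nf_near (z := z j) ω (vp w) hs (vp w + hs)
    refine ⟨n1.trans (pw_cmp ?_), n2.trans (pw_cmp ?_), n3.trans (pw_cmp ?_)⟩
    · have : (⌊((u j : ℝ) + rot (u j)) * J⌋₊ : ℝ) <
          ((vp w + (dl + 3) + ⌊(u j : ℝ) * J⌋₊ : ℕ) : ℝ) := by
        push_cast
        have e1 : ((u j : ℝ) + rot (u j)) * J = (u j : ℝ) * J + rot (u j) * J := by ring
        linarith only [hdl, a1, a3]
      exact_mod_cast this.le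
    · have : (⌊th (u j) * J⌋₊ : ℝ) <
          ((hs + (dl + 3) + ⌊((u j : ℝ) + rot (u j)) * J⌋₊ : ℕ) : ℝ) := by
        push_cast
        have e1 : th (u j) * J = (th (u j) - u j - rot (u j)) * J +
          ((u j : ℝ) + rot (u j)) * J := by ring
        have : (0 : ℝ) ≤ dl := Nat.cast_nonneg _
        linarith only [hs2, a2, a4]
      exact_mod_cast this.le
    · have : (⌊th (u j) * J⌋₊ : ℝ) <
          ((vp w + hs + (dl + 3) + ⌊(u j : ℝ) * J⌋₊ : ℕ) : ℝ) := by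
        push_cast
        have e1 : th (u j) * J = (th (u j) - u j - rot (u j)) * J + rot (u j) * J +
          (u j : ℝ) * J := by ring
        linarith only [hdl, hs2, a1, a4]
      exact_mod_cast this.le
  · have e1 : ((u j : ℝ) + q') * J = ((u j : ℝ) + rot (u j) + q') * J - rot (u j) * J := by ring
    rw [e1, hq']
    push_cast
    linarith only [hx1]
  · rw [hq']
    push_cast
    exact le_rfl
  · have e1 : (th (u j) + q') * J = ((u j : ℝ) + rot (u j) + q') * J +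
      (th (u j) - u j - rot (u j)) * J := by ring
    rw [e1, hq']
    push_cast
    linarith only [hs1]

/-- **The inequality at one context.** -/
theorem BFr.ctx (hB : BFr F A i₀ rot th w₀ v₀ v R₀ qm L e wq Nm u sg wa wb vp kap Hu HN al nu kN
    nN a s t z B C E) (hlaw : IsLaw (Pool.Agent.H49.Ent.cond F.p A True)) {j : ℕ} (hj : j < Nm)
    {P g c εu ε₀ Xu : ℝ} (hup : UpC F A i₀ rot th P g c εu ε₀ Xu (u j)) {w q X hs dl D g' : ℕ}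
    (h1 : wa ≤ w) (h2 : w ≤ wb) (hhs : hs = ⌊(th (u j) - u j - rot (u j)) * J⌋₊)
    (hcls : (vp w : ℝ) ≤ rot (u j) * J ∧ ∀ ω, A ω → |a w ω - fra (z j) ω| ≤ E / 2 ^ vp w ∧
      |s ω - frs (z j) ω| ≤ E / 2 ^ ⌊(th (u j) - u j - rot (u j)) * J⌋₊ ∧
      |(t ω - frt (z j) ω) + (s ω - frs (z j) ω) * fra (z j) ω| ≤
        E / 2 ^ ⌊(th (u j) - u j) * J⌋₊)
    (hu0 : 0 ≤ u j) (hth0 : 0 ≤ th (u j) - u j - rot (u j)) (he1 : e * L ≤ ε₀ * Xu)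
    (hdl : rot (u j) * J ≤ vp w + dl) (hdl' : ((dl + 3 : ℕ) : ℝ) * Real.log 2 ≤ ε₀ * Xu * J)
    {q' : ℝ} (hq' : ((u j : ℝ) + rot (u j) + q') * J = w + vp w + q)
    (hq1 : |q' - (P - g)| ≤ Xu) (hq2 : |q' + X / J - (P - g)| ≤ Xu)
    (hN1 : |((w + vp w + q + hs : ℕ) : ℝ) - P * J| ≤ Xu * J)
    (hN2 : |((w + vp w + q + hs + X : ℕ) : ℝ) - P * J| ≤ Xu * J)
    (hk : vp w + hs + X ≤ kap) (hJ : w + vp w + q + hs + X ≤ J) (hD : vp wb + X ≤ D)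
    {ε ε₁ : ℝ} (hε₁ : ε₁ ≤ 1)
    (hlow : UcP F (Pool.Agent.H49.Ent.cond F.p A True) sg vp D a s t
      (fun ω => al (Fam.pt F ω)) kap X w q ε)
    {w₁ : ℚ} {G ρ₀ h : ℝ}
    (hcol : ColC F A i₀ w₁ G ρ₀ h B C (Pool.KA.Vd.K1 (8 ^ 2 + 8 + 1)) ε₁)
    (c1 : wa ≤ ⌊(w₁ : ℝ) * J⌋₊) (c2 : ⌊(w₁ : ℝ) * J⌋₊ ≤ wb)
    (c3 : (ρ₀ - h / 4) * J ≤ vp ⌊(w₁ : ℝ) * J⌋₊) (c4 : (ρ₀ - h / 4) * J ≤ Hu)
    (c5 : (G - w₁ + h) * J ≤ kap) (c6 : (G - w₁ + h) * J ≤ HN)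
    (c7 : (G - w₁ - ρ₀ + h) * J ≤ ((hs + g' : ℕ) : ℝ)) :
    (c - 2 * ε - ε₁) * X * Real.log 2 ≤ εu * Xu * J + g' * Real.log 2 +
      (29 * (Real.log (4 + C) + Real.log E) + 120) := by
  have hJ0 : (0 : ℝ) ≤ J := Nat.cast_nonneg J
  have hE := hB.E1
  have hC := hB.fr.C1
  have hs1 : (hs : ℝ) ≤ (th (u j) - u j - rot (u j)) * J := by
    rw [hhs]
    exact Nat.floor_le (mul_nonneg hth0 hJ0)
  have hcls' : ∀ ω, A ω → |a w ω - fra (z j) ω| ≤ E / 2 ^ vp w ∧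
      |s ω - frs (z j) ω| ≤ E / 2 ^ hs ∧
      |(t ω - frt (z j) ω) + (s ω - frs (z j) ω) * fra (z j) ω| ≤ E / 2 ^ (vp w + hs) := by
    intro ω hω
    obtain ⟨k1, k2, k3⟩ := hcls.2 ω hω
    refine ⟨k1, by rw [hhs]; exact k2, k3.trans ?_⟩
    refine div_le_div_of_nonneg_left (by linarith only [hE]) (by positivity)
      (pow_le_pow_right₀ (by norm_num) ?_)
    refine Nat.le_floor ?_
    push_cast
    have e1 : (th (u j) - u j) * J = (th (u j) - u j - rot (u j)) * J + rot (u j) * J := by ring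
    rw [e1]
    linarith only [hcls, hs1, hcls.1]
  have hd := hB.bdat hlaw hj (q := q) h1 h2 hcls' hk hJ hD
  have k1 := hB.up hj hup hhs hcls.1 hu0 hth0 he1 hdl hdl' hq' hq1 hq2 hN1 hN2
  have eU : w + vp w + q + hs - (w + vp w + q) = hs := by omega
  have k2 := hcol hlaw sg _ wa wb vp kap Hu HN al nu kN nN a s t hB.fr hB.s0 hB.bk c1 c2 c3 c4
    c5 c6 _ (bL F sg (w + q) (w + vp w + q) (w + vp w + q + hs) X D (fun ω => al (Fam.pt F ω))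
      (fun ω => kN (Fam.pt F ω)) (fun ω => rnd (vp w) (fra (z j) ω)) (rdS hs (frs (z j)))
      (rdT hs (vp w + hs) (frs (z j)) (frt (z j)) (fra (z j)))) (hs + g') hd.CH_L c7
  have k3 := hd.main (ε := ε) (ε₁ := ε₁) (c := c) (e := εu * Xu * J) (g := g') hε₁
    (w + q + kap) (hlow _ le_rfl) k1 (by
      rw [eU]
      exact k2)
  have k4 := bC_le (E := 2 * E + 2 + C) (by linarith only [hE, hC])
  have k5 : Real.log (2 * E + 2 + C) ≤ Real.log (4 + C) + Real.log E := by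
    rw [← Real.log_mul (by linarith only [hC]) (by linarith only [hE])]
    refine Real.log_le_log (by linarith only [hE, hC]) ?_
    nlinarith only [hE, hC]
  linarith only [k3, k4, k5]

end ctx

end Pool.S6B
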