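import Pool.Agent.H72.S6B.Ctx

/-!
# (beta): the contradiction in one family
-/

set_option autoImplicit false

namespace Pool.S6B

open Finset Real
open Pool.Agent.H49.Ent Pool.Agent.H32.Dense Pool.STK Pool.KA Pool.KA.Win Pool.KA.TRC
  Pool.KSAT Pool.K2S Pool.K2S.Rows Pool.K2S.FF Pool.PB Pool.KS6 Pool.S6K.Wfe Pool.UST Pool.S6U
  Pool.S6C Pool.Sel51

section fam

variable {J : ℕ} {F : Fam 3 J} {A : F.Ω → Prop} {i₀ : Fin 3} {rot th : ℚ → ℝ}
  {w₀ v₀ v R₀ qm L e : ℝ} {wq : ℚ} {Nm : ℕ} {u : ℕ → ℚ} {sg : Fin 3 → Fin 3} {wa wb : ℕ}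
  {vp : ℕ → ℕ} {kap Hu HN : ℕ} {al nu kN nN : (Fin 3 → ℤ) × (ℕ × F.ζ) → ℝ}
  {a : ℕ → F.Ω → ℝ} {s t : F.Ω → ℝ} {z : ℕ → F.Ω → Pln} {B C E : ℝ}

theorem abs_le_mul {y K L J : ℝ} (hJ : 0 < J) (h : |y * J| ≤ K * (L * J)) : |y| ≤ K * L := by
  rw [abs_mul, abs_of_pos hJ, ← mul_assoc] at h
  exact le_of_mul_le_mul_right h hJ

/-- **The contradiction in one family.** -/
theorem BFr.false {P g M : ℝ} (hB : BFr F A i₀ rot th w₀ v₀ v (g - w₀ + (v + v + 2) * L)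
      (P - g + M * L) L e wq Nm u sg wa wb vp kap Hu HN al nu kN nN a s t z B C E)
    (hlaw : IsLaw (Pool.Agent.H49.Ent.cond F.p A True)) {c θ η Ku εu ε₀ ε₁ G ρ₀ : ℝ} {w₁ : ℚ}
    {X D w q : ℕ} (hc : 0 < c) (hθ : 0 < θ) (hθ1 : θ ≤ 1 / 8) (hη : 0 < η)
    (hη1 : 960 * (v + 16) * η ≤ 1) (hη2 : 960 * (v + 16) * η ≤ c * θ) (hη3 : 6 * η ≤ ε₀ * Ku)
    (hM : 0 < M) (hKu : M + 2 * v + 6 ≤ Ku) (hεu : εu * Ku ≤ c * θ / 32) (hε₁ : ε₁ ≤ 1)
    (hε₁c : ε₁ ≤ c / 8) (hv : 0 ≤ v) (hL : 0 < L) (he : e ≤ η)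
    (hJ1 : 1 ≤ η * (L * J)) (hJv : v ≤ η * (L * J))
    (hJC : 29 * Real.log (4 + C) + 120 ≤ η * (L * J))
    (hX1 : θ / 2 * (L * J) ≤ X) (hX2 : X ≤ θ * (L * J))
    (hu : ∀ j < Nm, |(u j : ℝ) - w₀| ≤ 2 * L ∧ 0 < u j ∧ 0 ≤ th (u j) - u j - rot (u j))
    (hrot : ∀ j < Nm, |rot (u j) - v₀ - v * (u j - w₀)| ≤ η * L)
    (hth : ∀ j < Nm, |th (u j) - g - (1 + v) * (u j - w₀)| ≤ η * L)
    (hUp : ∀ j < Nm, UpC F A i₀ rot th P g c εu ε₀ (Ku * L) (u j))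
    (hw1 : w₀ ≤ w₁) (hw2 : (w₁ : ℝ) ≤ w₀ + η * L) (hG : G ≤ g + (v + 2) * (η * L))
    (hρ1 : v₀ - 2 * (η * L) ≤ ρ₀) (hρ2 : ρ₀ ≤ v₀)
    (hcol : ColC F A i₀ w₁ G ρ₀ (8 * (η * L)) B C (Pool.KA.Vd.K1 (8 ^ 2 + 8 + 1)) ε₁)
    (h1 : wa ≤ w) (h2 : w ≤ wb) (hq1 : (P - g - M * L) * J ≤ q)
    (hq2 : (q : ℝ) + X ≤ (P - g + M * L) * J) (hD : vp wb + X ≤ D)
    (hlow : UcP F (Pool.Agent.H49.Ent.cond F.p A True) sg vp D a s t
      (fun ω => al (Fam.pt F ω)) kap X w q (c / 16)) : False := by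
  obtain ⟨j, hj, x1, x2, x3, x4⟩ := hB.cls w h1 h2
  obtain ⟨hu1, hu0, hu2⟩ := hu j hj
  have hr1 := hrot j hj
  have ht1 := hth j hj
  have hup := hUp j hj
  have hC1 := hB.fr.C1
  obtain ⟨l, hl⟩ : ∃ l : ℝ, l = L * J := ⟨_, rfl⟩
  rw [← hl] at hJ1 hJv hJC hX1 hX2
  have hl0 : 0 < l := by
    by_contra hcon
    push Not at hcon
    nlinarith only [hJ1, hη, hcon]
  have hJ0 : (0 : ℝ) < J := by
    rcases (Nat.cast_nonneg (α := ℝ) J).lt_or_eq with h | h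
    · exact h
    · rw [← h, mul_zero] at hl
      linarith only [hl, hl0]
  have hvη : 0 ≤ v * η := mul_nonneg hv hη.le
  have hη1' : η ≤ 1 / 960 := by nlinarith only [hη, hη1, hvη]
  have hηc : 960 * η ≤ c * θ := by nlinarith only [hη, hη2, hvη]
  have hvηc : 960 * (v * η) + 15360 * η ≤ c * θ := by nlinarith only [hη2]
  have hvη1 : 960 * (v * η) + 15360 * η ≤ 1 := by nlinarith only [hη1]
  have hηl : 0 < η * l := mul_pos hη hl0
  have hvl : 0 ≤ v * l := mul_nonneg hv hl0.le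
  have hvηl : 0 ≤ v * η * l := mul_nonneg hvη hl0.le
  have hel : e * l ≤ η * l := mul_le_mul_of_nonneg_right he hl0.le
  have hηl1 : η * l ≤ 1 / 960 * l := mul_le_mul_of_nonneg_right hη1' hl0.le
  have hθl : θ * l ≤ 1 / 8 * l := mul_le_mul_of_nonneg_right hθ1 hl0.le
  -- numbers at the window
  obtain ⟨b, hb⟩ : ∃ b : ℝ, b = v * ((u j : ℝ) * J - w₀ * J) := ⟨_, rfl⟩
  have hR : |rot (u j) * J - v₀ * J - b| ≤ η * l := by
    have e1 : rot (u j) * J - v₀ * J - b = (rot (u j) - v₀ - v * (u j - w₀)) * J := by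
      rw [hb]; ring
    rw [e1, abs_mul, abs_of_pos hJ0, hl, ← mul_assoc]
    exact mul_le_mul_of_nonneg_right hr1 hJ0.le
  have hT : |th (u j) * J - g * J - ((u j : ℝ) * J - w₀ * J) - b| ≤ η * l := by
    have e1 : th (u j) * J - g * J - ((u j : ℝ) * J - w₀ * J) - b =
        (th (u j) - g - (1 + v) * (u j - w₀)) * J := by
      rw [hb]; ring
    rw [e1, abs_mul, abs_of_pos hJ0, hl, ← mul_assoc]
    exact mul_le_mul_of_nonneg_right ht1 hJ0.le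
  have hU2 : |(u j : ℝ) * J - w₀ * J| ≤ 2 * l := by
    have e1 : (u j : ℝ) * J - w₀ * J = ((u j : ℝ) - w₀) * J := by ring
    rw [e1, abs_mul, abs_of_pos hJ0, hl, ← mul_assoc]
    exact mul_le_mul_of_nonneg_right hu1 hJ0.le
  have hb2 : |b| ≤ 2 * (v * l) := by
    rw [hb, abs_mul, abs_of_nonneg hv]
    have := mul_le_mul_of_nonneg_left hU2 hv
    linarith only [this]
  have hlin := hB.lin w h1 h2
  have x2' : (w : ℝ) ≤ (u j : ℝ) * J + e * l := by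
    rw [hl]
    have e1 : ((u j : ℝ) + e * L) * J = (u j : ℝ) * J + e * (L * J) := by ring
    rw [← e1]
    exact x2
  have hlin' : |(vp w : ℝ) - v₀ * J - v * ((w : ℝ) - w₀ * J)| ≤ e * l := by
    have e1 : (vp w : ℝ) - v₀ * J - v * ((w : ℝ) - w₀ * J) =
      (vp w : ℝ) - (v₀ * J + v * (w - w₀ * J)) := by ring
    rw [e1, hl, ← mul_assoc]
    exact hlin
  have hbb : b ≤ v * ((w : ℝ) - w₀ * J) := by
    rw [hb]
    exact mul_le_mul_of_nonneg_left (by linarith only [x1]) hv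
  have hwb : (w : ℝ) ≤ w₀ * J + l := by
    have e1 : (w₀ + L) * J = w₀ * J + L * J := by ring
    have k1 := hB.wb1
    rw [e1, ← hl] at k1
    have k2 : (w : ℝ) ≤ wb := by exact_mod_cast h2
    linarith only [k1, k2]
  have hb3 : b ≤ v * l := by
    rw [hb]
    exact mul_le_mul_of_nonneg_left (by linarith only [x1, hwb]) hv
  obtain ⟨R1, R2⟩ := abs_le.1 hR
  obtain ⟨T1, T2⟩ := abs_le.1 hT
  obtain ⟨U1, U2⟩ := abs_le.1 hU2
  obtain ⟨B1, B2⟩ := abs_le.1 hb2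
  obtain ⟨V1, V2⟩ := abs_le.1 hlin'
  obtain ⟨hs, hhs⟩ : ∃ hs, hs = ⌊(th (u j) - u j - rot (u j)) * J⌋₊ := ⟨_, rfl⟩
  have hs1 : (hs : ℝ) ≤ th (u j) * J - (u j : ℝ) * J - rot (u j) * J := by
    have : (hs : ℝ) ≤ (th (u j) - u j - rot (u j)) * J := by
      rw [hhs]
      exact Nat.floor_le (mul_nonneg hu2 hJ0.le)
    linarith only [this]
  have hs2 : th (u j) * J - (u j : ℝ) * J - rot (u j) * J < hs + 1 := by
    have : (th (u j) - u j - rot (u j)) * J < hs + 1 := by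
      rw [hhs]
      exact Nat.lt_floor_add_one _
    linarith only [this]
  obtain ⟨dl, hdl⟩ : ∃ dl, dl = ⌈2 * (η * l)⌉₊ := ⟨_, rfl⟩
  have hdl1 : 2 * (η * l) ≤ dl := by rw [hdl]; exact Nat.le_ceil _
  have hdl2 : (dl : ℝ) < 2 * (η * l) + 1 := by rw [hdl]; exact Nat.ceil_lt_add_one (by positivity)
  obtain ⟨g', hg'⟩ : ∃ g', g' = ⌊c / 8 * X⌋₊ := ⟨_, rfl⟩
  have hX0 : (0 : ℝ) < X := lt_of_lt_of_le (by positivity) hX1
  have hg1 : (g' : ℝ) ≤ c / 8 * X := by rw [hg']; exact Nat.floor_le (by positivity)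
  have hg2 : c / 8 * X < g' + 1 := by rw [hg']; exact Nat.lt_floor_add_one _
  have hcθ : c * θ / 16 * l ≤ c / 8 * X := by
    have := mul_le_mul_of_nonneg_left hX1 (by positivity : 0 ≤ c / 8)
    linarith only [this]
  have hln2 : Real.log 2 ≤ 1 := by
    have := Real.log_two_lt_d9
    linarith only [hη, hη1, hvη, this]
  have hln2' : 1 / 2 ≤ Real.log 2 := by
    have := Real.log_two_gt_d9
    linarith only [hη, hη1, hvη, this]
  have hηKu : 6 * η * l ≤ ε₀ * Ku * l := mul_le_mul_of_nonneg_right hη3 hl0.le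
  have hq1' : (P - g) * J - M * l ≤ q := by
    rw [hl]
    have e1 : (P - g) * J - M * (L * J) = (P - g - M * L) * J := by ring
    rw [e1]
    exact hq1
  have hq2' : (q : ℝ) + X ≤ (P - g) * J + M * l := by
    rw [hl]
    have e1 : (P - g) * J + M * (L * J) = (P - g + M * L) * J := by ring
    rw [e1]
    exact hq2
  have hMl : 0 < M * l := mul_pos hM hl0
  have hKul : (M + 2 * v + 6) * l ≤ Ku * l := mul_le_mul_of_nonneg_right hKu hl0.le
  -- the velocity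
  obtain ⟨q', hq'⟩ : ∃ q' : ℝ, q' = ((w : ℝ) + vp w + q) / J - u j - rot (u j) := ⟨_, rfl⟩
  have hqJ : q' * J = (w : ℝ) + vp w + q - (u j : ℝ) * J - rot (u j) * J := by
    rw [hq']
    field_simp
  have hkap := hB.kap1
  have hkap' : g * J - w₀ * J + 2 * (v * l) + 2 * l ≤ kap := by
    rw [hl]
    have e1 : g * J - w₀ * J + 2 * (v * (L * J)) + 2 * (L * J) =
      (g - w₀ + (v + v + 2) * L) * J := by ring
    rw [e1]
    exact hkap
  have hk : vp w + hs + X ≤ kap := by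
    have : ((vp w + hs + X : ℕ) : ℝ) ≤ kap := by
      push_cast
      linarith only [hη, hη1, x3, hX2, hJ1, hvη, hvl, hηl1, hθl, hb3, T2, hs1, hkap']
    exact_mod_cast this
  have hroom := hB.room
  have hqc : (q : ℝ) ≤ (⌈(P - g + M * L) * J⌉₊ : ℝ) := by
    refine le_trans ?_ (Nat.le_ceil _)
    linarith only [hq2, hX0]
  have hrn := hroom.nJ
  have hru := hroom.u
  have hrN := hroom.n
  rw [← hl] at hrn hru hrN
  have hq0 : (0 : ℝ) ≤ q := Nat.cast_nonneg _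
  have hww : (w : ℝ) ≤ wb := by exact_mod_cast h2
  have hJJ : w + vp w + q + hs + X ≤ J := by
    have k1 : ((vp w + hs + X : ℕ) : ℝ) ≤ kap := by exact_mod_cast hk
    push_cast at k1
    have : ((w + vp w + q + hs + X : ℕ) : ℝ) ≤ J := by
      push_cast
      linarith only [hη, hη1, x3, hX2, hJ1, hvη, hvl, hηl1, hθl, hb3, T2, hs1, hkap', hqc, hrn, hww]
    exact_mod_cast this
  -- the window `w₁`
  have hw₁1 : w₀ * J ≤ (w₁ : ℝ) * J := mul_le_mul_of_nonneg_right hw1 hJ0.le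
  have hw₁2 : (w₁ : ℝ) * J ≤ w₀ * J + η * l := by
    have := mul_le_mul_of_nonneg_right hw2 hJ0.le
    rw [hl]
    linarith only [this]
  have hwa := hB.wa2
  have hwb2 := hB.wb2
  have hwa' : (wa : ℝ) ≤ w₀ * J - l / 2 := by
    rw [hl]
    linarith only [hwa]
  have hwb' : w₀ * J + l / 2 ≤ wb := by
    rw [hl]
    linarith only [hwb2]
  have hw₁0 : (0 : ℝ) ≤ (w₁ : ℝ) * J := by
    have : (0 : ℝ) ≤ wa := Nat.cast_nonneg _
    linarith only [hη, hη1, hJ1, hl, hvη, hηl1, hw₁1, hwa]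
  have c1 : wa ≤ ⌊(w₁ : ℝ) * J⌋₊ := Nat.le_floor (by linarith only [hη, hη1, hJ1, hl, hvη, hηl1, hw₁1, hwa])
  have f1 : (⌊(w₁ : ℝ) * J⌋₊ : ℝ) ≤ (w₁ : ℝ) * J := Nat.floor_le hw₁0
  have f2 : (w₁ : ℝ) * J < ⌊(w₁ : ℝ) * J⌋₊ + 1 := Nat.lt_floor_add_one _
  have c2 : ⌊(w₁ : ℝ) * J⌋₊ ≤ wb := by
    have : (⌊(w₁ : ℝ) * J⌋₊ : ℝ) ≤ wb := by linarith only [hη, hη1, hJ1, hl, hvη, hηl1, hw₁2, hwb2, f1]
    exact_mod_cast this
  have hlin1 := hB.lin _ c1 c2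
  have hlin1' : v₀ * J + v * ((⌊(w₁ : ℝ) * J⌋₊ : ℝ) - w₀ * J) - e * l ≤
      vp ⌊(w₁ : ℝ) * J⌋₊ := by
    rw [hl, ← mul_assoc]
    linarith only [hlin1, (abs_le.1 hlin1).1]
  have hv1 : -v ≤ v * ((⌊(w₁ : ℝ) * J⌋₊ : ℝ) - w₀ * J) := by
    have := mul_le_mul_of_nonneg_left (show (-1 : ℝ) ≤ (⌊(w₁ : ℝ) * J⌋₊ : ℝ) - w₀ * J by
      linarith only [hw₁1, f2]) hv
    linarith only [this]
  have hρJ : ρ₀ * J ≤ v₀ * J := mul_le_mul_of_nonneg_right hρ2 hJ0.le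
  have hρJ' : v₀ * J - 2 * (η * l) ≤ ρ₀ * J := by
    have := mul_le_mul_of_nonneg_right hρ1 hJ0.le
    rw [hl]
    linarith only [this]
  have hGJ : G * J ≤ g * J + v * η * l + 2 * (η * l) := by
    have := mul_le_mul_of_nonneg_right hG hJ0.le
    rw [hl]
    linarith only [this]
  have c3 : (ρ₀ - 8 * (η * L) / 4) * J ≤ vp ⌊(w₁ : ℝ) * J⌋₊ := by
    have e1 : (ρ₀ - 8 * (η * L) / 4) * J = ρ₀ * J - 2 * (η * l) := by rw [hl]; ring
    rw [e1]
    linarith only [hJv, hel, hlin1', hv1, hρJ]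
  have hvpm : (vp ⌊(w₁ : ℝ) * J⌋₊ : ℝ) ≤ vp wb := by
    exact_mod_cast hB.fr.mono _ wb c1 c2 le_rfl
  have hceil : (0 : ℝ) ≤ (⌈(P - g + M * L) * J⌉₊ : ℝ) := Nat.cast_nonneg _
  have c4 : (ρ₀ - 8 * (η * L) / 4) * J ≤ Hu := by linarith only [hη, hη1, hJ1, hvη, hηl1, hru, c3, hvpm]
  have hvη1l : (960 * (v * η) + 15360 * η) * l ≤ 1 * l :=
    mul_le_mul_of_nonneg_right hvη1 hl0.le
  have hvηcl : (960 * (v * η) + 15360 * η) * l ≤ c * θ * l :=
    mul_le_mul_of_nonneg_right hvηc hl0.le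
  have c5 : (G - w₁ + 8 * (η * L)) * J ≤ kap := by
    have e1 : (G - w₁ + 8 * (η * L)) * J = G * J - w₁ * J + 8 * (η * l) := by rw [hl]; ring
    rw [e1]
    linarith only [hη, hη1, hJ1, hvη, hvl, hvηl, hkap', hw₁1, hGJ, hvη1l]
  have c6 : (G - w₁ + 8 * (η * L)) * J ≤ HN := by linarith only [hη, hη1, hJ1, hvη, hvηl, hrN, hvη1l, c5]
  have c7 : (G - w₁ - ρ₀ + 8 * (η * L)) * J ≤ ((hs + g' : ℕ) : ℝ) := by
    have e1 : (G - w₁ - ρ₀ + 8 * (η * L)) * J =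
        G * J - w₁ * J - ρ₀ * J + 8 * (η * l) := by rw [hl]; ring
    rw [e1]
    push_cast
    linarith only [hη, hη1, hJ1, hvη, hvηl, R2, T1, hs2, hg2, hcθ, hw₁1, hρJ', hGJ, hvηcl]
  have key := hB.ctx hlaw hj (q := q) (X := X) (hs := hs) (dl := dl) (D := D) (g' := g')
    (q' := q') hup h1 h2 hhs ⟨x3, x4⟩ hu0.le hu2 (by
      have : e * L ≤ η * L := mul_le_mul_of_nonneg_right he hL.le
      have h3 := mul_le_mul_of_nonneg_right hη3 hL.le
      have h4 : 0 < η * L := mul_pos hη hL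
      linarith only [this, h3, h4]) (by linarith only [hel, hbb, R2, V1, hdl1]) (by
      have e1 : ε₀ * (Ku * L) * J = ε₀ * Ku * l := by rw [hl]; ring
      rw [e1]
      push_cast
      have h3 : ((dl : ℝ) + 3) * Real.log 2 ≤ ((dl : ℝ) + 3) * 1 :=
        mul_le_mul_of_nonneg_left hln2 (by positivity)
      linarith only [hJ1, hdl2, hηKu, h3]) (by
      have e1 : ((u j : ℝ) + rot (u j) + q') * J = (u j : ℝ) * J + rot (u j) * J + q' * J := by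
        ring
      rw [e1, hqJ]
      ring) (abs_le_mul hJ0 (by
      have e1 : (q' - (P - g)) * J = q' * J - (P - g) * J := by ring
      rw [e1, ← hl, hqJ, abs_le]
      constructor <;> linarith)) (abs_le_mul hJ0 (by
      have e1 : (q' + X / J - (P - g)) * J = q' * J + X - (P - g) * J := by
        field_simp
      rw [e1, ← hl, hqJ, abs_le]
      constructor <;> linarith)) (by
      have e1 : Ku * L * J = Ku * l := by rw [hl]; ring
      rw [e1, abs_le]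
      push_cast
      constructor <;> linarith) (by
      have e1 : Ku * L * J = Ku * l := by rw [hl]; ring
      rw [e1, abs_le]
      push_cast
      constructor <;> linarith) hk hJJ hD hε₁ hlow hcol c1 c2 c3 c4 c5 c6 c7
  -- the contradiction
  have hlogE : Real.log E ≤ η * l := by
    have := hB.logE
    rw [mul_assoc, ← hl] at this
    linarith only [hel, this]
  have e1 : εu * (Ku * L) * J = εu * Ku * l := by rw [hl]; ring
  rw [e1] at key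
  have k1 : εu * Ku * l ≤ c * θ / 32 * l := mul_le_mul_of_nonneg_right hεu hl0.le
  have k2 : (g' : ℝ) * Real.log 2 ≤ c / 8 * X * Real.log 2 :=
    mul_le_mul_of_nonneg_right hg1 (by linarith only [hη, hη1, hvη, hln2'])
  have k3 : c * θ / 16 * l * (1 / 2) ≤ c / 8 * X * Real.log 2 :=
    mul_le_mul hcθ hln2' (by norm_num) (by positivity)
  have k4 : (3 * c / 4) * X * Real.log 2 ≤ (c - 2 * (c / 16) - ε₁) * X * Real.log 2 := by
    refine mul_le_mul_of_nonneg_right (mul_le_mul_of_nonneg_right ?_ hX0.le) (by linarith only [hη, hη1, hvη, hln2'])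
    linarith only [hε₁c]
  have k5 : 0 < c * X * Real.log 2 := by positivity
  have k6 : 29 * (Real.log (4 + C) + Real.log E) + 120 ≤ 30 * (η * l) := by linarith only [hη, hη1, hJC, hJ1, hvη, hvηl, hvηcl, key, hlogE, k1, k2, k3, k4]
  have k7 : 960 * η * l ≤ c * θ * l := mul_le_mul_of_nonneg_right hηc hl0.le
  have e2 : (3 * c / 4) * X * Real.log 2 = 3 / 4 * (c * X * Real.log 2) := by ring
  have e3 : c / 8 * X * Real.log 2 = 1 / 8 * (c * X * Real.log 2) := by ring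
  rw [e2] at k4
  rw [e3] at k2 k3
  linarith only [hη, hη1, hJC, hJ1, hvη, hvηl, hvηcl, key, hlogE, k1, k2, k3, k4]

end fam

end Pool.S6B
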