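import Pool.Agent.H72.S6B.RectP
import Pool.Agent.H72.S6B.Stm

/-!
# The local U-step without the rows of the base position, in static boxes
-/

set_option autoImplicit false

namespace Pool.S6B

open Finset Real
open Pool.Agent.H49.Ent Pool.Agent.H32.Dense Pool.STK Pool.KA Pool.KSAT Pool.K2S Pool.S6U

/-- **The U-step on a rectangle, `v > 0`, in static boxes**, without the rows of the base
position. -/
theorem ueP_out : ∀ ε ca ρ : ℝ, 0 < ε → 0 < ca → 0 < ρ → ∃ (x₁ ϖ δ ε₁ γ η : ℝ) (n d₀ : ℕ),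
    0 < x₁ ∧ 0 < ϖ ∧ ϖ ≤ 1 ∧ 0 < δ ∧ 0 < ε₁ ∧ 0 < γ ∧ γ ≤ 1 ∧ 0 < η ∧ 1 ≤ n ∧ 1 ≤ d₀ ∧
    ∀ {J : ℕ} (F : Fam 3 J) (p : F.Ω → ℝ) (σ : Fin 3 → Fin 3) (wa wb : ℕ) (vp : ℕ → ℕ) (D : ℕ)
      (a : ℕ → F.Ω → ℝ) (s t al : F.Ω → ℝ) (κ d tt qa qb : ℕ),
      Rc F p σ wa wb vp D a s t al → d₀ ≤ d → Ush wa wb vp D (n * d) tt qa qb J γ →
      UhP F p σ wa wb vp D a s t al κ d (n * d) qa qb x₁ ϖ δ ε₁ η ca →
      ∃ B : Finset (ℕ × ℕ), (B.card : ℝ) ≤ ρ * ((wb + 1 - wa : ℕ) * (qb - qa : ℕ)) ∧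
        ∀ w q, wa ≤ w → w ≤ wb → qa ≤ q → q < qb → (w, q) ∉ B →
          UcP F p σ vp D a s t al κ (n * d) w q ε := by
  intro ε ca ρ hε hca hρ
  obtain ⟨x₁, ϖ, δ, ε₁, γ, η, n, d₀, hx₁, hϖ, hϖ1, hδ, hε₁, hγ, hγ1, hη, hn, hd₀, hue⟩ :=
    ue_rectP (ε / 2) ca ρ (by positivity) hca hρ
  obtain ⟨u, hu⟩ : ∃ u, u = Real.log 2 := ⟨_, rfl⟩
  have hu0 : 0 < u := by rw [hu]; exact Real.log_pos (by norm_num)
  obtain ⟨K, hK⟩ : ∃ K, K = (3 : ℕ) * Real.log 51 + 2 * Real.log 5 := ⟨_, rfl⟩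
  have hl5 : 0 ≤ Real.log 5 := Real.log_nonneg (by norm_num)
  have hl51 : 0 ≤ Real.log 51 := Real.log_nonneg (by norm_num)
  have hK0 : 0 ≤ K := by rw [hK]; positivity
  obtain ⟨N₁, hN₁⟩ := exists_nat_ge (2 * K / (ε * u))
  refine ⟨x₁, ϖ, δ, ε₁, γ, η, n, d₀ + N₁, hx₁, hϖ, hϖ1, hδ, hε₁, hγ, hγ1, hη, hn, by omega, ?_⟩
  intro J F p σ wa wb vp D a s t al κ d tt qa qb hR hd hs hh
  obtain ⟨B, hB, hc⟩ := hue F p σ wa wb vp D a s t al κ d tt qa qb hR hs.w hs.q (by omega) hs.Xt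
    hs.wJ hs.rise hs.t hs.X hs.D hs.le hh.tm hh.h6 hh.act
  refine ⟨B, hB, ?_⟩
  intro w q h1 h2 h3 h4 hwq N hN
  obtain ⟨-, g2⟩ := hc w q h1 h2 h3 h4 hwq
  have hdX : d ≤ n * d := by
    calc d = 1 * d := (one_mul d).symm
      _ ≤ n * d := Nat.mul_le_mul_right d hn
  have hKX : 2 * K ≤ ε * ((n * d : ℕ) : ℝ) * u := by
    have k1 : (N₁ : ℝ) ≤ ((n * d : ℕ) : ℝ) := by
      have : N₁ ≤ n * d := by omega
      exact_mod_cast this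
    have k2 := hN₁.trans k1
    rw [div_le_iff₀ (by positivity)] at k2
    linarith
  have o2 := hR.out_pair (X := n * d) (κ := κ) (q := q) h1 h2 hN g2
  refine le_trans ?_ o2
  rw [← hu, ← hK]
  have e : (2 - ε) * ((n * d : ℕ) : ℝ) * u = (2 - ε / 2) * ((n * d : ℕ) : ℝ) * u -
      ε * ((n * d : ℕ) : ℝ) * u / 2 := by ring
  rw [e]
  linarith

end Pool.S6B
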