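import Pool.Agent.H72.S6B.Wf

/-!
# The local U-step on a rectangle without the hypothesis on the base position

helper10's `ue_rectW` with `ue_pairP` in place of `ue_pair`.
-/

set_option autoImplicit false

namespace Pool.S6B

open Finset Real
open Pool.Agent.H49.Ent Pool.Agent.H32.Dense Pool.STK Pool.KA Pool.KSAT Pool.K2S Pool.S6U

/-- **The U-step on a rectangle**, the time from the window `wa`. -/
theorem ue_rectP : ∀ ε ca ρ : ℝ, 0 < ε → 0 < ca → 0 < ρ → ∃ (x₁ ϖ δ ε₁ γ η : ℝ)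
    (n d₀ : ℕ), 0 < x₁ ∧ 0 < ϖ ∧ ϖ ≤ 1 ∧ 0 < δ ∧ 0 < ε₁ ∧ 0 < γ ∧ γ ≤ 1 ∧ 0 < η ∧ 1 ≤ n ∧ 1 ≤ d₀ ∧
    ∀ {J : ℕ} (F : Fam 3 J) (p : F.Ω → ℝ) (σ : Fin 3 → Fin 3) (wa wb : ℕ) (vp : ℕ → ℕ) (D : ℕ)
      (a : ℕ → F.Ω → ℝ) (s t al : F.Ω → ℝ) (κ d tt qa qb : ℕ),
      Rc F p σ wa wb vp D a s t al → wa ≤ wb → qa ≤ qb → d₀ ≤ d → n * d ≤ tt → wb + n * d ≤ J →
      (∀ w w', wa ≤ w → w + tt ≤ w' → w' ≤ wb → vp w + n * d ≤ vp w') →
      (tt : ℝ) ≤ γ * (wb + 1 - wa : ℕ) → ((n * d : ℕ) : ℝ) ≤ γ * (qb - qa : ℕ) →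
      ((D - vp wa : ℕ) : ℝ) ≤ γ * (qb - qa : ℕ) → wb + vp wb ≤ wa + vp wa + (qb - qa) →
      (∀ E : F.Ω → Prop, ϖ ≤ Pe p E → ((J : ℝ) - wa) * Real.log 2 - δ * (n * d : ℕ) ≤
        CH (Pool.Agent.H49.Ent.cond p E True) F.T (slam F wa)) →
      (∀ w q, wa ≤ w → w ≤ wb → qa ≤ q → q < qb → ∀ E : F.Ω → Prop, ϖ ≤ Pe p E →
        Pool.KAF.Pr (dbl (Pool.Agent.H49.Ent.cond p E True)
          (F.blb w (cv (vp w) κ (q + n * d)) (frm σ (a w) s t)))
          {v | |sl (vp w) D (a w) al v.1 - sl (vp w) D (a w) al v.2| <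
            (2 : ℝ) ^ (-(x₁ * (n * d : ℕ)))} ≤ ε₁) →
      (∀ w q Y, wa ≤ w → w ≤ wb → qa ≤ q → q + Y ≤ qb + n * d → η * d ≤ Y → Y ≤ n * d →
        ∀ E : F.Ω → Prop, ϖ ≤ Pe p E →
        ca * Y * Real.log 2 ≤ CH (Pool.Agent.H49.Ent.cond p E True)
          (Uni.dg Y (fun ω => F.md (cv (vp w) κ q) (frm σ (a w) s t) ω 0))
          (F.blb w (cv (vp w) κ q) (frm σ (a w) s t))) →
      ∃ B : Finset (ℕ × ℕ), (B.card : ℝ) ≤ ρ * ((wb + 1 - wa : ℕ) * (qb - qa : ℕ)) ∧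
        ∀ w q, wa ≤ w → w ≤ wb → qa ≤ q → q < qb → (w, q) ∉ B →
          (1 - ε) * (n * d : ℕ) * Real.log 2 ≤
            CH p (Uni.dg (n * d) (tnu F w (cv (vp w) κ q) (frm σ (a w) s t) 0 1
              (sl (vp w) D (a w) al)))
              (fun ω => (vd F 0 1 w (cv (vp w) κ q) (frm σ (a w) s t) (n * d) ω,
                cdn F w (cv (vp w) κ q) (frm σ (a w) s t) (Uni.dg D al) ω)) ∧
          (2 - ε) * (n * d : ℕ) * Real.log 2 ≤
            CH p (fun ω => (Uni.dg (n * d) (tnu F w (cv (vp w) κ q) (frm σ (a w) s t) 0 1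
                (sl (vp w) D (a w) al)) ω,
              Uni.dg (n * d) (fun ω => F.mx w (cv (vp w) κ q) (frm σ (a w) s t) ω 0) ω))
              (cdn F w (cv (vp w) κ q) (frm σ (a w) s t) (Uni.dg D al)) := by
  classical
  intro ε ca ρ hε hca hρ
  obtain ⟨x₁, ϖ, δ, ε₁, η, n, d₀, hx₁, hϖ, hϖ1, hδ, hε₁, hη, hn, hd₀, hue⟩ :=
    ue_pairP ε ca hε hca
  obtain ⟨u, hu⟩ : ∃ u, u = Real.log 2 := ⟨_, rfl⟩
  have hu0 : 0 < u := by rw [hu]; exact Real.log_pos (by norm_num)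
  have hn0 : (1 : ℝ) ≤ n := by exact_mod_cast hn
  obtain ⟨γ, hγ⟩ : ∃ γ, γ = min 1 (ρ * δ / (28 * (n * u))) := ⟨_, rfl⟩
  have hγ0 : 0 < γ := by rw [hγ]; exact lt_min one_pos (by positivity)
  have hγ1 : γ ≤ 1 := by rw [hγ]; exact min_le_left _ _
  have hγ2 : 28 * (n * u) * γ ≤ ρ * δ := by
    have h1 : γ ≤ ρ * δ / (28 * (n * u)) := by rw [hγ]; exact min_le_right _ _
    rw [le_div_iff₀ (by positivity)] at h1
    linarith only [h1]
  have hl5 : 0 ≤ Real.log 5 := Real.log_nonneg (by norm_num)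
  have hl7 : 0 ≤ Real.log 7 := Real.log_nonneg (by norm_num)
  have hl15 : 0 ≤ Real.log 15 := Real.log_nonneg (by norm_num)
  have hl70 : 0 ≤ Real.log 70 := Real.log_nonneg (by norm_num)
  obtain ⟨N₁, hN₁⟩ := exists_nat_ge ((Real.log 70 + Real.log 7 + Real.log 15) / u)
  obtain ⟨N₂, hN₂⟩ := exists_nat_ge (2 * n * (4 * cst + 2 * Real.log 5) / (ρ * δ))
  refine ⟨x₁, ϖ, δ, ε₁, γ, η, n, d₀ + N₁ + N₂, hx₁, hϖ, hϖ1, hδ, hε₁, hγ0, hγ1, hη, hn,
    by omega, ?_⟩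
  intro J F p σ wa wb vp D a s t al κ d tt qa qb hR hw hq hd hX hJ htt htγ hXγ hDγ hrise hT h6 hE
  obtain ⟨X, hXe⟩ : ∃ X, X = n * d := ⟨_, rfl⟩
  rw [← hXe] at hX hJ htt hXγ hT h6 hE ⊢
  have hdX : d ≤ X := by
    rw [hXe]
    calc d = 1 * d := (one_mul d).symm
      _ ≤ n * d := Nat.mul_le_mul_right d hn
  have hd1 : 1 ≤ d := by omega
  have hX0 : 0 < X := by omega
  have hX0r : (0 : ℝ) < X := by exact_mod_cast hX0
  have hp := hR.law
  -- bad contexts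
  obtain ⟨B₀, hB₀⟩ : ∃ B₀, B₀ = (Finset.Icc wa wb ×ˢ Finset.Ico qa (qb + X)).filter
    (fun x => ¬ (TA F p σ vp D a s t al κ X x.1 x.2 ≤ δ * X ∧
      TB F p σ vp D a s t al κ X x.1 x.2 ≤ δ * X ∧
      TM F p σ vp D a s t al κ X x.1 x.2 ≤ δ * X)) := ⟨_, rfl⟩
  have hcb := card_bad (κ := κ) (δ := δ) hR hX0 hX htt hδ.le B₀ (by
    rw [hB₀]; exact Finset.filter_subset _ _) (fun x hx => by
      rw [hB₀] at hx; exact (Finset.mem_filter.1 hx).2)
  obtain ⟨B, hB⟩ : ∃ B, B = (Finset.Icc wa wb ×ˢ Finset.Ico qa qb).filter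
    (fun x => ∃ k < n, (x.1, x.2 + d * k) ∈ B₀) := ⟨_, rfl⟩
  have hBcard : (B.card : ℝ) ≤ n * B₀.card := by
    have h1 : B ⊆ (Finset.range n).biUnion fun k =>
        (Finset.Icc wa wb ×ˢ Finset.Ico qa qb).filter (fun x => (x.1, x.2 + d * k) ∈ B₀) := by
      intro x hx
      rw [hB, Finset.mem_filter] at hx
      obtain ⟨h1, k, hk, h2⟩ := hx
      rw [Finset.mem_biUnion]
      exact ⟨k, Finset.mem_range.2 hk, Finset.mem_filter.2 ⟨h1, h2⟩⟩
    have h2 : B.card ≤ n * B₀.card := by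
      refine (Finset.card_le_card h1).trans (Finset.card_biUnion_le.trans ?_)
      refine (Finset.sum_le_card_nsmul _ _ B₀.card ?_).trans (le_of_eq ?_)
      · intro k _
        refine Finset.card_le_card_of_injOn (fun x => (x.1, x.2 + d * k)) ?_ ?_
        · intro x hx
          exact (Finset.mem_filter.1 (Finset.mem_coe.1 hx)).2
        · intro x _ y _ hxy
          have h3 := Prod.ext_iff.mp hxy
          have h4 : x.1 = y.1 := h3.1
          have h5 : x.2 + d * k = y.2 + d * k := h3.2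
          exact Prod.ext h4 (by omega)
      · rw [Finset.card_range, smul_eq_mul]
    exact_mod_cast h2
  have hcW : (Finset.Icc wa wb).card = wb + 1 - wa := Nat.card_Icc _ _
  have hcQ : (Finset.Ico qa (qb + X)).card = qb + X - qa := Nat.card_Ico _ _
  have hcU : (Finset.Ico (wa + vp wa + qa) (wb + vp wb + (qb + X))).card =
      wb + vp wb + (qb + X) - (wa + vp wa + qa) := Nat.card_Ico _ _
  rw [hcW, hcQ, hcU] at hcb
  have hN1 : Real.log 70 + Real.log 7 + Real.log 15 ≤ u * X := by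
    have h1 : ((N₁ : ℕ) : ℝ) ≤ X := by
      have : N₁ ≤ X := by omega
      exact_mod_cast this
    have h2 := hN₁.trans h1
    rw [div_le_iff₀ hu0] at h2
    linarith only [h2]
  have hN2 : 2 * n * (4 * cst + 2 * Real.log 5) ≤ ρ * δ * X := by
    have h1 : ((N₂ : ℕ) : ℝ) ≤ X := by
      have : N₂ ≤ X := by omega
      exact_mod_cast this
    have h2 := hN₂.trans h1
    rw [div_le_iff₀ (by positivity)] at h2
    linarith only [h2]
  have hfin := arith (n := n) (u := u) (X := X) (tt := tt) (l70 := Real.log 70)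
    (l7 := Real.log 7) (l5 := Real.log 5) (l15 := Real.log 15) (C := cst) (γ := γ) (δ := δ)
    (ρ := ρ) (bad := B₀.card) (nW := (wb + 1 - wa : ℕ)) (nQ' := (qb - qa : ℕ))
    (nQ := (qb + X - qa : ℕ)) (nU := (wb + vp wb + (qb + X) - (wa + vp wa + qa) : ℕ))
    (Dv := (D - vp wa : ℕ)) hn0 hu0 hX0r (Nat.cast_nonneg _) (Nat.cast_nonneg _) hγ0 hγ1
    cst_nonneg hl5 htγ (by exact_mod_cast hX) hXγ
    (by
      have : qb + X - qa = (qb - qa) + X := by omega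
      rw [this]
      push_cast
      ring)
    (by
      have : wb + vp wb + (qb + X) - (wa + vp wa + qa) ≤ (qb - qa) + (qb + X - qa) := by omega
      exact_mod_cast this)
    (Nat.cast_nonneg _) hDγ (by linarith only [hl7, hl15, hN1]) (by linarith only [hl15, hl70, hN1]) (by linarith only [hl7, hl70, hN1]) hl70 hl7 hδ hγ2 hN2
    (by rw [hu]; exact hcb)
  refine ⟨B, hBcard.trans hfin, ?_⟩
  intro w q h1 h2 h3 h4 hwq
  have hgood : ∀ k < n, TA F p σ vp D a s t al κ X w (q + d * k) ≤ δ * X ∧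
      TB F p σ vp D a s t al κ X w (q + d * k) ≤ δ * X ∧
      TM F p σ vp D a s t al κ X w (q + d * k) ≤ δ * X := by
    intro k hk
    by_contra hcon
    refine hwq ?_
    rw [hB, Finset.mem_filter]
    refine ⟨Finset.mem_product.2 ⟨Finset.mem_Icc.2 ⟨h1, h2⟩, Finset.mem_Ico.2 ⟨h3, h4⟩⟩, k, hk, ?_⟩
    rw [hB₀, Finset.mem_filter]
    refine ⟨Finset.mem_product.2 ⟨Finset.mem_Icc.2 ⟨h1, h2⟩, Finset.mem_Ico.2 ⟨by simp only; omega, ?_⟩⟩,
      hcon⟩
    simp only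
    have : d * k < X := by
      rw [hXe, mul_comm n d]
      exact Nat.mul_lt_mul_of_pos_left hk hd1
    omega
  have hM : Det p (slam F w) (frm σ (a w) s t) := by
    intro ω ω' hω hω' e
    have e1 := hR.det w h1 h2 ω ω' hω hω' e
    have e2 := Prod.ext_iff.mp e1
    have e3 := Prod.ext_iff.mp e2.2
    unfold frm
    have f1 : a w ω = a w ω' := e2.1
    have f2 : s ω = s ω' := e3.1
    have f3 : t ω = t ω' := e3.2
    rw [f1, f2, f3]
  have hS : Det p (fun ω => (F.blb w (cv (vp w) κ q) (frm σ (a w) s t) ω,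
      (Uni.dg D al ω, F.T ω))) (sl (vp w) D (a w) al) := by
    intro ω ω' _ _ e
    have e1 := Prod.ext_iff.mp e
    exact Rc.det_sl hR.inj e1.1 (Prod.ext_iff.mp e1.2).1
  have key := hue F (Uni.dg D al) p 0 1 w (cv (vp w) κ q) (frm σ (a w) s t)
    (sl (vp w) D (a w) al) d hp (by omega) (by rw [← hXe]; omega) hM hS
    (fun ω hω => hR.sl4 h1 h2 hω)
    (fun E hPE => ⟨by rw [← hXe]; exact tmw_up (ev_law hp hϖ hPE) h1 (by omega) (hT E hPE), by
      rw [← hXe]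
      have := h6 w q h1 h2 h3 h4 E hPE
      unfold Fam.lbr
      rw [cv_add]
      exact this⟩)
    (fun r Y hY hrX E hPE => by
      rw [← hXe] at hrX
      have := hE w (q + r) Y h1 h2 (by omega) (by omega) hY (by omega) E hPE
      rw [cv_add]
      unfold Fam.lbr
      rw [cv_add]
      exact this)
    (fun r hr hrX => by
      obtain ⟨k, rfl⟩ := hr
      rw [← hXe] at hrX ⊢
      have hk : k < n := by
        rw [hXe, mul_comm n d] at hrX
        exact lt_of_mul_lt_mul_left hrX (Nat.zero_le _)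
      obtain ⟨g1, g2, g3⟩ := hgood k hk
      rw [cv_add]
      exact ⟨g1, g2, g3⟩)
  rw [← hXe] at key
  exact key

end Pool.S6B
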