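import Pool.Agent.H10.S6U.Main
import Pool.Agent.H46.S6.PlvT

/-!
# The local U-step without the hypothesis that the rows of the base position are full

Lemma W (helper21) gives the rows of the base position from the telescope (B), the time and the
activity of the base velocity. So the context need not be visible: only the activity of the base
velocity in the contexts is used.
-/

set_option autoImplicit false

namespace Pool.S6B

open Finset Real
open Pool.Agent.H49.Ent Pool.Agent.H32.Dense Pool.STK Pool.KA Pool.KSAT Pool.K2S Pool.S6U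

section ent

variable {Ω S T U β γ : Type} [Fintype Ω] {p : Ω → ℝ}

/-- A loss of entropy on an event: `K` bounds the entropy of the variable under all laws. -/
theorem loss_event (hp : IsLaw p) {E : Ω → Prop} {ϖ : ℝ} (hϖ : 0 < ϖ) (hE : ϖ ≤ Pe p E)
    (N : Ω → S) (b : Ω → β) {K e : ℝ}
    (hK : ∀ q : Ω → ℝ, IsLaw q → CH q N b ≤ K) (h : K - e ≤ CH p N b) :
    K - (e + Real.log 2) / ϖ ≤ CH (Pool.Agent.H49.Ent.cond p E True) N b := by
  classical
  have hp0 := hp.nonneg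
  have hl2 : 0 < Real.log 2 := Real.log_pos (by norm_num)
  have hq : IsLaw (Pool.Agent.H49.Ent.cond p E True) := ev_law hp hϖ hE
  have h1 := CH_and_event hp E N b
  have h2 := CH_split hp0 N b E
  have hPE : ϖ ≤ law p E True := hE
  have hdiff : (K - CH (Pool.Agent.H49.Ent.cond p E True) N b) * law p E True ≤ e + Real.log 2 := by
    have h3 : ∑ j ∈ univ.image E, law p E j * CH (Pool.Agent.H49.Ent.cond p E j) N b ≤
        law p E True * CH (Pool.Agent.H49.Ent.cond p E True) N b +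
          (1 - law p E True) * K := by
      have hmem : True ∈ univ.image E := by
        by_contra hm
        have := law_eq_zero_of_notMem p E hm
        linarith only [hϖ, hE, this]
      rw [← Finset.add_sum_erase _ _ hmem]
      have h4 : ∑ j ∈ (univ.image E).erase True,
          law p E j * CH (Pool.Agent.H49.Ent.cond p E j) N b ≤
          ∑ j ∈ (univ.image E).erase True, law p E j * K := by
        refine Finset.sum_le_sum fun j _ => ?_
        rcases (law_nonneg hp0 E j).lt_or_eq with hj | hj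
        · exact mul_le_mul_of_nonneg_left (hK _ (Uni.isLaw_cond' hp0 E hj)) hj.le
        · rw [← hj, zero_mul, zero_mul]
      have h5 : law p E True + ∑ j ∈ (univ.image E).erase True, law p E j = 1 := by
        rw [Finset.add_sum_erase _ _ hmem]
        exact by
          rw [sum_law]
          exact hp.sum_one
      rw [← Finset.sum_mul] at h4
      have h6 : ∑ j ∈ (univ.image E).erase True, law p E j = 1 - law p E True := by linarith only [h5]
      rw [h6] at h4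
      linarith only [h4]
    rw [h2] at h1
    nlinarith only [h, h1, h3]
  have h7 : K - CH (Pool.Agent.H49.Ent.cond p E True) N b ≤ (e + Real.log 2) / ϖ := by
    rw [le_div_iff₀ hϖ]
    have h8 := hK _ hq
    nlinarith only [hdiff, hE, h8]
  linarith only [h7]

end ent


/-- The label, the positions and the velocities are functions of the line and the window. -/
theorem lab_slam {m J : ℕ} {F : Fam m J} {p : F.Ω → ℝ} {w : ℕ} {c : Fin m → ℕ}
    {M : F.Ω → Fin m → Fin m → ℝ} (hM : Det p (slam F w) M) {ω ω' : F.Ω} (hω : 0 < p ω)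
    (hω' : 0 < p ω') (h : slam F w ω = slam F w ω') (i : Fin m) :
    F.mu w (fun i => c i + w) M ω i = F.mu w (fun i => c i + w) M ω' i ∧
      F.md c M ω i = F.md c M ω' i := by
  have h1 : F.l ω = F.l ω' := (Prod.ext_iff.mp h).1
  have h2 := Prod.ext_iff.mp (Prod.ext_iff.mp h).2
  have h3 : F.Z ω = F.Z ω' := h2.1
  have h4 : F.T1 w ω = F.T1 w ω' := h2.2
  obtain ⟨-, e1, e2⟩ := Box.label_det F (k := fun i => c i + w) (c := c) h1 h4
    (hM ω ω' hω hω' h) h3
  exact ⟨congrFun e1 i, congrFun e2 i⟩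

/-- **The rows of the base position** in one context, from lemma W. -/
theorem wf_wd : ∀ ε ca : ℝ, 0 < ε → 0 < ca → ∃ (η ϖ ι : ℝ) (n₀ : ℕ), 0 < η ∧ 0 < ϖ ∧ 0 < ι ∧
    ∀ {m J : ℕ} (F : Fam m J) {Γ : Type} (G : F.Ω → Γ) (p : F.Ω → ℝ) (i₀ : Fin m) (w : ℕ)
      (c : Fin m → ℕ) (M : F.Ω → Fin m → Fin m → ℝ) (X X₀ : ℕ) (e : ℝ), IsLaw p → n₀ ≤ X →
      X ≤ X₀ → w + X ≤ J → Det p (slam F w) M →
      ((J : ℝ) - w) * Real.log 2 - e ≤ CH p F.T (slam F w) →
      tB F p i₀ w c M G X₀ ≤ e → tM F p w c M G X₀ ≤ e → 0 ≤ e → 2 * e ≤ ι * X * Real.log 2 →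
      (∀ r Y : ℕ, η * X ≤ Y → r + Y ≤ X → ∀ E : F.Ω → Prop, ϖ ≤ Pe p E →
        ca * Y * Real.log 2 ≤ CH (Pool.Agent.H49.Ent.cond p E True)
          (Uni.dg Y (fun ω => F.md (fun i => c i + r) M ω i₀)) (F.lbr w c M r)) →
      (1 - ε) * X * Real.log 2 ≤
        CH p (Uni.dg X (fun ω => F.mx w c M ω i₀)) (fun ω => (F.blb w c M ω, F.T ω)) := by
  intro ε ca hε hca
  obtain ⟨η, ϖ, ι, n₀, hη, hϖ, hι, h⟩ := Pool.UE.wd ε ca hε hca
  refine ⟨η, ϖ, ι, n₀, hη, hϖ, hι, ?_⟩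
  intro m J F Γ G p i₀ w c M X X₀ e hp hn hX hwX hM hT hB hm he he2 hact
  have h0 := hp.nonneg
  have hl2 : 0 < Real.log 2 := Real.log_pos (by norm_num)
  have hl1 : Real.log 2 < 1 := by
    have := Real.log_two_lt_d9
    linarith only [hl2, this]
  have hX0 : (0 : ℝ) ≤ X := Nat.cast_nonneg _
  have he3 : 2 * e ≤ ι * X := by
    have : 0 ≤ ι * X := by positivity
    nlinarith only [he2, he, hl1, hl2]
  have hbl : F.lbr w c M 0 = F.blb w c M := rfl
  have hdb : Det p (F.blb w c M) (F.T1 w) := fun ω ω' _ _ h => (Box.mlb_ext h).1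
  have hdL : Det p (slam F w) (fun ω => (slam F w ω, F.blb w c M ω)) :=
    fun ω ω' a b e => Prod.ext e (lbr_slam hM 0 ω ω' a b e)
  refine h F.Ω _ _ _ p (F.blb w c M) (slam F w) F.T (fun ω => F.md c M ω i₀)
    (fun ω => F.mu w (fun i => c i + w) M ω i₀) (F.wt w) (fun _ => 0)
    (fun ω => F.mx w c M ω i₀) X ?_ hn ?_ ?_ ?_ ?_
  · refine ⟨hp, ?_, ?_, ?_, ?_, fun ω _ => Box.md_mem F c M ω i₀, fun ω _ => Lab.wt_mem F w ω, ?_⟩
    · exact fun ω ω' a b e => (lab_slam (c := c) hM a b (Prod.ext_iff.mp e).2 i₀).2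
    · exact fun ω ω' a b e => (lab_slam (c := c) hM a b (Prod.ext_iff.mp e).2 i₀).1
    · exact fun ω ω' _ _ e => wt_det (Prod.ext_iff.mp e).2
    · exact fun _ _ _ _ _ => rfl
    · intro ω _
      unfold Fam.mx
      ring
  · rw [MI_eq_dp h0]
    have := time_mi hp (by omega : w ≤ J) hdb hdL hT
    linarith only [he, he3, this]
  · have := time_dig hp hdL hT hwX
    have e1 : (1 - ι) * X * Real.log 2 = X * Real.log 2 - ι * X * Real.log 2 := by ring
    rw [e1]
    linarith only [he, he2, this]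
  · -- independence
    have a1 : dp p (Uni.dg X (fun ω => F.mx w c M ω i₀)) (Uni.dg X (fun ω => F.md c M ω i₀))
        (fun ω => (G ω, (F.blb w c M ω, F.T ω))) ≤ tB F p i₀ w c M G X₀ := by
      unfold tB
      rw [dp_symm h0]
      have b1 : dp p (Uni.dg X (fun ω => F.md c M ω i₀)) (Uni.dg X (fun ω => F.mx w c M ω i₀))
          (fun ω => (G ω, (F.blb w c M ω, F.T ω))) =
          dp p (Uni.dg X (fun ω => F.md c M ω i₀)) (Uni.dg X (fun ω => F.mx w c M ω i₀))
          (cdn F w c M G) := by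
        refine dp_congr_cond h0 ?_ ?_ <;>
        · intro ω ω' _ _ h
          unfold cdn at *
          simp only [Prod.mk.injEq] at h ⊢
          tauto
      rw [b1]
      exact dp_mono h0 (fun ω ω' _ _ h => dg_mono hX (Prod.ext_iff.mp h).1)
        (fun ω ω' _ _ h => dg_mono hX (Prod.ext_iff.mp h).1)
    have a2 : dp p G (Uni.dg X (fun ω => F.md c M ω i₀)) (fun ω => (F.blb w c M ω, F.T ω)) ≤
        tM F p w c M G X₀ := by
      unfold tM
      refine dp_mono h0 (fun _ _ _ _ h => (Prod.ext_iff.mp h).1) ?_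
      intro ω ω' _ _ h
      exact (lbr_dig hX (Prod.ext_iff.mp h).1 i₀).2
    have a3 := dp_add h0 (Uni.dg X (fun ω => F.mx w c M ω i₀)) G
      (Uni.dg X (fun ω => F.md c M ω i₀)) (fun ω => (F.blb w c M ω, F.T ω))
    have a4 : dp p (Uni.dg X (fun ω => F.mx w c M ω i₀)) (Uni.dg X (fun ω => F.md c M ω i₀))
        (fun ω => (F.blb w c M ω, F.T ω)) ≤
        dp p (fun ω => (Uni.dg X (fun ω => F.mx w c M ω i₀) ω, G ω))
        (Uni.dg X (fun ω => F.md c M ω i₀)) (fun ω => (F.blb w c M ω, F.T ω)) :=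
      dp_mono h0 (fun _ _ _ _ h => (Prod.ext_iff.mp (Prod.ext_iff.mp h).1).1)
        (fun _ _ _ _ h => (Prod.ext_iff.mp h).1)
    have a5 : dp p (Uni.dg X (fun ω => F.mx w c M ω i₀)) (Uni.dg X (fun ω => F.md c M ω i₀))
        (fun ω => (F.blb w c M ω, F.T ω)) ≤ ι * X := by linarith only [hB, hm, he3, a1, a2, a3, a4]
    exact a5
  · intro r Y hY hrY E hE
    have h1 := hact r Y hY hrY E hE
    refine h1.trans ?_
    have h2 : CH (Pool.Agent.H49.Ent.cond p E True)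
        (Uni.dg Y (fun ω => F.md (fun i => c i + r) M ω i₀)) (F.lbr w c M r) ≤
        CH (Pool.Agent.H49.Ent.cond p E True) (Uni.dg (r + Y) (fun ω => F.md c M ω i₀))
          (F.lbr w c M r) := by
      refine CH_mono_left (cond_nonneg h0 _ _) ?_
      intro ω ω' _ _ h
      have e1 : ⌊(2 : ℝ) ^ (r + Y) * F.md c M ω i₀⌋ = ⌊(2 : ℝ) ^ (r + Y) * F.md c M ω' i₀⌋ :=
        (Prod.ext_iff.mp h).1
      have e2 := (lbr_dig (le_refl r) (Prod.ext_iff.mp h).2 i₀).2
      change ⌊(2 : ℝ) ^ Y * F.md (fun i => c i + r) M ω i₀⌋ =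
        ⌊(2 : ℝ) ^ Y * F.md (fun i => c i + r) M ω' i₀⌋
      rw [md_lbr, md_lbr, Lab.floor_fract, Lab.floor_fract, e2]
      have e3 : ∀ x : ℝ, (2 : ℝ) ^ Y * (2 ^ r * x) = 2 ^ (r + Y) * x := by
        intro x
        rw [pow_add]
        ring
      rw [e3, e3, e1]
    refine h2.trans (CH_mono_cond (cond_nonneg h0 _ _) ?_)
    intro ω ω' _ _ h
    have e2 := lbr_dig (le_refl r) h i₀
    exact Prod.ext e2.2 (Prod.ext e2.1 (lbr_mono (Nat.zero_le _) h))

/-- The law conditioned on the sure event. -/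
theorem cond_true {Ω : Type} [Fintype Ω] {p : Ω → ℝ} (hp : IsLaw p) :
    Pe p (fun _ => True) = 1 ∧ Pool.Agent.H49.Ent.cond p (fun _ : Ω => True) True = p := by
  have hP1 : Pe p (fun _ => True) = 1 := by
    rw [Pe_eq]
    simp only [if_true]
    exact hp.sum_one
  refine ⟨hP1, ?_⟩
  funext ω
  unfold Pool.Agent.H49.Ent.cond
  rw [if_pos rfl]
  have : law p (fun _ : Ω => True) True = 1 := hP1
  rw [this, div_one]

/-- The digits of the position in the box. -/
theorem CH_mx_le {m J : ℕ} {F : Fam m J} {q : F.Ω → ℝ} (hq : IsLaw q) {w : ℕ} {c : Fin m → ℕ}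
    {M : F.Ω → Fin m → Fin m → ℝ} (i₀ : Fin m) (X : ℕ) {T : Type} (Z : F.Ω → T) :
    CH q (Uni.dg X (fun ω => F.mx w c M ω i₀)) Z ≤ X * Real.log 2 + Real.log 2 := by
  have h1 := CH_le_card hq.nonneg hq.sum_one (Uni.dg X (fun ω => F.mx w c M ω i₀)) Z
    (fun _ => Finset.Ico (0 : ℤ) (2 ^ (X + 1))) (by
      intro ω _
      have a1 := Box.mu_mem F w (fun i => c i + w) M ω i₀
      have a3 := Box.md_mem F c M ω i₀
      have t0 := Lab.wt_mem F w ω
      have hx : 0 ≤ F.mx w c M ω i₀ ∧ F.mx w c M ω i₀ < 2 := by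
        unfold Fam.mx
        have k1 : 0 ≤ F.wt w ω * F.md c M ω i₀ := mul_nonneg t0.1 a3.1
        have k2 : F.wt w ω * F.md c M ω i₀ ≤ 1 := mul_le_one₀ t0.2.le a3.1 a3.2.le
        constructor <;> linarith [a1.1, a1.2]
      rw [Finset.mem_Ico]
      constructor
      · refine Int.floor_nonneg.2 ?_
        exact mul_nonneg (by positivity) hx.1
      · refine Int.floor_lt.2 ?_
        push_cast
        rw [pow_succ]
        exact mul_lt_mul_of_pos_left hx.2 (by positivity))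
  refine h1.trans (le_of_eq ?_)
  have e1 : ((Finset.Ico (0 : ℤ) (2 ^ (X + 1))).card : ℝ) = 2 ^ (X + 1) := by
    rw [Int.card_Ico, sub_zero]
    have e2 : ((2 : ℤ) ^ (X + 1)) = ((2 ^ (X + 1) : ℕ) : ℤ) := by push_cast; rfl
    rw [e2, Int.toNat_natCast]
    push_cast
    rfl
  rw [e1, Ex_const hq.sum_one, Real.log_pow]
  push_cast
  ring

/-- **The U-step at one context, the pair**, without the hypothesis on the base position. -/
theorem ue_pairP : ∀ ε ca : ℝ, 0 < ε → 0 < ca → ∃ (x₁ ϖ δ ε₁ η : ℝ) (n d₀ : ℕ), 0 < x₁ ∧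
    0 < ϖ ∧ ϖ ≤ 1 ∧ 0 < δ ∧ 0 < ε₁ ∧ 0 < η ∧ 1 ≤ n ∧ 1 ≤ d₀ ∧
    ∀ {m J : ℕ} (F : Fam m J) {Γ : Type} (G : F.Ω → Γ) (p : F.Ω → ℝ) (i₀ iu : Fin m) (w : ℕ)
      (c : Fin m → ℕ) (M : F.Ω → Fin m → Fin m → ℝ) (S : F.Ω → ℝ) (d : ℕ), IsLaw p →
      d₀ ≤ d → w + n * d ≤ J → Det p (slam F w) M →
      Det p (fun ω => (F.blb w c M ω, (G ω, F.T ω))) S → (∀ ω, 0 < p ω → |S ω| ≤ 4) →
      (∀ E : F.Ω → Prop, ϖ ≤ Pe p E →
        Tq F w c M S (n * d) δ x₁ ε₁ (Pool.Agent.H49.Ent.cond p E True)) →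
      (∀ r Y : ℕ, η * d ≤ Y → r + Y ≤ n * d → ∀ E : F.Ω → Prop, ϖ ≤ Pe p E →
        ca * Y * Real.log 2 ≤ CH (Pool.Agent.H49.Ent.cond p E True)
          (Uni.dg Y (fun ω => F.md (fun i => c i + r) M ω i₀)) (F.lbr w c M r)) →
      (∀ r, d ∣ r → r < n * d → Dq F p i₀ iu w (fun i => c i + r) M S G (n * d) δ) →
      (1 - ε) * (n * d : ℕ) * Real.log 2 ≤
        CH p (Uni.dg (n * d) (tnu F w c M i₀ iu S))
          (fun ω => (vd F i₀ iu w c M (n * d) ω, cdn F w c M G ω)) ∧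
      (2 - ε) * (n * d : ℕ) * Real.log 2 ≤
        CH p (fun ω => (Uni.dg (n * d) (tnu F w c M i₀ iu S) ω,
          Uni.dg (n * d) (fun ω => F.mx w c M ω i₀) ω)) (cdn F w c M G) := by
  intro ε ca hε hca
  obtain ⟨x₁, ϖ₀, δ₀, ε₁, n, d₀, hx₁, hϖ₀, hϖ₀1, hδ₀, hε₁, hn, hd₀, hue⟩ := ue_pair ε ca hε hca
  obtain ⟨u, hu⟩ : ∃ u, u = Real.log 2 := ⟨_, rfl⟩
  have hu0 : 0 < u := by rw [hu]; exact Real.log_pos (by norm_num)
  have hn0 : (1 : ℝ) ≤ n := by exact_mod_cast hn
  have hnp : (0 : ℝ) < n := by linarith only [hn0]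
  obtain ⟨ε', hε'⟩ : ∃ ε', ε' = δ₀ * ϖ₀ / (4 * u) := ⟨_, rfl⟩
  have hε'0 : 0 < ε' := by rw [hε']; positivity
  obtain ⟨η, ϖ₁, ι, n₀, hη, hϖ₁, hι, hwd⟩ := wf_wd ε' ca hε'0 hca
  obtain ⟨δ, hδ⟩ : ∃ δ, δ = min δ₀ (ι * u / (2 * n)) := ⟨_, rfl⟩
  have hδ0 : 0 < δ := by rw [hδ]; exact lt_min hδ₀ (by positivity)
  have hδδ : δ ≤ δ₀ := by rw [hδ]; exact min_le_left _ _
  have hδι : 2 * n * δ ≤ ι * u := by
    have h1 : δ ≤ ι * u / (2 * n) := by rw [hδ]; exact min_le_right _ _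
    rw [le_div_iff₀ (by positivity)] at h1
    linarith only [h1]
  obtain ⟨ϖ, hϖ⟩ : ∃ ϖ, ϖ = min ϖ₀ ϖ₁ := ⟨_, rfl⟩
  have hϖ0 : 0 < ϖ := by rw [hϖ]; exact lt_min hϖ₀ hϖ₁
  have hϖa : ϖ ≤ ϖ₀ := by rw [hϖ]; exact min_le_left _ _
  have hϖb : ϖ ≤ ϖ₁ := by rw [hϖ]; exact min_le_right _ _
  obtain ⟨N₁, hN₁⟩ := exists_nat_ge (8 * u / (ϖ₀ * δ₀))
  refine ⟨x₁, ϖ, δ, ε₁, min η 1, n, d₀ + n₀ + N₁, hx₁, hϖ0, hϖa.trans hϖ₀1, hδ0, hε₁,
    lt_min hη one_pos, hn, by omega, ?_⟩
  intro m J F Γ G p i₀ iu w c M S d hp hd hwX hM hS hS4 hT hA hD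
  have h0 := hp.nonneg
  obtain ⟨X, hX⟩ : ∃ X, X = n * d := ⟨_, rfl⟩
  have hdX : d ≤ X := by
    rw [hX]
    calc d = 1 * d := (one_mul d).symm
      _ ≤ n * d := Nat.mul_le_mul_right d hn
  have hX0 : (0 : ℝ) ≤ X := Nat.cast_nonneg _
  have hd0r : (0 : ℝ) ≤ d := Nat.cast_nonneg _
  have hXr : (X : ℝ) = n * d := by rw [hX]; push_cast; ring
  obtain ⟨hP1, hcT⟩ := cond_true hp
  have hb0 : F.lbr w c M 0 = F.blb w c M := rfl
  have hsh : ∀ r r', F.lbr w (fun i => c i + r) M r' = F.lbr w c M (r + r') := by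
    intro r r'
    unfold Fam.lbr
    congr 1
    funext i
    ring
  have hbig : 8 * u ≤ ϖ₀ * δ₀ * X := by
    have h1 : ((N₁ : ℕ) : ℝ) ≤ X := by
      have : N₁ ≤ X := by omega
      exact_mod_cast this
    have h2 := hN₁.trans h1
    rw [div_le_iff₀ (by positivity)] at h2
    linarith only [h2]
  have hT1 := hT (fun _ => True) (by rw [hP1]; exact hϖa.trans hϖ₀1)
  rw [hcT, ← hX] at hT1
  refine hue F G p i₀ iu w c M S d hp (by omega) hwX hM hS hS4 ?_ ?_ ?_
  · intro E hE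
    have h1 := hT E (hϖa.trans hE)
    rw [← hX] at h1 ⊢
    refine ⟨le_trans ?_ h1.tm, h1.h6⟩
    have := mul_le_mul_of_nonneg_right hδδ hX0
    linarith only [this]
  · intro r X' hr hX'd hX'0 hrX E hE
    rw [← hX] at hrX ⊢
    have hdX' : d ≤ X' := Nat.le_of_dvd hX'0 hX'd
    have hdX'r : (d : ℝ) ≤ X' := by exact_mod_cast hdX'
    have hX'X : X' ≤ X := by omega
    have hX'Xr : (X' : ℝ) ≤ X := by exact_mod_cast hX'X
    have hrlt : r < n * d := by
      rw [← hX]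
      omega
    have hDr := hD r hr hrlt
    rw [← hX] at hDr
    have hwf := hwd F G p i₀ w (fun i => c i + r) M X' X (δ * X) hp (by omega) hX'X
      (by rw [← hX] at hwX; omega) hM hT1.tm hDr.b hDr.m (by positivity) (by
        have e1 : 2 * (δ * X) = 2 * n * δ * d := by rw [hXr]; ring
        rw [e1, ← hu]
        calc 2 * n * δ * d ≤ ι * u * d := mul_le_mul_of_nonneg_right hδι hd0r
          _ ≤ ι * u * X' := mul_le_mul_of_nonneg_left hdX'r (by positivity)
          _ = ι * X' * u := by ring) (by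
        intro r' Y hY hrY E' hE'
        have := hA (r + r') Y (by
          calc min η 1 * d ≤ η * d := mul_le_mul_of_nonneg_right (min_le_left _ _) hd0r
            _ ≤ η * X' := mul_le_mul_of_nonneg_left hdX'r hη.le
            _ ≤ Y := hY) (by rw [← hX]; omega) E' (hϖb.trans hE')
        rw [hsh]
        have e1 : (fun i => c i + r + r') = fun i => c i + (r + r') := by
          funext i
          ring
        rw [e1]
        exact this)
    refine ⟨?_, ?_⟩
    · -- the rows on the event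
      have e0 : F.blb w (fun i => c i + r) M = F.lbr w c M r := rfl
      rw [e0] at hwf
      have key := loss_event hp hϖ₀ hE (Uni.dg X' (fun ω => F.mx w (fun i => c i + r) M ω i₀))
        (fun ω => (F.lbr w c M r ω, F.T ω)) (K := X' * Real.log 2 + Real.log 2)
        (e := ε' * X' * Real.log 2 + Real.log 2) (fun q hq => CH_mx_le hq i₀ X' _) (by
          have : (1 - ε') * X' * Real.log 2 = X' * Real.log 2 - ε' * X' * Real.log 2 := by ring
          rw [this] at hwf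
          linarith only [hwf])
      refine le_trans ?_ key
      rw [← hu]
      have e1 : (ε' * X' * u + u + u) / ϖ₀ ≤ δ₀ * X := by
        rw [div_le_iff₀ hϖ₀, hε']
        have e2 : δ₀ * ϖ₀ / (4 * u) * X' * u = δ₀ * ϖ₀ * X' / 4 := by
          field_simp
        rw [e2]
        have e3 : δ₀ * ϖ₀ * X' ≤ δ₀ * ϖ₀ * X := mul_le_mul_of_nonneg_left hX'Xr (by positivity)
        have e4 : δ₀ * X * ϖ₀ = ϖ₀ * δ₀ * X := by ring
        have e5 : δ₀ * ϖ₀ * X = ϖ₀ * δ₀ * X := by ring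
        rw [e4]
        rw [e5] at e3
        have e6 : 0 ≤ ϖ₀ * δ₀ * X := by positivity
        linarith only [hu0, hbig, e3]
      linarith only [hu0, e1]
    · have := hA r X' (by
        calc min η 1 * d ≤ 1 * d := mul_le_mul_of_nonneg_right (min_le_right _ _) hd0r
          _ ≤ X' := by rw [one_mul]; exact hdX'r) (by rw [← hX]; omega) E (hϖa.trans hE)
      exact this
  · intro r hr hrX
    have h1 := hD r hr hrX
    rw [← hX] at h1 ⊢
    have hm := mul_le_mul_of_nonneg_right hδδ hX0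
    exact ⟨h1.a.trans hm, h1.b.trans hm, h1.m.trans hm⟩

end Pool.S6B
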